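import Pool.Agent.Helper93.K3B.Div

/-!
K3B / C1B: `b = g(y,w) e_0` with `g` of rank `≥ 2`: the shape of `B`, from (g3) only.

(g3) reads `g(y,w') R_w - g(y,w) R_w' = (g(w,w') - g(w',w)) D x (A_y t) e_0`, where
`R_w(x,t) = D t (B_w x) e_0 + D x (B_w t) e_0 - D x (A_w t) e_0` (symmetric in `x, t`, because
`D x (A_w t) e_0 = - k(w) x_2 t_2`, `k(w) = A_w 1 2`, is symmetric).
For given `w` choose `y` with `g(y,w) = 0` and `g(y,·) ≠ 0` (rank `g ≥ 2`), `w'` with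
`g(y,w') ≠ 0`: `R_w` is a multiple of `x_2 t_2`.  Coefficients of `R_w`: `x_0 t_1 : B 2 0`,
`x_0 t_2 : -B 1 0`, `x_1 t_1 : 2 B 2 1`, `x_1 t_2 : B 2 2 - B 1 1`, `x_2 t_2 : k(w) - 2 B 1 2`.
The second statement is the coefficient of `x_2 t_2` of (g3).
-/

set_option autoImplicit false

namespace Pool.Agent.Helper93.K3B

open Matrix Pool.Agent.Helper93.K3A

variable {W : Type} [AddCommGroup W] [Module ℂ W]

private theorem c1b_choose (g : W →ₗ[ℂ] W →ₗ[ℂ] ℂ)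
    (hg : ∃ y y' w w', g y w * g y' w' ≠ g y w' * g y' w) (w : W) :
    ∃ y w', g y w = 0 ∧ g y w' ≠ 0 := by
  obtain ⟨y1, y2, w1, w2, hne⟩ := hg
  by_contra hc
  push Not at hc
  by_cases h0 : ∀ y, g y w = 0
  · have h1 : ∀ y w', g y w' = 0 := fun y w' => hc y w' (h0 y)
    apply hne
    rw [h1, h1]
    simp [h1]
  · push Not at h0
    obtain ⟨y0, hy0⟩ := h0
    have h1 : ∀ y w', g y w' * g y0 w = g y w * g y0 w' := by
      intro y w'
      have h2 := hc (g y0 w • y - g y w • y0) w' (by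
        simp only [map_sub, map_smul, LinearMap.sub_apply, LinearMap.smul_apply, smul_eq_mul]
        ring)
      simp only [map_sub, map_smul, LinearMap.sub_apply, LinearMap.smul_apply, smul_eq_mul] at h2
      linear_combination h2
    apply hne
    apply mul_left_cancel₀ (mul_ne_zero hy0 hy0)
    have e1 := h1 y1 w1
    have e2 := h1 y2 w2
    have e3 := h1 y1 w2
    have e4 := h1 y2 w1
    calc g y0 w * g y0 w * (g y1 w1 * g y2 w2) = (g y1 w1 * g y0 w) * (g y2 w2 * g y0 w) := by ring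
      _ = (g y1 w2 * g y0 w) * (g y2 w1 * g y0 w) := by rw [e1, e2, e3, e4]; ring
      _ = g y0 w * g y0 w * (g y1 w2 * g y2 w1) := by ring

theorem c1_B {S : DatG W} (h : ClG S) (g : W →ₗ[ℂ] W →ₗ[ℂ] ℂ)
    (hb : ∀ y w, S.b y w = g y w • (![1, 0, 0] : V3)) (hA : ∀ y, T1 (S.A y))
    (hg : ∃ y y' w w', g y w * g y' w' ≠ g y w' * g y' w) :
    (∀ w, S.B w 1 0 = 0 ∧ S.B w 2 0 = 0 ∧ S.B w 2 1 = 0 ∧ S.B w 1 1 = S.B w 2 2) ∧
    ∀ y w w', g y w' * (2 * S.B w 1 2 - S.A w 1 2) - g y w * (2 * S.B w' 1 2 - S.A w' 1 2)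
      = (g w w' - g w' w) * S.A y 1 2 := by
  have key : ∀ y w w' (x t : V3), g y w' * (t 1 * (S.B w *ᵥ x) 2 - t 2 * (S.B w *ᵥ x) 1
      + x 1 * (S.B w *ᵥ t) 2 - x 2 * (S.B w *ᵥ t) 1 + S.A w 1 2 * x 2 * t 2)
      - g y w * (t 1 * (S.B w' *ᵥ x) 2 - t 2 * (S.B w' *ᵥ x) 1
      + x 1 * (S.B w' *ᵥ t) 2 - x 2 * (S.B w' *ᵥ t) 1 + S.A w' 1 2 * x 2 * t 2)
      = - (g w w' - g w' w) * S.A y 1 2 * x 2 * t 2 := by
    intro y w w' x t
    have h1 := g3 h y w w' x t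
    have hAv : ∀ y, (S.A y *ᵥ t) 1 = S.A y 1 2 * t 2 ∧ (S.A y *ᵥ t) 2 = 0 := by
      intro y
      obtain ⟨a1, a2, a3, a4, a5⟩ := hA y
      simp [Matrix.mulVec, dotProduct, Fin.sum_univ_three, a1, a2, a3, a4, a5]
    simp only [hb, D, Pi.sub_apply, Pi.smul_apply, smul_eq_mul, (hAv _).1, (hAv _).2,
      Matrix.cons_val_zero, Matrix.cons_val_one, Matrix.cons_val] at h1
    linear_combination h1
  have key2 : ∀ y w w', g y w' * (2 * S.B w 1 2 - S.A w 1 2)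
      - g y w * (2 * S.B w' 1 2 - S.A w' 1 2) = (g w w' - g w' w) * S.A y 1 2 := by
    intro y w w'
    have h1 := key y w w' (Pi.single 2 1) (Pi.single 2 1)
    simp [Matrix.mulVec, dotProduct, Fin.sum_univ_three, Pi.single_apply] at h1
    linear_combination -h1
  refine ⟨fun w => ?_, key2⟩
  obtain ⟨y, w', h0, h1⟩ := c1b_choose g hg w
  have k01 := key y w w' (Pi.single 0 1) (Pi.single 1 1)
  have k02 := key y w w' (Pi.single 0 1) (Pi.single 2 1)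
  have k11 := key y w w' (Pi.single 1 1) (Pi.single 1 1)
  have k12 := key y w w' (Pi.single 1 1) (Pi.single 2 1)
  simp [Matrix.mulVec, dotProduct, Fin.sum_univ_three, Pi.single_apply, h0, h1] at k01 k02 k11 k12
  refine ⟨k02, k01, ?_, ?_⟩
  · exact k11
  · linear_combination -k12

end Pool.Agent.Helper93.K3B
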