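import Pool.Agent.Helper93.K3B.Defs

/-!
K3B / Lin: linear algebra.
-/

set_option autoImplicit false

namespace Pool.Agent.Helper93.K3B

open Matrix Pool.Agent.Helper93.K3A

/-- `Px` lies in the span of `x` and `c` for all `x` -/
theorem pc (P : M3) (c : V3) (hc : c ≠ 0) (h : ∀ x, D x (P *ᵥ x) c = 0) :
    ∃ (s : ℂ) (l : V3), P = s • (1 : M3) + vecMulVec c l := by
  obtain ⟨P', Q', hPQ, hQP, hPc⟩ := frame_vec c hc
  have hQe : Q' *ᵥ ![1, 0, 0] = c := by
    rw [← hPc, Matrix.mulVec_mulVec, hQP, Matrix.one_mulVec]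
  have h1 : ∀ x, D x ((P' * P * Q') *ᵥ x) ![1, 0, 0] = 0 := by
    intro x
    have h2 := D_mulVec P' (Q' *ᵥ x) (P *ᵥ (Q' *ᵥ x)) c
    rw [h, mul_zero, hPc, Matrix.mulVec_mulVec, hPQ, Matrix.one_mulVec, Matrix.mulVec_mulVec,
      Matrix.mulVec_mulVec] at h2
    exact h2
  have h3 : P = Q' * (P' * P * Q') * P' := by
    calc P = (Q' * P') * P * (Q' * P') := by rw [hQP, Matrix.one_mul, Matrix.mul_one]
      _ = Q' * (P' * P * Q') * P' := by simp only [Matrix.mul_assoc]
  generalize P' * P * Q' = M at h1 h3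
  have a1 := h1 ![0, 1, 0]
  have a2 := h1 ![0, 0, 1]
  have a3 := h1 ![1, 1, 0]
  have a4 := h1 ![1, 0, 1]
  have a5 := h1 ![0, 1, 1]
  simp [D, Matrix.mulVec, dotProduct, Fin.sum_univ_three] at a1 a2 a3 a4 a5
  have hM : M = M 1 1 • (1 : M3) + vecMulVec ![1, 0, 0] ![M 0 0 - M 1 1, M 0 1, M 0 2] := by
    ext i j
    fin_cases i <;> fin_cases j <;> simp [vecMulVec_apply]
    · linear_combination -a4 - a2
    · linear_combination a2
    · linear_combination a3 - a1
    · exact a1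
    · linear_combination a5 - a1 + a2
  refine ⟨M 1 1, ![M 0 0 - M 1 1, M 0 1, M 0 2] ᵥ* P', ?_⟩
  conv_lhs => rw [h3, hM]
  rw [Matrix.mul_add, Matrix.add_mul, Matrix.mul_smul, Matrix.mul_one, Matrix.smul_mul, hQP,
    mul_vecMulVec, vecMulVec_mul, hQe]

/-- two linear forms with product zero (e.g. `LP.mul_eq_zero` of K3A/Tools2) -/
theorem two_lin {W : Type} [AddCommGroup W] [Module ℂ W] (f g : W →ₗ[ℂ] ℂ)
    (h : ∀ y, f y * g y = 0) : f = 0 ∨ g = 0 := by
  rcases LP.mul_eq_zero (LP.lin f) (LP.lin g) h with h1 | h1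
  · left; exact LinearMap.ext h1
  · right; exact LinearMap.ext h1

/-- a linear family of matrices with `F_y c = tr(F_y) c` and `e_2(F_y) = 0`: the induced
endomorphisms of `U/c` have trace and determinant zero, so they are multiples of one nilpotent
matrix.  First coordinates with `P c = e_0`; then `p² + qr = 0` for three linear forms `p, q, r`
forces them to be proportional, `(p,q,r) = k(y) (p0,q0,r0)`; then a second change of coordinates. -/
theorem nil_frame {W : Type} [AddCommGroup W] [Module ℂ W] (F : W →ₗ[ℂ] M3) (c : V3) (hc : c ≠ 0)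
    (h1 : ∀ y, F y *ᵥ c = (F y).trace • c) (h2 : ∀ y, e2 (F y) = 0) :
    ∃ P Q : M3, P * Q = 1 ∧ Q * P = 1 ∧ P *ᵥ c = ![1, 0, 0] ∧ ∀ y, T1 (P * F y * Q) := by
  obtain ⟨P, Q, hPQ, hQP, hPc⟩ := frame_vec c hc
  have hQe : Q *ᵥ ![1, 0, 0] = c := by
    rw [← hPc, Matrix.mulVec_mulVec, hQP, Matrix.one_mulVec]
  let G : W →ₗ[ℂ] M3 :=
    { toFun := fun w => P * F w * Q
      map_add' := fun x y => by simp [Matrix.mul_add, Matrix.add_mul]
      map_smul' := fun c x => by simp }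
  have hG : ∀ y, G y = P * F y * Q := fun y => rfl
  have ht : ∀ Y : M3, (P * Y * Q).trace = Y.trace := by
    intro Y
    rw [Matrix.trace_mul_comm, ← Matrix.mul_assoc, hQP, Matrix.one_mul]
  have hG1 : ∀ y, G y *ᵥ ![1, 0, 0] = (G y).trace • ![1, 0, 0] := by
    intro y
    rw [hG, ht, ← Matrix.mulVec_mulVec, hQe, ← Matrix.mulVec_mulVec, h1, Matrix.mulVec_smul, hPc]
  have h2' : ∀ Y : M3, 2 * e2 Y = Y.trace * Y.trace - (Y * Y).trace := by
    intro Y
    rw [← e2p_self, e2p]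
  have hG2 : ∀ y, e2 (G y) = 0 := by
    intro y
    have h3 : P * F y * Q * (P * F y * Q) = P * (F y * F y) * Q := by
      calc P * F y * Q * (P * F y * Q) = P * F y * (Q * P) * F y * Q := by
            simp only [Matrix.mul_assoc]
        _ = P * (F y * F y) * Q := by rw [hQP, Matrix.mul_one]; simp only [Matrix.mul_assoc]
    have h4 := h2' (G y)
    rw [hG, ht, h3, ht, ← h2', h2, mul_zero] at h4
    exact (mul_eq_zero.1 h4).resolve_left two_ne_zero
  have e10 : ∀ y, G y 1 0 = 0 := by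
    intro y
    have := congrFun (hG1 y) 1
    simpa [Matrix.mulVec, dotProduct, Fin.sum_univ_three] using this
  have e20 : ∀ y, G y 2 0 = 0 := by
    intro y
    have := congrFun (hG1 y) 2
    simpa [Matrix.mulVec, dotProduct, Fin.sum_univ_three] using this
  have e22 : ∀ y, G y 2 2 = - G y 1 1 := by
    intro y
    have := congrFun (hG1 y) 0
    simp [Matrix.mulVec, dotProduct, Fin.sum_univ_three, Matrix.trace] at this
    linear_combination -this
  have key : ∀ y, G y 1 1 * G y 1 1 + G y 1 2 * G y 2 1 = 0 := by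
    intro y
    have := hG2 y
    rw [e2, e10, e20, e22] at this
    linear_combination -this
  have fin : ∀ P2 Q2 : M3, P2 * Q2 = 1 → Q2 * P2 = 1 → P2 *ᵥ ![1, 0, 0] = ![1, 0, 0] →
      (∀ y, T1 (P2 * G y * Q2)) →
      ∃ P Q : M3, P * Q = 1 ∧ Q * P = 1 ∧ P *ᵥ c = ![1, 0, 0] ∧ ∀ y, T1 (P * F y * Q) := by
    intro P2 Q2 a1 a2 a3 a4
    refine ⟨P2 * P, Q * Q2, ?_, ?_, ?_, ?_⟩
    · calc P2 * P * (Q * Q2) = P2 * (P * Q) * Q2 := by simp only [Matrix.mul_assoc]
        _ = 1 := by rw [hPQ, Matrix.mul_one, a1]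
    · calc Q * Q2 * (P2 * P) = Q * (Q2 * P2) * P := by simp only [Matrix.mul_assoc]
        _ = 1 := by rw [a2, Matrix.mul_one, hQP]
    · rw [← Matrix.mulVec_mulVec, hPc, a3]
    · intro y
      have h5 : P2 * P * F y * (Q * Q2) = P2 * G y * Q2 := by
        rw [hG]
        simp only [Matrix.mul_assoc]
      rw [h5]
      exact a4 y
  by_cases hq : ∀ y, G y 1 2 = 0
  · have hp : ∀ y, G y 1 1 = 0 := by
      intro y
      have := key y
      rw [hq, zero_mul, add_zero] at this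
      exact mul_self_eq_zero.1 this
    refine fin !![1, 0, 0; 0, 0, 1; 0, 1, 0] !![1, 0, 0; 0, 0, 1; 0, 1, 0] ?_ ?_ ?_ ?_
    · ext i j
      fin_cases i <;> fin_cases j <;> simp [Matrix.mul_apply, Fin.sum_univ_three]
    · ext i j
      fin_cases i <;> fin_cases j <;> simp [Matrix.mul_apply, Fin.sum_univ_three]
    · funext i
      fin_cases i <;> simp [Matrix.mulVec, dotProduct, Fin.sum_univ_three]
    · intro y
      refine ⟨?_, ?_, ?_, ?_, ?_⟩ <;>
        simp [Matrix.mul_apply, Matrix.vecMul, dotProduct, Fin.sum_univ_three, e10, e20, e22, hp, hq]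
  push Not at hq
  obtain ⟨y0, hy0⟩ := hq
  set lam := G y0 1 1 / G y0 1 2 with hlam
  have hpq : ∀ y, G y 1 1 = lam * G y 1 2 := by
    intro y
    have h3 := key (G y0 1 2 • y - G y 1 2 • y0)
    rw [map_sub, map_smul, map_smul] at h3
    simp only [Matrix.sub_apply, Matrix.smul_apply, smul_eq_mul] at h3
    have h4 : (G y0 1 2 * G y 1 1 - G y 1 2 * G y0 1 1) * (G y0 1 2 * G y 1 1 - G y 1 2 * G y0 1 1)
        = 0 := by
      linear_combination h3
    have h5 := mul_self_eq_zero.1 h4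
    rw [hlam]
    field_simp
    linear_combination h5
  have hr : ∀ y, G y 2 1 = - (lam * lam) * G y 1 2 := by
    have h3 : ∀ y, (Matrix.entryLinearMap ℂ ℂ 1 2 ∘ₗ G) y *
        ((Matrix.entryLinearMap ℂ ℂ 2 1 ∘ₗ G) + (lam * lam) • (Matrix.entryLinearMap ℂ ℂ 1 2 ∘ₗ G)) y
        = 0 := by
      intro y
      show G y 1 2 * (G y 2 1 + (lam * lam) * G y 1 2) = 0
      have := key y
      rw [hpq] at this
      linear_combination this
    rcases two_lin _ _ h3 with h4 | h4
    · exact absurd (LinearMap.congr_fun h4 y0) hy0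
    · intro y
      have h5 : G y 2 1 + (lam * lam) * G y 1 2 = 0 := LinearMap.congr_fun h4 y
      linear_combination h5
  refine fin !![1, 0, 0; 0, 1, 0; 0, lam, 1] !![1, 0, 0; 0, 1, 0; 0, -lam, 1] ?_ ?_ ?_ ?_
  · ext i j
    fin_cases i <;> fin_cases j <;> simp [Matrix.mul_apply, Fin.sum_univ_three]
  · ext i j
    fin_cases i <;> fin_cases j <;> simp [Matrix.mul_apply, Fin.sum_univ_three]
  · funext i
    fin_cases i <;> simp [Matrix.mulVec, dotProduct, Fin.sum_univ_three]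
  · intro y
    refine ⟨?_, ?_, ?_, ?_, ?_⟩ <;>
      simp [Matrix.mul_apply, Matrix.vecMul, dotProduct, Fin.sum_univ_three, e10, e20, e22, hpq, hr] <;>
      ring

/-- a bilinear map `b` such that all maps `b(y,·)` have rank `≤ 1` -/
theorem rank1_bilin {W : Type} [AddCommGroup W] [Module ℂ W] (b : W →ₗ[ℂ] W →ₗ[ℂ] V3)
    (h : ∀ y w w' i j, b y w i * b y w' j = b y w j * b y w' i) :
    (∃ c : V3, c ≠ 0 ∧ ∃ g : W →ₗ[ℂ] W →ₗ[ℂ] ℂ, ∀ y w, b y w = g y w • c) ∨
      ∃ (f : W →ₗ[ℂ] ℂ) (m : W →ₗ[ℂ] V3), ∀ y w, b y w = f w • m y := by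
  by_cases hb : ∀ y w, b y w = 0
  · left
    refine ⟨![1, 0, 0], ?_, 0, ?_⟩
    · intro h0
      have := congrFun h0 0
      simp at this
    · intro y w
      rw [hb]
      simp
  push Not at hb
  obtain ⟨y0, w0, hc⟩ := hb
  obtain ⟨i0, hi0⟩ := Function.ne_iff.mp hc
  have hi : b y0 w0 i0 ≠ 0 := hi0
  set a : ℂ := (b y0 w0 i0)⁻¹ with ha
  have hai : a * b y0 w0 i0 = 1 := inv_mul_cancel₀ hi
  let f0 : W →ₗ[ℂ] ℂ := a • (LinearMap.proj i0 ∘ₗ b y0)
  have hf0 : ∀ w, f0 w = a * b y0 w i0 := fun w => rfl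
  have hy0 : ∀ w i, b y0 w i = f0 w * b y0 w0 i := by
    intro w i
    have h1 := h y0 w w0 i i0
    rw [hf0]
    linear_combination a * h1 - b y0 w i * hai
  -- `D_y(w) = b y w - f0 w • b y w0` is parallel to `c`
  have hD : ∀ y w i j, (b y w i - f0 w * b y w0 i) * b y0 w0 j =
      (b y w j - f0 w * b y w0 j) * b y0 w0 i := by
    intro y w i j
    have h1 := h (y + y0) w w0 i j
    have h2 := h y w w0 i j
    have h3 := h y0 w w0 i j
    simp only [map_add, LinearMap.add_apply, Pi.add_apply] at h1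
    have h4 : b y w i * b y0 w0 j + b y0 w i * b y w0 j = b y w j * b y0 w0 i + b y0 w j * b y w0 i := by
      linear_combination h1 - h2 - h3
    rw [hy0 w i, hy0 w j] at h4
    linear_combination h4
  by_cases hd : ∀ y w, b y w = f0 w • b y w0
  · right
    exact ⟨f0, b.flip w0, fun y w => by rw [hd y w]; rfl⟩
  left
  push Not at hd
  obtain ⟨y1, w1, hd1⟩ := hd
  have hd1' : ∃ i, b y1 w1 i - f0 w1 * b y1 w0 i ≠ 0 := by
    by_contra hcon
    push Not at hcon
    apply hd1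
    funext i
    rw [Pi.smul_apply, smul_eq_mul]
    exact sub_eq_zero.1 (hcon i)
  obtain ⟨i1, hi1⟩ := hd1'
  -- `b y w0` is parallel to `c`
  have hpar : ∀ i j y, b y0 w0 i * b y w0 j - b y0 w0 j * b y w0 i = 0 := by
    intro i j
    have hdi0 : b y1 w1 i0 - f0 w1 * b y1 w0 i0 ≠ 0 := by
      intro h0
      have h1 := hD y1 w1 i1 i0
      rw [h0, zero_mul] at h1
      rcases mul_eq_zero.1 h1 with h2 | h2
      · exact hi1 h2
      · exact hi h2
    have h1 : ∀ y, (LinearMap.proj i0 ∘ₗ b.flip w1 - f0 w1 • (LinearMap.proj i0 ∘ₗ b.flip w0)) y *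
        (b y0 w0 i • (LinearMap.proj j ∘ₗ b.flip w0) - b y0 w0 j • (LinearMap.proj i ∘ₗ b.flip w0)) y
        = 0 := by
      intro y
      show (b y w1 i0 - f0 w1 * b y w0 i0) * (b y0 w0 i * b y w0 j - b y0 w0 j * b y w0 i) = 0
      have h2 := h y w1 w0 i j
      have h3 := hD y w1 i i0
      have h4 := hD y w1 j i0
      linear_combination b y0 w0 i0 * h2 - b y w0 j * h3 + b y w0 i * h4
    rcases two_lin _ _ h1 with h2 | h2
    · exact absurd (LinearMap.congr_fun h2 y1) hdi0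
    · intro y
      exact LinearMap.congr_fun h2 y
  have hall : ∀ y w i, b y w i * b y0 w0 i0 = b y w i0 * b y0 w0 i := by
    intro y w i
    have h1 := hD y w i i0
    have h2 := hpar i i0 y
    linear_combination h1 - f0 w * h2
  refine ⟨b y0 w0, hc, a • b.compr₂ (LinearMap.proj i0), fun y w => ?_⟩
  funext i
  show b y w i = (a * b y w i0) * b y0 w0 i
  have h1 := hall y w i
  linear_combination a * h1 - b y w i * hai

/-- a bilinear form has rank `≤ 1` or a non-zero 2 x 2 minor -/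
theorem rank1_form {W : Type} [AddCommGroup W] [Module ℂ W] (g : W →ₗ[ℂ] W →ₗ[ℂ] ℂ) :
    (∃ k f : W →ₗ[ℂ] ℂ, ∀ y w, g y w = f w * k y) ∨
      ∃ y y' w w', g y w * g y' w' ≠ g y w' * g y' w := by
  by_cases h : ∀ y y' w w', g y w * g y' w' = g y w' * g y' w
  · left
    by_cases h0 : ∀ y w, g y w = 0
    · exact ⟨0, 0, fun y w => by rw [h0]; simp⟩
    push Not at h0
    obtain ⟨y0, w0, hyw⟩ := h0
    refine ⟨g.flip w0, (g y0 w0)⁻¹ • g y0, fun y w => ?_⟩
    show g y w = (g y0 w0)⁻¹ * g y0 w * g y w0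
    have h1 := h y y0 w w0
    field_simp
    linear_combination h1
  · right
    push Not at h
    exact h

/-- a linear map vanishing outside the kernel of a non-zero linear map -/
theorem eq_zero_off {W E F : Type} [AddCommGroup W] [Module ℂ W] [AddCommGroup E] [Module ℂ E]
    [AddCommGroup F] [Module ℂ F] (G : W →ₗ[ℂ] F) (hG : G ≠ 0) (T : W →ₗ[ℂ] E)
    (h : ∀ y, G y ≠ 0 → T y = 0) : T = 0 := by
  have h0 : ∃ y0, G y0 ≠ 0 := by
    by_contra hc
    push Not at hc
    exact hG (LinearMap.ext hc)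
  obtain ⟨y0, hy0⟩ := h0
  apply LinearMap.ext
  intro y
  by_cases hy : G y = 0
  · have h1 : T (y + y0) = 0 := by
      apply h
      rw [map_add, hy, zero_add]
      exact hy0
    rw [map_add, h y0 hy0, add_zero] at h1
    exact h1
  · exact h y hy

end Pool.Agent.Helper93.K3B
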