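import Pool.Agent.Helper93.K3B.L0G
import Pool.Agent.Helper93.K3B.C1B
import Pool.Agent.Helper93.K3B.Lin

/-!
K3B / C1: `b = g(y,w) c` with `g` of rank `≥ 2` is impossible.

`c1_nil` (in coordinates `c = e_0`, `k(y) = A_y 1 2`, `n(w) = B_w 1 2`, all third rows are zero, so
`Row2 S`; by `no_div` it suffices to prove `DivC S.C`):
(i) `k = 0` and `n = 0`: `l0G_coord`.
(ii) some `g(w,w') ≠ g(w',w)`: (g4) at `x_2 = 0`: all terms except the last vanish, so
`kap S.C e_0 x t = 0` for `x_2 = 0`: `div_of_kap`.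
(iii) `g` symmetric: `h3` and rank `g ≥ 2` give `k = 2 n` (if `r = 2n - k` has `r(w) ≠ 0` then
`g y w' = g y w * r(w')/r(w)` has rank one).  So `n ≠ 0`.  (g2) and `Z_T1`:
`g(y,w) dkap C e_0 x t1 t2 = D (Z x) t1 t2`, `Z = k(y) !![0,0,A_w01 - B_w01; 0,0,-(A_w00 - B_w00);0,0,0]`.
There is `y` with `k y = 0` and `g y w ≠ 0` for some `w` (rank `g ≥ 2`): `dkap C e_0 = 0`; then
`y` with `k y ≠ 0`: `A_w 0 0 = B_w 0 0`, `A_w 0 1 = B_w 0 1`.  Choose `w` with `n(w) = 1`, so
`A_w = B_w + E12 + del E02`: `eq4'` for this `w` is exactly `h2` of `core` with `k = del`.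

`c1`: (g1) gives `A_y c = tr(A_y) c` if `g(y,·) ≠ 0`, so for all `y` (`eq_zero_off`);
`nil_frame`, `StdG.conj`, `c1_B`, gauge `ζ w = -B_w 1 1`, `c1_nil`.
-/

set_option autoImplicit false

namespace Pool.Agent.Helper93.K3B

open Matrix Pool.Agent.Helper93.K3A

variable {W : Type} [AddCommGroup W] [Module ℂ W]

theorem kap_smul (C : V3 →ₗ[ℂ] M3) (a : ℂ) (u x t : V3) :
    kap C (a • u) x t = a * kap C u x t := by
  simp only [kap, D, Pi.smul_apply, smul_eq_mul]
  ring

theorem dkap_smul (C : V3 →ₗ[ℂ] M3) (a : ℂ) (u x t1 t2 : V3) :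
    dkap C (a • u) x t1 t2 = a * dkap C u x t1 t2 := by
  simp only [dkap, D, Pi.smul_apply, smul_eq_mul]
  ring

theorem T1.mulVec {P : M3} (h : T1 P) (x : V3) :
    P *ᵥ x = ![P 0 0 * x 0 + P 0 1 * x 1 + P 0 2 * x 2, P 1 2 * x 2, 0] := by
  obtain ⟨h1, h2, h3, h4, h5⟩ := h
  ext i
  fin_cases i <;> simp [Matrix.mulVec, dotProduct, Fin.sum_univ_three, h1, h2, h3, h4, h5]

theorem c1_nil {S : DatG W} (h : StdG S) (g : W →ₗ[ℂ] W →ₗ[ℂ] ℂ)
    (hb : ∀ y w, S.b y w = g y w • (![1, 0, 0] : V3)) (hA : ∀ y, T1 (S.A y))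
    (hB : ∀ w, T1 (S.B w)) (hg : ∃ y y' w w', g y w * g y' w' ≠ g y w' * g y' w)
    (h3 : ∀ y w w', g y w' * (2 * S.B w 1 2 - S.A w 1 2) - g y w * (2 * S.B w' 1 2 - S.A w' 1 2)
      = (g w w' - g w' w) * S.A y 1 2) : False := by
  have hrow : Row2 S := by
    refine ⟨?_, ?_, ?_⟩
    · intro y j
      obtain ⟨-, -, h4, h5, h6⟩ := hA y
      fin_cases j
      · exact h4
      · exact h5
      · exact h6
    · intro w
      obtain ⟨-, -, h4, h5, -⟩ := hB w
      exact ⟨h4, h5⟩
    · intro y w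
      rw [hb]
      simp
  obtain ⟨y0, y1, w0, w1, hg'⟩ := hg
  refine no_div h hrow ?_
  by_cases hsym : ∀ w w', g w w' = g w' w
  · -- `g` symmetric
    have hr : ∀ w, S.A w 1 2 = 2 * S.B w 1 2 := by
      intro w
      by_contra hne
      have hne' : 2 * S.B w 1 2 - S.A w 1 2 ≠ 0 := fun h0 => hne (by linear_combination -h0)
      apply hg'
      have e1 := h3 y0 w w0
      have e2 := h3 y0 w w1
      have e3 := h3 y1 w w0
      have e4 := h3 y1 w w1
      rw [hsym w w0, sub_self, zero_mul] at e1 e3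
      rw [hsym w w1, sub_self, zero_mul] at e2 e4
      apply mul_left_cancel₀ (mul_ne_zero hne' hne')
      linear_combination (g y1 w1 * (2 * S.B w 1 2 - S.A w 1 2)) * e1 +
        (g y0 w * (2 * S.B w0 1 2 - S.A w0 1 2)) * e4 -
        (g y1 w0 * (2 * S.B w 1 2 - S.A w 1 2)) * e2 -
        (g y0 w * (2 * S.B w1 1 2 - S.A w1 1 2)) * e3
    by_cases hn : ∀ w, S.B w 1 2 = 0
    · exfalso
      refine l0G_coord h g ?_ hb ?_ ?_
      · by_contra hc
        push Not at hc
        exact hg' (by rw [hc, hc, hc, hc])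
      · intro y
        refine ⟨S.A y 0, ?_⟩
        have h6 : S.A y 1 2 = 0 := by rw [hr, hn, mul_zero]
        obtain ⟨h1, h2, h3, h4, h5⟩ := hA y
        ext i j
        fin_cases i <;> fin_cases j <;> simp [vecMulVec_apply, h1, h2, h3, h4, h5, h6]
      · intro y
        refine ⟨S.B y 0, ?_⟩
        have h6 : S.B y 1 2 = 0 := hn y
        obtain ⟨h1, h2, h3, h4, h5⟩ := hB y
        ext i j
        fin_cases i <;> fin_cases j <;> simp [vecMulVec_apply, h1, h2, h3, h4, h5, h6]
    · push Not at hn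
      obtain ⟨w2, hw2⟩ := hn
      have hZ : ∀ y w x t1 t2, g y w * dkap S.C (![1, 0, 0]) x t1 t2 =
          D (!![0, 0, (S.A w 0 1 - S.B w 0 1) * S.A y 1 2;
            0, 0, -(S.A w 0 0 - S.B w 0 0) * S.A y 1 2; 0, 0, 0] *ᵥ x) t1 t2 := by
        intro y w x t1 t2
        have e := g2 h.cl y w x t1 t2
        rw [hb, dkap_smul, Z_T1 y w (hA y) (hA w) (hB w)] at e
        rw [e]
        congr 2
        have h0 : S.A w 1 2 - 2 * S.B w 1 2 = 0 := by rw [hr]; ring
        rw [h0]
        simp only [mul_zero, zero_add, zero_sub, neg_mul]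
      -- a vector `y2` with `k y2 = 0`
      obtain ⟨y2, w3, hy2, hw3⟩ : ∃ y2 w3, S.A y2 1 2 = 0 ∧ g y2 w3 ≠ 0 := by
        by_cases hk : S.A y0 1 2 = 0
        · by_cases hq : g y0 w0 = 0
          · refine ⟨y0, w1, hk, fun hq' => hg' ?_⟩
            rw [hq, hq', zero_mul, zero_mul]
          · exact ⟨y0, w0, hk, hq⟩
        · have hk2 : S.A (S.A y1 1 2 • y0 - S.A y0 1 2 • y1) 1 2 = 0 := by
            rw [map_sub, map_smul, map_smul]
            simp only [Matrix.sub_apply, Matrix.smul_apply, smul_eq_mul]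
            ring
          by_contra hc
          push Not at hc
          have e1 := hc _ w0 hk2
          have e2 := hc _ w1 hk2
          simp only [map_sub, map_smul, LinearMap.sub_apply, LinearMap.smul_apply,
            smul_eq_mul] at e1 e2
          apply hg'
          apply mul_left_cancel₀ hk
          linear_combination g y0 w1 * e1 - g y0 w0 * e2
      have hd0 : ∀ x t1 t2, dkap S.C (![1, 0, 0]) x t1 t2 = 0 := by
        intro x t1 t2
        have e := hZ y2 w3 x t1 t2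
        rw [hy2] at e
        simp [D, Matrix.mulVec, dotProduct, Fin.sum_univ_three] at e
        exact e.resolve_left hw3
      have hk2 : S.A w2 1 2 ≠ 0 := by
        rw [hr]
        exact mul_ne_zero two_ne_zero hw2
      have hAB : ∀ w, S.A w 0 1 = S.B w 0 1 ∧ S.A w 0 0 = S.B w 0 0 := by
        intro w
        have e : ∀ t1 t2, D (!![0, 0, (S.A w 0 1 - S.B w 0 1) * S.A w2 1 2;
            0, 0, -(S.A w 0 0 - S.B w 0 0) * S.A w2 1 2; 0, 0, 0] *ᵥ ![0, 0, 1]) t1 t2 = 0 := by
          intro t1 t2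
          rw [← hZ w2 w, hd0, mul_zero]
        have e' := eq_zero_of_D e
        have e0 := congrFun e' 0
        have e1 := congrFun e' 1
        simp [Matrix.mulVec, dotProduct, Fin.sum_univ_three, hk2] at e0 e1
        constructor
        · linear_combination e0
        · linear_combination -e1
      have hw4 : ∃ w, S.B w 1 2 = 1 := by
        refine ⟨(S.B w2 1 2)⁻¹ • w2, ?_⟩
        rw [map_smul, Matrix.smul_apply, smul_eq_mul, inv_mul_cancel₀ hw2]
      obtain ⟨w, hw⟩ := hw4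
      have hw' : S.A w 1 2 = 2 := by rw [hr, hw, mul_one]
      obtain ⟨h01, h00⟩ := hAB w
      refine core S.C (S.A w 0 2 - S.B w 0 2) hd0 ?_
      intro x t1 t2
      have e := eq4' h.cl w x t1 t2
      have e' := hd0 x t1 t2
      rw [(hB w).mulVec, (hB w).mulVec, (hB w).mulVec, (hA w).mulVec, (hA w).mulVec, hw, hw',
        h00, h01] at e
      simp only [D, dkap, kap, Matrix.cons_val_zero, Matrix.cons_val_one,
        Matrix.cons_val] at e e' ⊢
      linear_combination -e - (S.B w 0 0 * x 0 + S.B w 0 1 * x 1 + S.B w 0 2 * x 2) * e'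
  · push Not at hsym
    obtain ⟨w, w', hww⟩ := hsym
    apply div_of_kap
    intro x t hx
    have e := g4 h.cl w w' x t
    rw [hb, hb, ← sub_smul, kap_smul] at e
    rw [(hB w).mulVec, (hB w').mulVec, (hB w).mulVec, (hB w').mulVec, (hA w).mulVec,
      (hA w').mulVec] at e
    simp only [D, hx, mul_zero, add_zero, Matrix.cons_val_zero, Matrix.cons_val_one,
      Matrix.cons_val] at e
    have hne : g w w' - g w' w ≠ 0 := sub_ne_zero.2 hww
    apply mul_left_cancel₀ hne
    linear_combination e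

theorem c1 {S : DatG W} (h : StdG S) (c : V3) (hc : c ≠ 0) (g : W →ₗ[ℂ] W →ₗ[ℂ] ℂ)
    (hb : ∀ y w, S.b y w = g y w • c)
    (hg : ∃ y y' w w', g y w * g y' w' ≠ g y w' * g y' w) : False := by
  have hG : g ≠ 0 := by
    rintro rfl
    obtain ⟨y, y', w, w', h0⟩ := hg
    simp at h0
  let T : W →ₗ[ℂ] V3 :=
    { toFun := fun y => S.A y *ᵥ c - (S.A y).trace • c
      map_add' := fun x y => by
        rw [map_add, Matrix.add_mulVec, Matrix.trace_add, add_smul]
        abel
      map_smul' := fun a x => by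
        rw [map_smul, Matrix.smul_mulVec, Matrix.trace_smul, RingHom.id_apply, smul_sub,
          smul_eq_mul, mul_smul] }
  have hT : T = 0 := by
    refine eq_zero_off g hG T ?_
    intro y hy
    obtain ⟨w, hw⟩ : ∃ w, g y w ≠ 0 := by
      by_contra hc'
      push Not at hc'
      exact hy (LinearMap.ext hc')
    have e := g1 h.cl y w
    rw [hb, Matrix.mulVec_smul, smul_comm] at e
    have e' := smul_right_injective V3 hw e
    show S.A y *ᵥ c - (S.A y).trace • c = 0
    rw [sub_eq_zero]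
    exact e'
  have h1 : ∀ y, S.A y *ᵥ c = (S.A y).trace • c := by
    intro y
    have e : T y = 0 := by rw [hT]; rfl
    exact sub_eq_zero.1 e
  obtain ⟨P, Q, hPQ, -, hPc, hA⟩ := nil_frame S.A c hc h1 (e2A' h.cl)
  have h' : StdG (conjG S P Q) := h.conj hPQ
  have hb' : ∀ y w, (conjG S P Q).b y w = g y w • (![1, 0, 0] : V3) := by
    intro y w
    show Matrix.toLin' P (S.b y w) = _
    rw [Matrix.toLin'_apply, hb, Matrix.mulVec_smul, hPc]
  have hA' : ∀ y, T1 ((conjG S P Q).A y) := hA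
  obtain ⟨hB1, h3⟩ := c1_B h'.cl g hb' hA' hg
  let ζ : W →ₗ[ℂ] ℂ :=
    { toFun := fun w => -((conjG S P Q).B w 1 1)
      map_add' := fun x y => by
        rw [map_add, Matrix.add_apply]
        ring
      map_smul' := fun a x => by
        rw [map_smul, Matrix.smul_apply, RingHom.id_apply, smul_eq_mul, smul_eq_mul]
        ring }
  have hBe : ∀ w, (gaugeG (conjG S P Q) ζ 0).B w =
      (conjG S P Q).B w + (-((conjG S P Q).B w 1 1)) • (1 : M3) := fun w => rfl
  refine c1_nil (h'.gauge ζ 0) g hb' hA' ?_ hg ?_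
  · intro w
    obtain ⟨e1, e2, e3, e4⟩ := hB1 w
    rw [hBe]
    refine ⟨?_, ?_, ?_, ?_, ?_⟩
    · simp [e1]
    · simp
    · simp [e2]
    · simp [e3]
    · simp [e4]
  · intro y w w'
    rw [hBe, hBe]
    have e : ∀ w, ((conjG S P Q).B w + (-((conjG S P Q).B w 1 1)) • (1 : M3)) 1 2 =
        (conjG S P Q).B w 1 2 := by
      intro w
      simp
    rw [e, e]
    exact h3 y w w'

end Pool.Agent.Helper93.K3B
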