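import Pool.Agent.Helper93.K3B.L0G
import Pool.Agent.Helper93.K3B.Lin

/-!
K3B / C2b0: `b(y,w) = f(y) f(w) e_0`, `A_e = 0`, `A_w = e_0 ⊗ a_w`, `B_w = e_0 ⊗ χ_w` on `ker f`.

(g2)(e,e): `dkap C e_0 = 0`.  `Π(x) := D x e_0 (B_e x)`.  (g4)(w,e), `w` in `ker f`:
`d(χ_w(x) Π) = Π a_w`, i.e. `χ_w dΠ = Π (a_w - χ_w)`.
`Π = 0`: `B_e = e_0 ⊗ χ + s` (`pc`): `l0G` (with `g = f ⊗ f`).
`Π ≠ 0`: for `w ≠ 0` in `ker f` `χ_w ≠ 0` (NCG; `b(·,w) = 0`).  `χ_w` divides `Π`: `Π = χ_w l`,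
`χ_w dl = l (a_w - 2χ_w)`, so `l = ρ χ_w`, `a_w = 3 χ_w`.  `Π` has no `x_0²` term: `χ_w(e_0) = 0`.
`eq4'` for `w`: `3 χ_w ∧ κ_0 = χ_w ∧ κ_0` (as `dκ_0 = 0`), so `χ_w ∧ κ_0 = 0`, `κ_0 = q χ_w`, closed:
`q = c χ_w²`... so `κ_0(x;t) = c χ_w(x)² χ_w(t)`.  All `w'` in `ker f` are multiples of `w` (same
argument: `χ_w'` is a multiple of `χ_w`, NCG), so
`ξ_(e_0)(x,y;t,v) = κ_0(x;t) + f(v) Π(x) + 0 = χ_w(x)² (c χ_w(t) + ρ f(v))`: `no_linG`.
(One may first choose coordinates with `χ_w = (0,0,1)`, `e_0` fixed: `frame_vec_cov`.)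
-/

set_option autoImplicit false

namespace Pool.Agent.Helper93.K3B

open Matrix Pool.Agent.Helper93.K3A

variable {W : Type} [AddCommGroup W] [Module ℂ W]

theorem c2b0 {S : DatG W} (h : StdG S) (f : W →ₗ[ℂ] ℂ)
    (hb : ∀ y w, S.b y w = (f y * f w) • (![1, 0, 0] : V3))
    (hA : ∀ w, f w = 0 → ∃ a, S.A w = vecMulVec (![1, 0, 0]) a)
    (hB : ∀ w, f w = 0 → ∃ χ, S.B w = vecMulVec (![1, 0, 0]) χ)
    (e : W) (he : f e = 1) (hAe : S.A e = 0) : False := by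
  have he0 : (![1, 0, 0] : V3) ≠ 0 := fun h0 => by simpa using congrFun h0 0
  have mv : ∀ χ x : V3, vecMulVec (![1, 0, 0]) χ *ᵥ x = (χ ⬝ᵥ x) • (![1, 0, 0] : V3) := by
    intro χ x
    funext i
    fin_cases i <;> simp [Matrix.mulVec, dotProduct, Fin.sum_univ_three, vecMulVec_apply]
  have hdec : ∀ y : W, f (y - f y • e) = 0 := by
    intro y
    rw [map_sub, map_smul, he, smul_eq_mul, mul_one, sub_self]
  have hAy : ∀ y, ∃ a, S.A y = vecMulVec (![1, 0, 0]) a := by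
    intro y
    obtain ⟨a, ha⟩ := hA _ (hdec y)
    refine ⟨a, ?_⟩
    rw [← ha, map_sub, map_smul, hAe, smul_zero, sub_zero]
  have hBy : ∀ w, ∃ χ, S.B w = vecMulVec (![1, 0, 0]) χ + f w • S.B e := by
    intro w
    obtain ⟨χ, hχ⟩ := hB _ (hdec w)
    refine ⟨χ, ?_⟩
    rw [← hχ, map_sub, map_smul, sub_add_cancel]
  have hcl : ∀ x t1 t2, dkap S.C (![1, 0, 0]) x t1 t2 = 0 := by
    intro x t1 t2
    have h1 := g2 h.cl e e x t1 t2
    have hZ : Z S e e = 0 := by simp [Z, K3A.adjp, e2p, hAe]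
    rw [hZ, hb, he, mul_one, one_smul, Matrix.zero_mulVec] at h1
    rw [h1]
    simp [D]
  have hxi : ∀ z v : V3 × W, xiG S (![1, 0, 0]) z.1 z.2 v.1 v.2 =
      kap S.C (![1, 0, 0]) z.1 v.1 + f v.2 * D z.1 (![1, 0, 0]) (S.B e *ᵥ z.1) := by
    intro z v
    obtain ⟨a, ha⟩ := hAy z.2
    obtain ⟨χ, hχ⟩ := hBy v.2
    rw [xiG, etaG, ha, hχ, hb, mv, Matrix.add_mulVec, mv, Matrix.smul_mulVec]
    simp only [kap, D, Pi.add_apply, Pi.smul_apply, smul_eq_mul, Matrix.cons_val_zero,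
      Matrix.cons_val_one, Matrix.cons_val]
    ring
  by_cases hP0 : ∀ x, D x (![1, 0, 0]) (S.B e *ᵥ x) = 0
  · obtain ⟨s, l, hsl⟩ := pc (S.B e) (![1, 0, 0]) he0 (fun x => by
      have h1 := hP0 x
      simp only [D, Matrix.cons_val_zero, Matrix.cons_val_one, Matrix.cons_val] at h1 ⊢
      linear_combination -h1)
    refine l0G h (![1, 0, 0]) he0
      (LinearMap.mk₂ ℂ (fun y w => f y * f w) (fun a b c => by simp [add_mul])
        (fun a b c => by simp [mul_assoc]) (fun a b c => by simp [mul_add])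
        (fun a b c => by simp [mul_left_comm])) ⟨e, e, by simp [he]⟩ hb hAy (fun w => ?_)
    obtain ⟨χ, hχ⟩ := hBy w
    refine ⟨χ + f w • l, f w * s, ?_⟩
    rw [hχ, hsl]
    ext i j
    simp only [Matrix.add_apply, Matrix.smul_apply, vecMulVec_apply, Pi.add_apply, Pi.smul_apply,
      smul_eq_mul]
    ring
  · push Not at hP0
    obtain ⟨x0, hx0⟩ := hP0
    obtain ⟨w, hw, hw0⟩ : ∃ w, f w = 0 ∧ w ≠ 0 := by
      by_contra hc
      push Not at hc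
      have hinj : Function.Injective f := by
        rw [injective_iff_map_eq_zero]
        exact hc
      have hle := LinearMap.finrank_le_finrank_of_injective hinj
      rw [Module.finrank_self] at hle
      have := h.dim
      omega
    obtain ⟨a, ha⟩ := hA w hw
    obtain ⟨χ, hχ⟩ := hB w hw
    have hχ0 : χ ≠ 0 := by
      rintro rfl
      apply hw0
      apply h.nc w
      · refine ⟨0, ?_⟩
        rw [hχ, zero_smul]
        ext i j; simp [vecMulVec_apply]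
      · intro y
        rw [hb, hw, mul_zero, zero_smul]
    obtain ⟨t0, ht0⟩ : ∃ t0 : V3, χ ⬝ᵥ t0 = 1 := by
      obtain ⟨j, hj⟩ : ∃ j, χ j ≠ 0 := by
        by_contra hc
        push Not at hc
        exact hχ0 (funext hc)
      refine ⟨(χ j)⁻¹ • Pi.single j 1, ?_⟩
      rw [dotProduct_smul, dotProduct_single, mul_one, smul_eq_mul, inv_mul_cancel₀ hj]
    -- (g4)
    have h4 : ∀ x t : V3, (χ ⬝ᵥ x) * (D t (![1, 0, 0]) (S.B e *ᵥ x) + D x (![1, 0, 0]) (S.B e *ᵥ t))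
        = (a ⬝ᵥ t - χ ⬝ᵥ t) * D x (![1, 0, 0]) (S.B e *ᵥ x) := by
      intro x t
      have h1 := g4 h.cl w e x t
      rw [ha, hχ, hAe, hb, hb, hw, mv, mv, mv] at h1
      simp only [zero_mul, mul_zero, zero_smul, sub_self, Matrix.zero_mulVec] at h1
      simp only [kap, D, Pi.smul_apply, smul_eq_mul, Pi.zero_apply, Matrix.cons_val_zero,
        Matrix.cons_val_one, Matrix.cons_val] at h1 ⊢
      linear_combination h1
    -- `a = 3 χ`
    have h3 : ∀ x : V3, a ⬝ᵥ x = 3 * (χ ⬝ᵥ x) := by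
      have hz : ∀ x : V3, (3 * (χ ⬝ᵥ x) - a ⬝ᵥ x) * D x (![1, 0, 0]) (S.B e *ᵥ x) = 0 := by
        intro x
        linear_combination h4 x x
      have hl0 : 3 * (χ ⬝ᵥ x0) - a ⬝ᵥ x0 = 0 := (mul_eq_zero.mp (hz x0)).resolve_right hx0
      intro x
      by_contra hne
      have hl : 3 * (χ ⬝ᵥ x) - a ⬝ᵥ x ≠ 0 := fun h0 => hne (by linear_combination -h0)
      have hs : ∀ s : ℂ, s ≠ 0 → D x0 (![1, 0, 0]) (S.B e *ᵥ x0)
          + s * (D x (![1, 0, 0]) (S.B e *ᵥ x0) + D x0 (![1, 0, 0]) (S.B e *ᵥ x))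
          + s ^ 2 * D x (![1, 0, 0]) (S.B e *ᵥ x) = 0 := by
        intro s hs0
        have h5 := hz (x0 + s • x)
        rw [dotProduct_add, dotProduct_add, dotProduct_smul, dotProduct_smul, smul_eq_mul,
          smul_eq_mul, Matrix.mulVec_add, Matrix.mulVec_smul] at h5
        have e7 : D (x0 + s • x) (![1, 0, 0]) (S.B e *ᵥ x0 + s • (S.B e *ᵥ x)) =
            D x0 (![1, 0, 0]) (S.B e *ᵥ x0)
            + s * (D x (![1, 0, 0]) (S.B e *ᵥ x0) + D x0 (![1, 0, 0]) (S.B e *ᵥ x))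
            + s ^ 2 * D x (![1, 0, 0]) (S.B e *ᵥ x) := by
          simp only [D, Pi.add_apply, Pi.smul_apply, smul_eq_mul]
          ring
        rw [e7] at h5
        have h6 : (s * (3 * (χ ⬝ᵥ x) - a ⬝ᵥ x)) * (D x0 (![1, 0, 0]) (S.B e *ᵥ x0)
          + s * (D x (![1, 0, 0]) (S.B e *ᵥ x0) + D x0 (![1, 0, 0]) (S.B e *ᵥ x))
          + s ^ 2 * D x (![1, 0, 0]) (S.B e *ᵥ x)) = 0 := by
          linear_combination h5 - (D x0 (![1, 0, 0]) (S.B e *ᵥ x0)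
            + s * (D x (![1, 0, 0]) (S.B e *ᵥ x0) + D x0 (![1, 0, 0]) (S.B e *ᵥ x))
            + s ^ 2 * D x (![1, 0, 0]) (S.B e *ᵥ x)) * hl0
        exact (mul_eq_zero.mp h6).resolve_left (mul_ne_zero hs0 hl)
      have s1 := hs 1 one_ne_zero
      have s2 := hs (-1) (by norm_num)
      have s3 := hs 2 two_ne_zero
      apply hx0
      linear_combination s1 + s2 / 3 - s3 / 3
    have h4' : ∀ x t : V3, (χ ⬝ᵥ x) * (D t (![1, 0, 0]) (S.B e *ᵥ x)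
        + D x (![1, 0, 0]) (S.B e *ᵥ t)) = 2 * (χ ⬝ᵥ t) * D x (![1, 0, 0]) (S.B e *ᵥ x) := by
      intro x t
      rw [h4, h3]; ring
    obtain ⟨ρ, hρ⟩ : ∃ ρ, ρ = D t0 (![1, 0, 0]) (S.B e *ᵥ t0) := ⟨_, rfl⟩
    have hPi : ∀ x : V3, D x (![1, 0, 0]) (S.B e *ᵥ x) = ρ * (χ ⬝ᵥ x) ^ 2 := by
      intro x
      have k1 := h4' t0 x
      have k2 := h4' x t0
      rw [ht0] at k1 k2
      rw [hρ]
      linear_combination -k2 / 2 + (χ ⬝ᵥ x) * k1 / 2
    -- (4)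
    have h5 : ∀ x t1 t2 : V3, (χ ⬝ᵥ t1) * kap S.C (![1, 0, 0]) x t2
        = (χ ⬝ᵥ t2) * kap S.C (![1, 0, 0]) x t1 := by
      intro x t1 t2
      have k1 := eq4' h.cl w x t1 t2
      have k2 := hcl x t1 t2
      have k3 := h3 t1
      have k4 := h3 t2
      rw [ha, hχ, mv, mv, mv, mv, mv, k3, k4] at k1
      simp only [kap, dkap, D, Pi.smul_apply, smul_eq_mul] at k1 k2 ⊢
      linear_combination k1 / 2 + (χ ⬝ᵥ x) * k2 / 2
    obtain ⟨c, hc⟩ : ∃ c, c = kap S.C (![1, 0, 0]) t0 t0 := ⟨_, rfl⟩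
    have hk : ∀ x t : V3, kap S.C (![1, 0, 0]) x t = kap S.C (![1, 0, 0]) x t0 * (χ ⬝ᵥ t) := by
      intro x t
      have := h5 x t0 t
      rw [ht0, one_mul] at this
      rw [this, mul_comm]
    have hK : ∀ x y t : V3, D y (![1, 0, 0]) (S.C x *ᵥ t) + D x (![1, 0, 0]) (S.C y *ᵥ t)
        = (D y (![1, 0, 0]) (S.C x *ᵥ t0) + D x (![1, 0, 0]) (S.C y *ᵥ t0)) * (χ ⬝ᵥ t) := by
      intro x y t
      have k1 := hk (x + y) t
      have k2 := hk x t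
      have k3 := hk y t
      simp only [kap, map_add, Matrix.add_mulVec, D, Pi.add_apply] at k1 k2 k3 ⊢
      linear_combination k1 - k2 - k3
    have hq : ∀ x : V3, kap S.C (![1, 0, 0]) x t0 = c * (χ ⬝ᵥ x) ^ 2 := by
      intro x
      have k1 := hcl x x t0
      have k2 := hcl t0 x t0
      have k3 := hK x t0 x
      have k4 := hK t0 t0 x
      simp only [dkap] at k1 k2
      rw [hc]
      simp only [kap]
      linear_combination k1 / 2 + k3 / 2 + (χ ⬝ᵥ x) * k2 / 2 + (χ ⬝ᵥ x) * k4 / 2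
    refine no_linG h (![1, 0, 0]) he0 (fun z => χ ⬝ᵥ z.1)
      (LinearMap.mk₂ ℂ (fun z v : V3 × W => (χ ⬝ᵥ z.1) * (c * (χ ⬝ᵥ v.1) + ρ * f v.2))
        (fun x y t => by simp [dotProduct_add]; ring) (fun r x t => by simp [dotProduct_smul]; ring)
        (fun x s t => by simp [dotProduct_add]; ring) (fun r x t => by simp [dotProduct_smul]; ring))
      (fun z v => ?_)
    rw [hxi, hk, hq, hPi, LinearMap.mk₂_apply]
    ring

end Pool.Agent.Helper93.K3B
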