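import Pool.Agent.Helper93.K3B.L0G

/-!
K3B / C2b1: `b(y,w) = f(y) f(w) e_0`, `A_e = ep E12`, `ep ≠ 0`, `A_w = e_0 ⊗ a_w`,
`B_w = e_0 ⊗ χ_w` on `ker f`.   (0 <> w in `ker f`, exists as `dim W ≥ 2`: `χ_w ≠ 0` by NCG.)

(g2)(e,w): `Z S e w = 0`: `a_w = χ_w + del_w (0,0,1)`.
(g4)(w,e): with `Π(x) = D x e_0 (B_e x)`, `z = x_2`: `χ_w dΠ = Π del_w dz + ep χ_w z dz`.  The `dx_0`,
`dx_1` components: `∂_0 Π = ∂_1 Π = 0`, so `Π = ρ z²`, i.e. `B_e = s + ρ E12 + e_0 ⊗ χ_e` (gauge `s = 0`: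
`StdG.gauge` with `ζ = -s f`); the `dz` component: `(2ρ - ep) χ_w = ρ del_w (0,0,1)`; `ρ ≠ 0`.  `Row2 S`.
(g2)(e,e): `dκ_0 = -ep z χ_e ∧ dz` (all by `Z`).
(α) `2ρ = ep`: `del_w = 0`; `eq4'` for `w`: `χ_w(x) dκ_0 = 0`, so `dκ_0 = 0`, `χ_e = (0,0,b)`;
    `eq4'` for `e`: `ρ z dκ_1 = ρ dz ∧ κ_1 - b dz ∧ κ_0`: `core` with `k = -b/ρ`: `DivC`.
(β) `2ρ ≠ ep`: scale `w` so that `χ_w = (0,0,1)` (not zero), `del := del_w = (2ρ - ep)/ρ ≠ 0`;
    `eq4'` for `w`: `dz ∧ (del κ_0 - ep z² χ_e) = 0`; at `z = 0`: `x_1 dz ∧ C_2 = 0`, so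
    `(C(x)t)_2 = l(x) t_2 + z m(t)`, `l` a linear form in `x_0, x_1`.  `eq4'` for `e` at `z = 0`:
    `x_1 l χ_e ∧ dz = 0`: `l = 0`, `DivC`; or `χ_e = (0,0,b)`: then `dκ_0 = 0`, `dz ∧ κ_0 = 0`:
    `κ_0 = q dz`, `dq ∧ dz = 0`, `q = c z²`, and `x_1 l = -q` at `z = 0`: `l = 0`, `DivC`.
Always `DivC S.C`: `no_div`.
-/

set_option autoImplicit false

namespace Pool.Agent.Helper93.K3B

open Matrix Pool.Agent.Helper93.K3A

variable {W : Type} [AddCommGroup W] [Module ℂ W]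

private theorem tab0 (a b c : ℂ) : (![a, b, c] : V3) 0 = a := rfl
private theorem tab1 (a b c : ℂ) : (![a, b, c] : V3) 1 = b := rfl
private theorem tab2 (a b c : ℂ) : (![a, b, c] : V3) 2 = c := rfl

private theorem exists_ker {S : DatG W} (h : StdG S) (f : W →ₗ[ℂ] ℂ) : ∃ w, f w = 0 ∧ w ≠ 0 := by
  by_contra hcon
  push Not at hcon
  have hd := h.dim
  have hinj : Function.Injective f := by
    rw [injective_iff_map_eq_zero]
    exact hcon
  have h1 := LinearMap.finrank_le_finrank_of_injective hinj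
  rw [Module.finrank_self] at h1
  omega

private theorem shape_row (P : M3) (a : V3) (h : P = vecMulVec (![1, 0, 0]) a) :
    (∀ j, P 0 j = a j) ∧ (∀ j, P 1 j = 0) ∧ (∀ j, P 2 j = 0) := by
  subst h
  refine ⟨fun j => ?_, fun j => ?_, fun j => ?_⟩ <;> simp [vecMulVec_apply]

private theorem chi_ne {S : DatG W} (h : StdG S) (f : W →ₗ[ℂ] ℂ)
    (hb : ∀ y w, S.b y w = (f y * f w) • (![1, 0, 0] : V3)) {w : W} (hw : f w = 0) (hw0 : w ≠ 0)
    {χ : V3} (hχ : S.B w = vecMulVec (![1, 0, 0]) χ) : χ ≠ 0 := by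
  rintro rfl
  apply hw0
  apply h.nc w
  · refine ⟨0, ?_⟩
    rw [hχ]
    ext i j
    simp [vecMulVec_apply]
  · intro y
    rw [hb, hw, mul_zero, zero_smul]

/-- (g2)(e,w) -/
private theorem aw {S : DatG W} (h : StdG S) (f : W →ₗ[ℂ] ℂ)
    (hb : ∀ y w, S.b y w = (f y * f w) • (![1, 0, 0] : V3))
    (hA : ∀ w, f w = 0 → ∃ a, S.A w = vecMulVec (![1, 0, 0]) a)
    (hB : ∀ w, f w = 0 → ∃ χ, S.B w = vecMulVec (![1, 0, 0]) χ)
    (e : W) (ep : ℂ) (hep : ep ≠ 0) (hAe : S.A e = !![0, 0, 0; 0, 0, ep; 0, 0, 0])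
    (w : W) (hw : f w = 0) : S.A w 0 0 = S.B w 0 0 ∧ S.A w 0 1 = S.B w 0 1 := by
  obtain ⟨a, ha⟩ := hA w hw
  obtain ⟨χ, hχ⟩ := hB w hw
  obtain ⟨ha0, ha1, ha2⟩ := shape_row _ _ ha
  obtain ⟨hc0, hc1, hc2⟩ := shape_row _ _ hχ
  have hbw : S.b e w = 0 := by rw [hb, hw, mul_zero, zero_smul]
  have hZ : ∀ x, Z S e w *ᵥ x = 0 := by
    intro x
    apply eq_zero_of_D
    intro t1 t2
    have h1 := g2 h.cl e w x t1 t2
    rw [hbw] at h1
    rw [← h1]
    simp [dkap, D]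
  have hT : Z S e w = !![0, 0, ep * (S.A w 0 1 - S.B w 0 1); 0, 0, -(ep * (S.A w 0 0 - S.B w 0 0));
      0, 0, 0] := by
    rw [Z_T1 e w ?_ ?_ ?_]
    · rw [hAe]
      ext i j
      fin_cases i <;> fin_cases j <;> simp [ha1, hc1] <;> ring
    · rw [hAe]; simp [T1]
    · exact ⟨ha1 0, ha1 1, ha2 0, ha2 1, ha2 2⟩
    · exact ⟨hc1 0, hc1 1, hc2 0, hc2 1, hc2 2⟩
  have h2 := hZ (![0, 0, 1])
  rw [hT] at h2
  have h3 := congrFun h2 0
  have h4 := congrFun h2 1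
  simp [Matrix.mulVec, dotProduct, Fin.sum_univ_three] at h3 h4
  rcases h3 with h3 | h3
  · exact absurd h3 hep
  rcases h4 with h4 | h4
  · exact absurd h4 hep
  exact ⟨sub_eq_zero.mp h4, sub_eq_zero.mp h3⟩

/-- (g4)(w,e) -/
private theorem g4e {S : DatG W} (h : StdG S) (f : W →ₗ[ℂ] ℂ)
    (hb : ∀ y w, S.b y w = (f y * f w) • (![1, 0, 0] : V3))
    (hA : ∀ w, f w = 0 → ∃ a, S.A w = vecMulVec (![1, 0, 0]) a)
    (hB : ∀ w, f w = 0 → ∃ χ, S.B w = vecMulVec (![1, 0, 0]) χ)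
    (e : W) (ep : ℂ) (hep : ep ≠ 0) (hAe : S.A e = !![0, 0, 0; 0, 0, ep; 0, 0, 0])
    (w : W) (hw : f w = 0) (x t : V3) :
    (S.B w 0 0 * x 0 + S.B w 0 1 * x 1 + S.B w 0 2 * x 2) *
      (D t (![1, 0, 0]) (S.B e *ᵥ x) + D x (![1, 0, 0]) (S.B e *ᵥ t)) -
      (S.A w 0 2 - S.B w 0 2) * t 2 * D x (![1, 0, 0]) (S.B e *ᵥ x) -
      ep * t 2 * x 2 * (S.B w 0 0 * x 0 + S.B w 0 1 * x 1 + S.B w 0 2 * x 2) = 0 := by
  obtain ⟨a, ha⟩ := hA w hw
  obtain ⟨χ, hχ⟩ := hB w hw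
  obtain ⟨ha0, ha1, ha2⟩ := shape_row _ _ ha
  obtain ⟨hc0, hc1, hc2⟩ := shape_row _ _ hχ
  obtain ⟨e0, e1⟩ := aw h f hb hA hB e ep hep hAe w hw
  have hb1 : S.b w e - S.b e w = 0 := by
    rw [hb, hb, hw]; simp
  have h1 := g4 h.cl w e x t
  rw [hb1, hAe] at h1
  simp only [kap, D, Matrix.mulVec, dotProduct, Fin.sum_univ_three, ha1, ha2, hc1, hc2, e0, e1,
    tab0, tab1, tab2, Matrix.of_apply, Matrix.cons_val', Matrix.cons_val_zero,
    Matrix.cons_val_one, Matrix.cons_val, Pi.zero_apply] at h1 ⊢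
  linear_combination h1

/-- the shape of `B_e`, and `a_w` -/
theorem c2b1_B {S : DatG W} (h : StdG S) (f : W →ₗ[ℂ] ℂ)
    (hb : ∀ y w, S.b y w = (f y * f w) • (![1, 0, 0] : V3))
    (hA : ∀ w, f w = 0 → ∃ a, S.A w = vecMulVec (![1, 0, 0]) a)
    (hB : ∀ w, f w = 0 → ∃ χ, S.B w = vecMulVec (![1, 0, 0]) χ)
    (e : W) (he : f e = 1) (ep : ℂ) (hep : ep ≠ 0) (hAe : S.A e = !![0, 0, 0; 0, 0, ep; 0, 0, 0]) :
    ∃ (s ρ : ℂ) (χ : V3), ρ ≠ 0 ∧ S.B e = !![χ 0, χ 1, χ 2; 0, 0, ρ; 0, 0, 0] + s • (1 : M3) ∧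
      ∀ w, f w = 0 → ∃ del : ℂ, S.A w 0 0 = S.B w 0 0 ∧ S.A w 0 1 = S.B w 0 1 ∧
        S.A w 0 2 = S.B w 0 2 + del ∧ (2 * ρ - ep) * S.B w 0 0 = 0 ∧
        (2 * ρ - ep) * S.B w 0 1 = 0 ∧ (2 * ρ - ep) * S.B w 0 2 = ρ * del := by
  obtain ⟨w0, hw0, hw0'⟩ := exists_ker h f
  obtain ⟨χ, hχ⟩ := hB w0 hw0
  have hχ0 := chi_ne h f hb hw0 hw0' hχ
  obtain ⟨hc0, hc1, hc2⟩ := shape_row _ _ hχ
  have G := g4e h f hb hA hB e ep hep hAe
  set m := S.B e with hm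
  have key : m 1 0 = 0 ∧ m 2 0 = 0 ∧ m 2 1 = 0 ∧ m 1 1 = m 2 2 := by
    have q1 := fun x0 x1 x2 => G w0 hw0 (![x0, x1, x2]) (![1, 0, 0])
    have q2 := fun x0 x1 x2 => G w0 hw0 (![x0, x1, x2]) (![0, 1, 0])
    simp only [D, Matrix.mulVec, dotProduct, Fin.sum_univ_three, tab0, tab1, tab2, hc0] at q1 q2
    have r1 : ∀ x0 x1 x2 : ℂ, (χ 0 * x0 + χ 1 * x1 + χ 2 * x2) * (m 1 0 * x2 - m 2 0 * x1) = 0 := by
      intro x0 x1 x2
      linear_combination q1 x0 x1 x2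
    have r2 : ∀ x0 x1 x2 : ℂ, (χ 0 * x0 + χ 1 * x1 + χ 2 * x2) *
        ((m 1 1 - m 2 2) * x2 - 2 * m 2 1 * x1 - m 2 0 * x0) = 0 := by
      intro x0 x1 x2
      linear_combination q2 x0 x1 x2
    have c : (χ 0 ≠ 0 ∨ χ 1 ≠ 0) ∨ χ 2 ≠ 0 := by
      by_contra hcon
      push Not at hcon
      apply hχ0
      funext i
      fin_cases i
      · exact hcon.1.1
      · exact hcon.1.2
      · exact hcon.2
    have gen : ∀ u v w : ℂ, (∀ x0 x1 x2 : ℂ, (χ 0 * x0 + χ 1 * x1 + χ 2 * x2) *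
        (u * x0 + v * x1 + w * x2) = 0) → u = 0 ∧ v = 0 ∧ w = 0 := by
      intro u v w hh
      have c00 := hh 1 0 0
      have c11 := hh 0 1 0
      have c22 := hh 0 0 1
      have c01 := hh 1 1 0
      have c02 := hh 1 0 1
      have c12 := hh 0 1 1
      have d00 : χ 0 * u = 0 := by linear_combination c00
      have d11 : χ 1 * v = 0 := by linear_combination c11
      have d22 : χ 2 * w = 0 := by linear_combination c22
      have d01 : χ 0 * v + χ 1 * u = 0 := by linear_combination c01 - c00 - c11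
      have d02 : χ 0 * w + χ 2 * u = 0 := by linear_combination c02 - c00 - c22
      have d12 : χ 1 * w + χ 2 * v = 0 := by linear_combination c12 - c11 - c22
      rcases c with (c | c) | c
      · have u0 : u = 0 := (mul_eq_zero.mp d00).resolve_left c
        subst u0
        refine ⟨rfl, ?_, ?_⟩
        · exact (mul_eq_zero.mp (by linear_combination d01 : χ 0 * v = 0)).resolve_left c
        · exact (mul_eq_zero.mp (by linear_combination d02 : χ 0 * w = 0)).resolve_left c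
      · have v0 : v = 0 := (mul_eq_zero.mp d11).resolve_left c
        subst v0
        refine ⟨?_, rfl, ?_⟩
        · exact (mul_eq_zero.mp (by linear_combination d01 : χ 1 * u = 0)).resolve_left c
        · exact (mul_eq_zero.mp (by linear_combination d12 : χ 1 * w = 0)).resolve_left c
      · have w0 : w = 0 := (mul_eq_zero.mp d22).resolve_left c
        subst w0
        refine ⟨?_, ?_, rfl⟩
        · exact (mul_eq_zero.mp (by linear_combination d02 : χ 2 * u = 0)).resolve_left c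
        · exact (mul_eq_zero.mp (by linear_combination d12 : χ 2 * v = 0)).resolve_left c
    obtain ⟨_, g1, g2⟩ := gen 0 (-(m 2 0)) (m 1 0) (fun x0 x1 x2 => by
      linear_combination r1 x0 x1 x2)
    obtain ⟨_, g3, g4⟩ := gen (-(m 2 0)) (-(2 * m 2 1)) (m 1 1 - m 2 2) (fun x0 x1 x2 => by
      linear_combination r2 x0 x1 x2)
    refine ⟨g2, by linear_combination -g1, ?_, sub_eq_zero.mp g4⟩
    linear_combination (-1 / 2 : ℂ) * g3
  obtain ⟨k1, k2, k3, k4⟩ := key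
  have F : ∀ w, f w = 0 → (2 * m 1 2 - ep) * S.B w 0 0 = 0 ∧ (2 * m 1 2 - ep) * S.B w 0 1 = 0 ∧
      (2 * m 1 2 - ep) * S.B w 0 2 = m 1 2 * (S.A w 0 2 - S.B w 0 2) := by
    intro w hw
    have q := fun x0 x1 x2 => G w hw (![x0, x1, x2]) (![0, 0, 1])
    simp only [D, Matrix.mulVec, dotProduct, Fin.sum_univ_three, tab0, tab1, tab2, k1, k2, k3,
      k4] at q
    have p1 := q 0 0 1
    have p2 := q 1 0 1
    have p3 := q 0 1 1
    refine ⟨?_, ?_, ?_⟩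
    · linear_combination p2 - p1
    · linear_combination p3 - p1
    · linear_combination p1
  have hρ : m 1 2 ≠ 0 := by
    intro h0
    apply hχ0
    obtain ⟨F0, F1, F2⟩ := F w0 hw0
    rw [h0, hc0] at F0 F1 F2
    funext i
    fin_cases i
    · exact (mul_eq_zero.mp (by linear_combination -F0 : ep * χ 0 = 0)).resolve_left hep
    · exact (mul_eq_zero.mp (by linear_combination -F1 : ep * χ 1 = 0)).resolve_left hep
    · exact (mul_eq_zero.mp (by linear_combination -F2 : ep * χ 2 = 0)).resolve_left hep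
  refine ⟨m 2 2, m 1 2, ![m 0 0 - m 2 2, m 0 1, m 0 2], hρ, ?_, ?_⟩
  · ext i j
    fin_cases i <;> fin_cases j <;> simp [Matrix.one_apply, k1, k2, k3, k4]
  · intro w hw
    obtain ⟨F0, F1, F2⟩ := F w hw
    obtain ⟨e0, e1⟩ := aw h f hb hA hB e ep hep hAe w hw
    exact ⟨S.A w 0 2 - S.B w 0 2, e0, e1, by ring, F0, F1, F2⟩

/-- the case of trivial scalar part -/
private theorem c2b1_0 {S : DatG W} (h : StdG S) (f : W →ₗ[ℂ] ℂ)
    (hb : ∀ y w, S.b y w = (f y * f w) • (![1, 0, 0] : V3))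
    (hA : ∀ w, f w = 0 → ∃ a, S.A w = vecMulVec (![1, 0, 0]) a)
    (hB : ∀ w, f w = 0 → ∃ χ, S.B w = vecMulVec (![1, 0, 0]) χ)
    (e : W) (he : f e = 1) (ep : ℂ) (hep : ep ≠ 0) (hAe : S.A e = !![0, 0, 0; 0, 0, ep; 0, 0, 0])
    (ρ : ℂ) (χ : V3) (hρ : ρ ≠ 0) (hBe : S.B e = !![χ 0, χ 1, χ 2; 0, 0, ρ; 0, 0, 0])
    (H : ∀ w, f w = 0 → ∃ del : ℂ, S.A w 0 0 = S.B w 0 0 ∧ S.A w 0 1 = S.B w 0 1 ∧
        S.A w 0 2 = S.B w 0 2 + del ∧ (2 * ρ - ep) * S.B w 0 0 = 0 ∧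
        (2 * ρ - ep) * S.B w 0 1 = 0 ∧ (2 * ρ - ep) * S.B w 0 2 = ρ * del) :
    False := by
  obtain ⟨w0, hw0, hw0'⟩ := exists_ker h f
  obtain ⟨φ, hφ⟩ := hB w0 hw0
  have hφ0 := chi_ne h f hb hw0 hw0' hφ
  obtain ⟨a, ha⟩ := hA w0 hw0
  obtain ⟨hc0, hc1, hc2⟩ := shape_row _ _ hφ
  obtain ⟨ha0, ha1, ha2⟩ := shape_row _ _ ha
  obtain ⟨del, d0, d1, d2, d3, d4, d5⟩ := H w0 hw0
  have hr : Row2 S := by
    have hdec : ∀ y, ∃ w, f w = 0 ∧ y = f y • e + w := by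
      intro y
      refine ⟨y - f y • e, ?_, by abel⟩
      rw [map_sub, map_smul, he, smul_eq_mul, mul_one, sub_self]
    refine ⟨?_, ?_, ?_⟩
    · intro y j
      obtain ⟨w, hw, hy⟩ := hdec y
      obtain ⟨a', ha'⟩ := hA w hw
      obtain ⟨_, _, q⟩ := shape_row _ _ ha'
      rw [hy, map_add, map_smul, hAe, Matrix.add_apply, q j, Matrix.smul_apply]
      fin_cases j <;> simp
    · intro y
      obtain ⟨w, hw, hy⟩ := hdec y
      obtain ⟨a', ha'⟩ := hB w hw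
      obtain ⟨_, _, q⟩ := shape_row _ _ ha'
      rw [hy, map_add, map_smul, hBe, Matrix.add_apply, Matrix.add_apply, q 0, q 1,
        Matrix.smul_apply, Matrix.smul_apply]
      constructor <;> simp
    · intro y w
      rw [hb]
      simp
  have hbe : S.b e e = ![1, 0, 0] := by rw [hb, he]; simp
  have vA : ∀ t : V3, S.A e *ᵥ t = ![0, ep * t 2, 0] := by
    intro t
    rw [hAe]
    ext i
    fin_cases i <;> simp [Matrix.mulVec, dotProduct, Fin.sum_univ_three]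
  have vB : ∀ t : V3, S.B e *ᵥ t = ![χ 0 * t 0 + χ 1 * t 1 + χ 2 * t 2, ρ * t 2, 0] := by
    intro t
    rw [hBe]
    ext i
    fin_cases i <;> simp [Matrix.mulVec, dotProduct, Fin.sum_univ_three]
  have vAw : ∀ t : V3, S.A w0 *ᵥ t = ![φ 0 * t 0 + φ 1 * t 1 + (φ 2 + del) * t 2, 0, 0] := by
    intro t
    ext i
    fin_cases i
    · simp [Matrix.mulVec, dotProduct, Fin.sum_univ_three, d0, d1, d2, hc0]
    · simp [Matrix.mulVec, dotProduct, Fin.sum_univ_three, ha1]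
    · simp [Matrix.mulVec, dotProduct, Fin.sum_univ_three, ha2]
  have vBw : ∀ t : V3, S.B w0 *ᵥ t = ![φ 0 * t 0 + φ 1 * t 1 + φ 2 * t 2, 0, 0] := by
    intro t
    ext i
    fin_cases i
    · simp [Matrix.mulVec, dotProduct, Fin.sum_univ_three, hc0]
    · simp [Matrix.mulVec, dotProduct, Fin.sum_univ_three, hc1]
    · simp [Matrix.mulVec, dotProduct, Fin.sum_univ_three, hc2]
  -- (g2)(e,e)
  have hdk : ∀ x t1 t2 : V3, dkap S.C (![1, 0, 0]) x t1 t2 =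
      -(ep * x 2 * ((χ 0 * t1 0 + χ 1 * t1 1) * t2 2 - (χ 0 * t2 0 + χ 1 * t2 1) * t1 2)) := by
    intro x t1 t2
    have h1 := g2 h.cl e e x t1 t2
    rw [hbe] at h1
    rw [h1]
    have hT : Z S e e *ᵥ x = ![-(χ 1 * ep * x 2), χ 0 * ep * x 2, 0] := by
      rw [Z_T1 e e ?_ ?_ ?_, hAe, hBe]
      · ext i
        fin_cases i <;> simp [Matrix.mulVec, dotProduct, Fin.sum_univ_three]
      · rw [hAe]; simp [T1]
      · rw [hAe]; simp [T1]
      · rw [hBe]; simp [T1]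
    rw [hT]
    simp only [D, tab0, tab1, tab2]
    ring
  rw [hc0] at d3 d4 d5
  by_cases hcase : 2 * ρ = ep
  · -- (α)
    have hdel : del = 0 := by
      have : ρ * del = 0 := by rw [← d5, hcase]; ring
      exact (mul_eq_zero.mp this).resolve_left hρ
    subst hdel
    have hQ : ∀ t1 t2 : V3,
        (χ 0 * t1 0 + χ 1 * t1 1) * t2 2 - (χ 0 * t2 0 + χ 1 * t2 1) * t1 2 = 0 := by
      intro t1 t2
      have e4 : ∀ x : V3, (φ 0 * x 0 + φ 1 * x 1 + φ 2 * x 2) * (x 2 *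
          ((χ 0 * t1 0 + χ 1 * t1 1) * t2 2 - (χ 0 * t2 0 + χ 1 * t2 1) * t1 2)) = 0 := by
        intro x
        have h1 := eq4' h.cl w0 x t1 t2
        have h2 := hdk x t1 t2
        rw [vAw, vAw, vBw, vBw, vBw] at h1
        simp only [dkap, D, tab0, tab1, tab2] at h1 h2
        apply mul_left_cancel₀ hep
        rw [mul_zero]
        linear_combination h1 + (φ 0 * x 0 + φ 1 * x 1 + φ 2 * x 2) * h2
      have c1 := e4 (![0, 0, 1])
      have c2 := e4 (![1, 0, 1])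
      have c3 := e4 (![0, 1, 1])
      simp only [tab0, tab1, tab2] at c1 c2 c3
      by_contra hq
      apply hφ0
      funext i
      fin_cases i
      · exact (mul_eq_zero.mp (by linear_combination c2 - c1 : φ 0 * _ = 0)).resolve_right hq
      · exact (mul_eq_zero.mp (by linear_combination c3 - c1 : φ 1 * _ = 0)).resolve_right hq
      · exact (mul_eq_zero.mp (by linear_combination c1 : φ 2 * _ = 0)).resolve_right hq
    have x0 : χ 0 = 0 := by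
      have := hQ (![1, 0, 0]) (![0, 0, 1])
      simpa only [tab0, tab1, tab2, mul_one, mul_zero, add_zero, sub_zero] using this
    have x1 : χ 1 = 0 := by
      have := hQ (![0, 1, 0]) (![0, 0, 1])
      simpa only [tab0, tab1, tab2, mul_one, mul_zero, add_zero, zero_add, sub_zero] using this
    have hdk0 : ∀ x t1 t2 : V3, dkap S.C (![1, 0, 0]) x t1 t2 = 0 := by
      intro x t1 t2
      rw [hdk, hQ]
      ring
    refine no_div h hr (core S.C (-(χ 2) / ρ) hdk0 ?_)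
    intro x t1 t2
    have hk : ρ * (-(χ 2) / ρ) = -(χ 2) := by field_simp
    generalize -(χ 2) / ρ = k at hk ⊢
    have h1 := eq4' h.cl e x t1 t2
    have h2 := hdk0 x t1 t2
    rw [vA, vA, vB, vB, vB] at h1
    apply mul_left_cancel₀ hρ
    simp only [dkap, kap, D, tab0, tab1, tab2, x0, x1] at h1 h2 ⊢
    linear_combination -h1 - χ 2 * x 2 * h2 -
      (t1 2 * (x 0 * (S.C x *ᵥ t2) 2 - x 2 * (S.C x *ᵥ t2) 0) -
        t2 2 * (x 0 * (S.C x *ᵥ t1) 2 - x 2 * (S.C x *ᵥ t1) 0)) * hcase -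
      (t1 2 * (x 2 * (S.C x *ᵥ t2) 1 - x 1 * (S.C x *ᵥ t2) 2) -
        t2 2 * (x 2 * (S.C x *ᵥ t1) 1 - x 1 * (S.C x *ᵥ t1) 2)) * hk
  · -- (β)
    have hs : 2 * ρ - ep ≠ 0 := sub_ne_zero.mpr hcase
    have f0 : φ 0 = 0 := (mul_eq_zero.mp d3).resolve_left hs
    have f1 : φ 1 = 0 := (mul_eq_zero.mp d4).resolve_left hs
    have f2 : φ 2 ≠ 0 := by
      intro h0
      apply hφ0
      funext i
      fin_cases i
      · exact f0
      · exact f1
      · exact h0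
    have hdel : del ≠ 0 := by
      rintro rfl
      rw [mul_zero] at d5
      exact mul_ne_zero hs f2 d5
    refine no_div h hr ?_
    obtain ⟨C0, C1, C2, hC⟩ : ∃ C0 C1 C2 : M3, ∀ x0 x1 x2 : ℂ,
        S.C (![x0, x1, x2]) = x0 • C0 + x1 • C1 + x2 • C2 := by
      refine ⟨S.C (![1, 0, 0]), S.C (![0, 1, 0]), S.C (![0, 0, 1]), ?_⟩
      intro x0 x1 x2
      rw [← map_smul, ← map_smul, ← map_smul, ← map_add, ← map_add]
      congr 1
      ext i
      fin_cases i <;> simp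
    have E1 : ∀ x t1 t2 : V3, del * (t1 2 * kap S.C (![1, 0, 0]) x t2 -
        t2 2 * kap S.C (![1, 0, 0]) x t1) = φ 2 * x 2 *
        (-(ep * x 2 * ((χ 0 * t1 0 + χ 1 * t1 1) * t2 2 - (χ 0 * t2 0 + χ 1 * t2 1) * t1 2))) := by
      intro x t1 t2
      have h1 := eq4' h.cl w0 x t1 t2
      have h2 := hdk x t1 t2
      rw [vAw, vAw, vBw, vBw, vBw] at h1
      simp only [dkap, kap, D, tab0, tab1, tab2, f0, f1] at h1 h2 ⊢
      linear_combination h1 + φ 2 * x 2 * h2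
    have q1 := fun a b c => E1 (![a, b, c]) (![0, 0, 1]) (![1, 0, 0])
    have q2 := fun a b c => E1 (![a, b, c]) (![0, 0, 1]) (![0, 1, 0])
    have q3 := hdk (![0, 1, 0]) (![1, 0, 0]) (![0, 0, 1])
    have q4 := hdk (![0, 1, 0]) (![0, 1, 0]) (![0, 0, 1])
    simp only [kap, D, hC, Matrix.mulVec, dotProduct, Fin.sum_univ_three, tab0, tab1, tab2,
      Matrix.add_apply, Matrix.smul_apply, smul_eq_mul] at q1 q2
    simp only [dkap, D, hC, Matrix.mulVec, dotProduct, Fin.sum_univ_three, tab0, tab1, tab2,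
      Matrix.add_apply, Matrix.smul_apply, smul_eq_mul] at q3 q4
    have r1 : C1 2 0 = 0 := by
      apply (mul_eq_zero.mp _).resolve_left hdel
      linear_combination -(q1 0 1 0)
    have r2 : C0 2 0 = 0 := by
      apply (mul_eq_zero.mp _).resolve_left hdel
      linear_combination -(q1 1 1 0) + q1 0 1 0
    have r3 : C1 1 0 - C2 2 0 = 0 := by
      apply (mul_eq_zero.mp _).resolve_left hdel
      linear_combination q1 0 1 1 - q1 0 1 0 - q1 0 0 1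
    have r4 : C1 2 1 = 0 := by
      apply (mul_eq_zero.mp _).resolve_left hdel
      linear_combination -(q2 0 1 0)
    have r5 : C0 2 1 = 0 := by
      apply (mul_eq_zero.mp _).resolve_left hdel
      linear_combination -(q2 1 1 0) + q2 0 1 0
    have r6 : C1 1 1 - C2 2 1 = 0 := by
      apply (mul_eq_zero.mp _).resolve_left hdel
      linear_combination q2 0 1 1 - q2 0 1 0 - q2 0 0 1
    have r7 : C0 2 2 = 0 := by
      linear_combination -q3 - r3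
    have r8 : C1 2 2 = 0 := by
      linear_combination (-1 / 2 : ℂ) * q4 - (1 / 2 : ℂ) * r6
    refine ⟨C2 2, ?_⟩
    intro x t
    have hx : x = ![x 0, x 1, x 2] := by
      ext i
      fin_cases i <;> rfl
    have h9 : S.C x = x 0 • C0 + x 1 • C1 + x 2 • C2 := by
      conv_lhs => rw [hx]
      rw [hC]
    rw [h9]
    simp only [Matrix.mulVec, dotProduct, Fin.sum_univ_three, Matrix.add_apply, Matrix.smul_apply,
      smul_eq_mul, r1, r2, r4, r5, r7, r8]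
    ring

theorem c2b1 {S : DatG W} (h : StdG S) (f : W →ₗ[ℂ] ℂ)
    (hb : ∀ y w, S.b y w = (f y * f w) • (![1, 0, 0] : V3))
    (hA : ∀ w, f w = 0 → ∃ a, S.A w = vecMulVec (![1, 0, 0]) a)
    (hB : ∀ w, f w = 0 → ∃ χ, S.B w = vecMulVec (![1, 0, 0]) χ)
    (e : W) (he : f e = 1) (ep : ℂ) (hep : ep ≠ 0) (hAe : S.A e = !![0, 0, 0; 0, 0, ep; 0, 0, 0]) :
    False := by
  obtain ⟨s, ρ, χ, hρ, hBe, H⟩ := c2b1_B h f hb hA hB e he ep hep hAe
  have hk : ∀ w, f w = 0 → (gaugeG S ((-s) • f) 0).B w = S.B w := by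
    intro w hw
    simp [gaugeG, hw]
  refine c2b1_0 (h.gauge ((-s) • f) 0) f hb hA ?_ e he ep hep hAe ρ χ hρ ?_ ?_
  · intro w hw
    rw [hk w hw]
    exact hB w hw
  · have h1 : (gaugeG S ((-s) • f) 0).B e = S.B e + (-s) • (1 : M3) := by
      simp [gaugeG, he]
    rw [h1, hBe, add_assoc, ← add_smul]
    simp
  · intro w hw
    rw [hk w hw]
    exact H w hw

end Pool.Agent.Helper93.K3B
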