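import Pool.Agent.Helper93.K3B.C2a
import Pool.Agent.Helper93.K3B.C2b0
import Pool.Agent.Helper93.K3B.C2b1
import Pool.Agent.Helper93.K3B.Lin

/-!
K3B / C2: assembly of the case `b(y,w) = f(y) f(w) c`.

`c2_B`: (g3)(e; w, e): `R_w = 0` for `w` in `ker f` (see C1B.lean for `R_w` and its coefficients).
`c2`: (g1): `A_y c = tr(A_y) c` for `f(y) ≠ 0`, so for all `y` (`eq_zero_off`); `nil_frame`,
`StdG.conj`; `c2_B`; gauge `ζ w = -B_w 1 1`: `T1 (B_w)` on `ker f`.  `k(y) := A_y 1 2`.  Choose `e0` with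
`f(e0) = 1`.
(a) `k(w1) = 1` for some `w1` in `ker f`: `e := e0 - k(e0) w1`, so `k(e) = 0`, `A_e = e_0 ⊗ a`; `lgG S e (-a)`:
`A_e = 0` (`b e e = e_0`), `A_y`, `B_y` unchanged for `y` in `ker f`, all `A_y` still `T1`: `c2a`.
(b) `k = 0` on `ker f`: `e := e0`, `lgG S e l` with `l = -(row 0 of A_e)`: `A_e = k(e) E12`; `c2b0` or `c2b1`.
-/

set_option autoImplicit false

namespace Pool.Agent.Helper93.K3B

open Matrix Pool.Agent.Helper93.K3A

variable {W : Type} [AddCommGroup W] [Module ℂ W]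

theorem c2_B {S : DatG W} (h : ClG S) (f : W →ₗ[ℂ] ℂ)
    (hb : ∀ y w, S.b y w = (f y * f w) • (![1, 0, 0] : V3)) (hA : ∀ y, T1 (S.A y))
    (e : W) (he : f e = 1) :
    ∀ w, f w = 0 → S.B w 1 0 = 0 ∧ S.B w 2 0 = 0 ∧ S.B w 2 1 = 0 ∧ S.B w 1 1 = S.B w 2 2 ∧
      2 * S.B w 1 2 = S.A w 1 2 := by
  intro w hw
  obtain ⟨a10, a11, a20, a21, a22⟩ := hA w
  have key : ∀ x t : V3, t 1 * (S.B w *ᵥ x) 2 - t 2 * (S.B w *ᵥ x) 1
      + (x 1 * (S.B w *ᵥ t) 2 - x 2 * (S.B w *ᵥ t) 1)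
      - (x 1 * (S.A w *ᵥ t) 2 - x 2 * (S.A w *ᵥ t) 1) = 0 := by
    intro x t
    have h1 := g3 h e w e x t
    rw [hb e e, hb e w, hb w e, he, hw] at h1
    simp only [D, Pi.smul_apply, Pi.sub_apply, smul_eq_mul, Matrix.cons_val_zero,
      Matrix.cons_val_one, Matrix.cons_val] at h1
    linear_combination h1
  have k1 := key ![1, 0, 0] ![0, 1, 0]
  have k2 := key ![1, 0, 0] ![0, 0, 1]
  have k3 := key ![0, 1, 0] ![0, 1, 0]
  have k4 := key ![0, 1, 0] ![0, 0, 1]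
  have k5 := key ![0, 0, 1] ![0, 0, 1]
  simp only [Matrix.mulVec, dotProduct, Fin.sum_univ_three, Matrix.cons_val_zero,
    Matrix.cons_val_one, Matrix.cons_val] at k1 k2 k3 k4 k5
  refine ⟨?_, ?_, ?_, ?_, ?_⟩
  · linear_combination -k2
  · linear_combination k1
  · linear_combination (1 / 2 : ℂ) * k3 + (1 / 2 : ℂ) * a21
  · linear_combination -k4 - a22
  · linear_combination -k5

private theorem ev_mul {n : ℕ} (P : Matrix (Fin n) (Fin n) ℂ) (c : ℂ) (v : Fin n → ℂ) :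
    P *ᵥ (c • v) = c • (P *ᵥ v) := Matrix.mulVec_smul P c v

private theorem t1_row {P : M3} (h : T1 P) (h12 : P 1 2 = 0) :
    P = vecMulVec (![1, 0, 0]) (P 0) := by
  obtain ⟨a10, a11, a20, a21, a22⟩ := h
  ext i j
  fin_cases i <;> fin_cases j <;> simp [vecMulVec_apply, a10, a11, a20, a21, a22, h12]

private theorem t1_add {P : M3} (h : T1 P) (c : ℂ) (l : V3) :
    T1 (P + vecMulVec (c • (![1, 0, 0] : V3)) l) := by
  obtain ⟨a10, a11, a20, a21, a22⟩ := h
  refine ⟨?_, ?_, ?_, ?_, ?_⟩ <;> rw [Matrix.add_apply, vecMulVec_apply, Pi.smul_apply]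
  · rw [a10]; simp
  · rw [a11]; simp
  · rw [a20]; simp
  · rw [a21]; simp
  · rw [a22]; simp

/-- the statement in adapted coordinates -/
private theorem c2_coord {S : DatG W} (h : StdG S) (f : W →ₗ[ℂ] ℂ)
    (hb : ∀ y w, S.b y w = (f y * f w) • (![1, 0, 0] : V3)) (hA : ∀ y, T1 (S.A y))
    (hB : ∀ w, f w = 0 → T1 (S.B w) ∧ 2 * S.B w 1 2 = S.A w 1 2)
    (e0 : W) (he0 : f e0 = 1) : False := by
  have lgA : ∀ (e : W) (l : V3) (y : W),
      (lgG S e l).A y = S.A y + vecMulVec ((f y * f e) • (![1, 0, 0] : V3)) l := by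
    intro e l y
    show S.A y + vecMulVec (S.b y e) l = _
    rw [hb]
  have lgB : ∀ (e : W) (l : V3) (w : W),
      (lgG S e l).B w = S.B w + vecMulVec ((f e * f w) • (![1, 0, 0] : V3)) l := by
    intro e l w
    show S.B w + vecMulVec (S.b e w) l = _
    rw [hb]
  have lgb : ∀ (e : W) (l : V3) (y w : W), (lgG S e l).b y w = (f y * f w) • (![1, 0, 0] : V3) := by
    intro e l y w
    exact hb y w
  have lgA0 : ∀ (e : W) (l : V3) (y : W), f y = 0 → (lgG S e l).A y = S.A y := by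
    intro e l y hy
    rw [lgA, hy, zero_mul, zero_smul]
    ext i j
    simp
  have lgB0 : ∀ (e : W) (l : V3) (w : W), f w = 0 → (lgG S e l).B w = S.B w := by
    intro e l w hw
    rw [lgB, hw, mul_zero, zero_smul]
    ext i j
    simp
  by_cases hk : ∃ w, f w = 0 ∧ S.A w 1 2 ≠ 0
  · obtain ⟨w0, hw0, hk0⟩ := hk
    set w1 : W := (S.A w0 1 2)⁻¹ • w0 with hw1
    have fw1 : f w1 = 0 := by rw [hw1, map_smul, hw0, smul_zero]
    have kw1 : S.A w1 1 2 = 1 := by
      rw [hw1, map_smul, Matrix.smul_apply, smul_eq_mul, inv_mul_cancel₀ hk0]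
    set e : W := e0 - S.A e0 1 2 • w1 with hedef
    have fe : f e = 1 := by rw [hedef, map_sub, map_smul, fw1, smul_zero, sub_zero, he0]
    have ke : S.A e 1 2 = 0 := by
      rw [hedef, map_sub, map_smul, Matrix.sub_apply, Matrix.smul_apply, smul_eq_mul, kw1]
      ring
    have hAe := t1_row (hA e) ke
    refine c2a (h.lg e (-(S.A e 0))) f (lgb e _) (fun y => ?_) (fun w hw => ?_) e fe ?_ w1 fw1 ?_
    · rw [lgA]
      exact t1_add (hA y) _ _
    · rw [lgB0 _ _ _ hw, lgA0 _ _ _ hw]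
      exact hB w hw
    · rw [lgA, fe, mul_one, one_smul]
      ext i j
      have h3 := congrFun (congrFun hAe i) j
      rw [vecMulVec_apply] at h3
      rw [Matrix.add_apply, vecMulVec_apply, Pi.neg_apply, h3, Matrix.zero_apply]
      ring
    · rw [lgA0 _ _ _ fw1]
      exact kw1
  · push Not at hk
    have hA2 : ∀ w, f w = 0 → ∃ a, (lgG S e0 (-(S.A e0 0))).A w = vecMulVec (![1, 0, 0]) a := by
      intro w hw
      rw [lgA0 _ _ _ hw]
      exact ⟨_, t1_row (hA w) (hk w hw)⟩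
    have hB2 : ∀ w, f w = 0 → ∃ a, (lgG S e0 (-(S.A e0 0))).B w = vecMulVec (![1, 0, 0]) a := by
      intro w hw
      rw [lgB0 _ _ _ hw]
      obtain ⟨h1, h2⟩ := hB w hw
      refine ⟨_, t1_row h1 ?_⟩
      rw [hk w hw] at h2
      linear_combination (1 / 2 : ℂ) * h2
    have hAe : (lgG S e0 (-(S.A e0 0))).A e0 = !![0, 0, 0; 0, 0, S.A e0 1 2; 0, 0, 0] := by
      rw [lgA, he0, mul_one, one_smul]
      obtain ⟨a10, a11, a20, a21, a22⟩ := hA e0
      ext i j
      rw [Matrix.add_apply, vecMulVec_apply, Pi.neg_apply]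
      fin_cases i <;> fin_cases j <;> simp [a10, a11, a20, a21, a22]
    by_cases hk0 : S.A e0 1 2 = 0
    · refine c2b0 (h.lg e0 (-(S.A e0 0))) f (lgb e0 _) hA2 hB2 e0 he0 ?_
      rw [hAe, hk0]
      ext i j
      fin_cases i <;> fin_cases j <;> simp
    · exact c2b1 (h.lg e0 (-(S.A e0 0))) f (lgb e0 _) hA2 hB2 e0 he0 (S.A e0 1 2) hk0 hAe

theorem c2 {S : DatG W} (h : StdG S) (c : V3) (hc : c ≠ 0) (f : W →ₗ[ℂ] ℂ) (hf : f ≠ 0)
    (hb : ∀ y w, S.b y w = (f y * f w) • c) : False := by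
  -- step 1
  have h1 : ∀ y, S.A y *ᵥ c = (S.A y).trace • c := by
    let T : W →ₗ[ℂ] V3 :=
      { toFun := fun y => S.A y *ᵥ c - (S.A y).trace • c
        map_add' := fun x y => by
          rw [map_add, Matrix.add_mulVec, Matrix.trace_add, add_smul]
          abel
        map_smul' := fun r x => by
          rw [map_smul, Matrix.smul_mulVec, Matrix.trace_smul, RingHom.id_apply, smul_sub,
            smul_assoc] }
    have hT : T = 0 := eq_zero_off f hf T (fun y hy => by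
      have h2 := g1 h.cl y y
      rw [hb, Matrix.mulVec_smul, smul_comm] at h2
      have h3 := smul_right_injective V3 (mul_ne_zero hy hy) h2
      show S.A y *ᵥ c - (S.A y).trace • c = 0
      rw [h3, sub_self])
    intro y
    have h2 : T y = 0 := by rw [hT]; rfl
    exact sub_eq_zero.1 h2
  obtain ⟨P, Q, hPQ, hQP, hPc, hT1⟩ := nil_frame S.A c hc h1 (fun y => e2A' h.cl y)
  obtain ⟨e, he⟩ : ∃ e, f e = 1 := by
    obtain ⟨e0, he0⟩ : ∃ e0, f e0 ≠ 0 := by
      by_contra hh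
      push Not at hh
      exact hf (LinearMap.ext hh)
    exact ⟨(f e0)⁻¹ • e0, by rw [map_smul, smul_eq_mul, inv_mul_cancel₀ he0]⟩
  have hS1 : StdG (conjG S P Q) := h.conj hPQ
  have hA1 : ∀ y, T1 ((conjG S P Q).A y) := hT1
  have hb1 : ∀ y w, (conjG S P Q).b y w = (f y * f w) • (![1, 0, 0] : V3) := by
    intro y w
    show P *ᵥ S.b y w = _
    rw [hb, Matrix.mulVec_smul, hPc]
  have hB1 := c2_B hS1.cl f hb1 hA1 e he
  set S1 := conjG S P Q with hS1def
  let ζ : W →ₗ[ℂ] ℂ :=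
    { toFun := fun w => - S1.B w 1 1
      map_add' := fun x y => by rw [map_add, Matrix.add_apply]; ring
      map_smul' := fun r x => by
        rw [map_smul, Matrix.smul_apply, smul_eq_mul, RingHom.id_apply, smul_eq_mul]; ring }
  refine c2_coord (hS1.gauge ζ 0) f (fun y w => hb1 y w) (fun y => hA1 y) (fun w hw => ?_) e he
  obtain ⟨b10, b20, b21, b11, b12⟩ := hB1 w hw
  have hBw : (gaugeG S1 ζ 0).B w = S1.B w + (-(S1.B w 1 1)) • (1 : M3) := rfl
  have hAw : (gaugeG S1 ζ 0).A w = S1.A w := rfl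
  rw [hBw, hAw]
  refine ⟨⟨?_, ?_, ?_, ?_, ?_⟩, ?_⟩
  · simp [b10]
  · simp
  · simp [b20]
  · simp [b21]
  · simp [b11]
  · simpa using b12

end Pool.Agent.Helper93.K3B
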