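import Pool.Agent.Helper93.K3B.M0

/-!
K3B / I0: CASE M (I.0): `m(y)` in `ℂu` for all `y`.

WLOG `u = c := m(w1)` (rescale `φ`).  (F), `w = w1`: `D x ((A_y) x) c = φ(x) D x c m(y) = 0` up to sign, so
`A_y = s + c ⊗ a_y` (`pc`); `A_y c = tr(A_y) c` gives `s = 0` (`s + a(c) = 3s + a(c)`).
(F) for `w` in `ker f`, `y = w1`: `D x (B_w x) c = 0`: `B_w = c ⊗ χ_w + s_w`.
`Π(x) := D x c (B_e x)`.  (g4)(w1,e): `b(w1,e) - b(e,w1) = c`: `φ(x) dΠ = -κ_c`, i.e.
`κ_c(x;t) = -φ(x) dΠ_x(t)`.  `eq4'` for `w1`: `φ ∧ κ_c = d(φ(x) κ_c)`, so `φ(x) dκ_c = 0`, `dκ_c = 0`,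
`φ ∧ dΠ = 0`: `Π = ρ φ²`.  `ξ_c(x,y;t,w) = κ_c(x;t) + f(w) Π(x) = φ(x)² ρ (f(w) - 2 φ(t))`
(the parts `A_y`, `b`, `B_w` with `w` in `ker f` are multiples of `c` and of `x`): `no_linG`.
-/

set_option autoImplicit false

namespace Pool.Agent.Helper93.K3B

open Matrix Pool.Agent.Helper93.K3A

variable {W : Type} [AddCommGroup W] [Module ℂ W]

private theorem vm (u φ x : V3) : vecMulVec u φ *ᵥ x = (φ ⬝ᵥ x) • u := by
  ext i
  simp [vecMulVec_apply, Matrix.mulVec, dotProduct, Fin.sum_univ_three]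
  ring

private theorem exists_dual (φ : V3) (h : φ ≠ 0) : ∃ t : V3, φ ⬝ᵥ t = 1 := by
  have : ∃ i, φ i ≠ 0 := by
    by_contra hc
    push Not at hc
    exact h (funext hc)
  obtain ⟨i, hi⟩ := this
  refine ⟨Pi.single i (φ i)⁻¹, ?_⟩
  rw [dotProduct_single, mul_inv_cancel₀ hi]

theorem m_I0 {S : DatG W} {f : W →ₗ[ℂ] ℂ} {m : W →ₗ[ℂ] V3} {w1 e : W} {u φ : V3}
    (h : MD S f m w1 e u φ) (hI : ∀ y, ∃ s : ℂ, m y = s • u) : False := by
  obtain ⟨μ1, hμ1⟩ := hI w1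
  have hμ0 : μ1 ≠ 0 := by
    rintro rfl
    exact h.hm1 (by rw [hμ1, zero_smul])
  -- `A_y = u ⊗ a_y`
  have hA : ∀ y, ∃ a : V3, S.A y = vecMulVec u a := by
    intro y
    have h1 : ∀ x, D x (S.A y *ᵥ x) u = 0 := by
      intro x
      have h2 := h.F w1 h.hw1 y x
      obtain ⟨s, hs⟩ := hI y
      rw [h.A1, h.B1, hs, hμ1, vm] at h2
      have h3 : D x (S.A y *ᵥ x) (μ1 • u) = μ1 * D x (S.A y *ᵥ x) u := by
        simp only [D, Pi.smul_apply, smul_eq_mul]; ring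
      have h4 : D x ((φ ⬝ᵥ x) • u) (s • u) = 0 := by
        simp only [D, Pi.smul_apply, smul_eq_mul]; ring
      rw [h3, h4] at h2
      have h5 : μ1 * D x (S.A y *ᵥ x) u = 0 := by linear_combination -h2
      exact (mul_eq_zero.mp h5).resolve_left hμ0
    obtain ⟨s, l, hsl⟩ := pc (S.A y) u h.hu h1
    have h2 := h.Au y
    have h3 : S.A y *ᵥ u = (s + l ⬝ᵥ u) • u := by
      rw [hsl, Matrix.add_mulVec, Matrix.smul_mulVec, Matrix.one_mulVec, vm, add_smul]
    have h4 : (S.A y).trace = 3 * s + l ⬝ᵥ u := by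
      rw [hsl]
      simp [Matrix.trace, Fin.sum_univ_three, vecMulVec_apply, dotProduct]
      ring
    rw [h3, h4] at h2
    have h5 : (2 * s) • u = 0 := by
      have : (2 * s) • u = (3 * s + l ⬝ᵥ u) • u - (s + l ⬝ᵥ u) • u := by
        rw [← sub_smul]
        congr 1
        ring
      rw [this, h2, sub_self]
    have h6 : s = 0 := by
      rcases smul_eq_zero.mp h5 with h6 | h6
      · exact (mul_eq_zero.mp h6).resolve_left two_ne_zero
      · exact absurd h6 h.hu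
    refine ⟨l, ?_⟩
    rw [hsl, h6, zero_smul, zero_add]
  have DA : ∀ y x t, D x u (S.A y *ᵥ t) = 0 := by
    intro y x t
    obtain ⟨a, ha⟩ := hA y
    rw [ha, vm]
    simp only [D, Pi.smul_apply, smul_eq_mul]; ring
  -- `B_w` on the kernel of `f`
  have DB : ∀ w, f w = 0 → ∀ x, D x u (S.B w *ᵥ x) = 0 := by
    intro w hw x
    have h2 := h.F w hw w1 x
    rw [h.A1, vm, hμ1] at h2
    obtain ⟨s, hs⟩ := hI w
    rw [hs] at h2
    have h3 : D x (S.B w *ᵥ x) (μ1 • u) = - (μ1 * D x u (S.B w *ᵥ x)) := by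
      simp only [D, Pi.smul_apply, smul_eq_mul]; ring
    have h4 : D x ((φ ⬝ᵥ x) • u) (s • u) = 0 := by
      simp only [D, Pi.smul_apply, smul_eq_mul]; ring
    have h5 : D x (S.A w *ᵥ x) (μ1 • u) = 0 := by
      have := DA w x x
      have h6 : D x (S.A w *ᵥ x) (μ1 • u) = - (μ1 * D x u (S.A w *ᵥ x)) := by
        simp only [D, Pi.smul_apply, smul_eq_mul]; ring
      rw [h6, this]
      ring
    rw [h3, h4, h5] at h2
    have h5 : μ1 * D x u (S.B w *ᵥ x) = 0 := by linear_combination (-1/2) * h2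
    exact (mul_eq_zero.mp h5).resolve_left hμ0
  -- the quadratic form
  set q : V3 → V3 → ℂ := fun x t => D t u (S.B e *ᵥ x) + D x u (S.B e *ᵥ t) with hq
  have qsymm : ∀ x t, q x t = q t x := by
    intro x t
    simp only [hq]
    ring
  have qadd : ∀ x x' t, q (x + x') t = q x t + q x' t := by
    intro x x' t
    simp only [hq, D, Matrix.mulVec_add, Pi.add_apply]
    ring
  have hkap : ∀ x t, μ1 * kap S.C u x t = - ((φ ⬝ᵥ x) * q x t) := by
    intro x t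
    have h2 := g4 h.std.cl w1 e x t
    have hb : S.b w1 e - S.b e w1 = μ1 • u := by
      rw [h.hb, h.hb, h.he, h.hw1, hμ1]
      simp
    rw [hb, h.A1, h.B1, vm, vm] at h2
    obtain ⟨a, ha⟩ := hA e
    rw [ha, vm] at h2
    simp only [hq, kap, D, Pi.smul_apply, smul_eq_mul] at h2 ⊢
    linear_combination h2
  -- `dκ = 0`
  have hd0 : ∀ x t1 t2, (φ ⬝ᵥ x) * dkap S.C u x t1 t2 = 0 := by
    intro x t1 t2
    have h2 := eq4' h.std.cl w1 x t1 t2
    rw [h.A1, h.B1] at h2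
    simp only [vm] at h2
    simp only [dkap, D, Pi.smul_apply, smul_eq_mul] at h2 ⊢
    linear_combination -h2
  obtain ⟨t0, ht0⟩ := exists_dual φ h.hφ
  have dadd : ∀ x x' t1 t2, dkap S.C u (x + x') t1 t2 = dkap S.C u x t1 t2 + dkap S.C u x' t1 t2 := by
    intro x x' t1 t2
    simp only [dkap, D, map_add, Matrix.add_mulVec, Pi.add_apply]
    ring
  have hd : ∀ x t1 t2, dkap S.C u x t1 t2 = 0 := by
    intro x t1 t2
    have h1 : dkap S.C u t0 t1 t2 = 0 := by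
      have := hd0 t0 t1 t2
      rwa [ht0, one_mul] at this
    by_cases hx : φ ⬝ᵥ x = 0
    · have h2 := hd0 (x + t0) t1 t2
      rw [dotProduct_add, hx, ht0, zero_add, one_mul, dadd, h1, add_zero] at h2
      exact h2
    · exact (mul_eq_zero.mp (hd0 x t1 t2)).resolve_left hx
  -- polarisation
  have hpol : ∀ x t1 t2, (φ ⬝ᵥ t1) * q x t2 = (φ ⬝ᵥ t2) * q x t1 := by
    intro x t1 t2
    have k1 := hkap (x + t1) t2
    have k2 := hkap x t2
    have k3 := hkap t1 t2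
    have k4 := hkap (x + t2) t1
    have k5 := hkap x t1
    have k6 := hkap t2 t1
    rw [dotProduct_add, qadd] at k1 k4
    have k7 := hd x t1 t2
    have k8 : dkap S.C u x t1 t2 = (kap S.C u (x + t1) t2 - kap S.C u x t2 - kap S.C u t1 t2)
        - (kap S.C u (x + t2) t1 - kap S.C u x t1 - kap S.C u t2 t1) := by
      simp only [dkap, kap, D, map_add, Matrix.add_mulVec, Pi.add_apply]
      ring
    rw [k8] at k7
    have k9 := qsymm t1 t2
    linear_combination -μ1 * k7 + k1 - k2 - k3 - k4 + k5 + k6 - (φ ⬝ᵥ x) * k9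
  set r := q t0 t0 with hr
  have hq1 : ∀ x t, q x t = r * (φ ⬝ᵥ x) * (φ ⬝ᵥ t) := by
    intro x t
    have k1 := hpol x t0 t
    have k2 := hpol t0 t0 x
    rw [ht0, one_mul] at k1 k2
    rw [k1, qsymm x t0, k2]
    ring
  have hB : ∀ w x, D x u (S.B w *ᵥ x) = f w * (r / 2 * (φ ⬝ᵥ x) * (φ ⬝ᵥ x)) := by
    intro w x
    have k1 := DB (w - f w • e) (by simp [h.he]) x
    have k2 := hq1 x x
    simp only [hq] at k2
    rw [map_sub, map_smul, Matrix.sub_mulVec, Matrix.smul_mulVec] at k1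
    simp only [D, Pi.sub_apply, Pi.smul_apply, smul_eq_mul] at k1 k2 ⊢
    linear_combination k1 + (f w / 2) * k2
  refine no_linG h.std u h.hu (fun z => φ ⬝ᵥ z.1)
    (LinearMap.mk₂ ℂ (fun (z v : V3 × W) => (φ ⬝ᵥ z.1) * (- (r / μ1) * (φ ⬝ᵥ v.1) + r / 2 * f v.2))
      ?_ ?_ ?_ ?_) ?_
  · intro z z' v
    simp only [Prod.fst_add, dotProduct_add]
    ring
  · intro c z v
    simp only [Prod.smul_fst, dotProduct_smul, smul_eq_mul]
    ring
  · intro z v v'
    simp only [Prod.fst_add, Prod.snd_add, dotProduct_add, map_add]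
    ring
  · intro c z v
    simp only [Prod.smul_fst, Prod.smul_snd, dotProduct_smul, map_smul, smul_eq_mul]
    ring
  · rintro ⟨x, y⟩ ⟨t, w⟩
    simp only [LinearMap.mk₂_apply]
    have k1 := hkap x t
    rw [hq1] at k1
    have k1' : kap S.C u x t = - (r / μ1) * (φ ⬝ᵥ x) * (φ ⬝ᵥ x) * (φ ⬝ᵥ t) := by
      have : μ1 * kap S.C u x t = μ1 * (- (r / μ1) * (φ ⬝ᵥ x) * (φ ⬝ᵥ x) * (φ ⬝ᵥ t)) := by
        rw [k1]
        field_simp
      exact mul_left_cancel₀ hμ0 this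
    have k2 := hB w x
    have k3 := DA y x t
    have k4 : D x u (S.b y w) = 0 := by
      obtain ⟨s, hs⟩ := hI y
      rw [h.hb, hs]
      simp only [D, Pi.smul_apply, smul_eq_mul]; ring
    rw [xiG, etaG]
    simp only [kap] at k1'
    simp only [D, Pi.add_apply] at k1' k2 k3 k4 ⊢
    linear_combination k1' + k2 + k3 + k4

end Pool.Agent.Helper93.K3B
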