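import Pool.Agent.Helper93.K3B.M0

/-!
K3B / I1: CASE M (I.1): `m(w1)` in `ℂu`, but some `m(y)` is not in `ℂu`.

`m_I1_coord` (coordinates: `u = c = m(w1) = e_0`, `φ = (0,0,1)`, `z = x_2`):
(F) for `w` in `ker f`, `y = w1`: `2 B_w - A_w + m'(w) E12 ∈ ℂ1 + e_0 ⊗ U*` (`m' = ` component 1 of `m`;
use `pc`), so `B_w = -m'(w) E12 + e_0 ⊗ χ_w + s`.  (g4)(w1,w): `b(w1,w) - b(w,w1) = 0`: the three terms are
`-3 m' z² dz + m' z² dz + m' z² dz`, so `m'(w) = 0`.  If moreover `m(w) = 0`, then (F) for this `w`: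
`D x ((2B_w - A_w)x) (m y) = 0` for all `y`; with `y = w1` and `y` with `m'(y) ≠ 0`: `2B_w - A_w` is scalar
(`pc` twice), `B_w = (a_w/2) E02 + s`, so `w - (a_w/2) w1 = 0` (NCG) and `m(w) = 0` gives `w = 0`.
So every `w` in `ker f` is a multiple of `w1` (apply this to `w - m(w)_0 w1`), `W = <w1, e>`,
`m'(e) ≠ 0`.  (g4)(w1,e): with `Π(x) = D x e_0 (B_e x)`: `κ_0 = -z (dΠ + m'(e) z dz)`: `div_of_kap`: `DivC`.
`eq4'` for `w1` (`A_1 = B_1 = E02`): `z dκ_0 = 0`: `dz ∧ dΠ = 0`: `Π = ρ z²`, i.e. `B_e 2 0 = B_e 2 1 = 0`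
(also `B_e 1 0 = 0`, ..).  `Row2 S`: `no_div`.

`m_I1`: `u = c` WLOG.  (F), `w = w1`: `D x (A_y x + φ(x) m(y)) c = 0`: `A_y = -m(y) ⊗ φ + c ⊗ a'_y + s_y`.
`φ(c) = 0`: apply `A_y c = tr(A_y) c` for `m(y)` not in `ℂc`.  On `U/c` (trace 0, `e_2(A_y) = 0`, so
determinant 0): `2 s_y = φ(m(y))` and `s_y² - s_y φ(m(y)) = 0`: `s_y = 0 = φ(m(y))` for all `y`.
(g1) `A_y m(y) = tr(A_y) m(y)`, `tr A_y = a'_y(c)`: `tr A_y = 0` and `a'_y(m(y)) = 0` if `m(y)` is not
in `ℂc`, so `tr A_y = 0` for all `y` and `a'_y` kills `ker φ = <c, c'>`: `a'_y = a_y φ`.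
Coordinates with `P c = e_0`, `φ Q = (0,0,1)` (`frame_vec_cov`).
-/

set_option autoImplicit false

namespace Pool.Agent.Helper93.K3B

open Matrix Pool.Agent.Helper93.K3A

variable {W : Type} [AddCommGroup W] [Module ℂ W]

private theorem i1_D0 (x q : V3) : D x (![1, 0, 0]) q = x 2 * q 1 - x 1 * q 2 := by
  simp [D]
  ring

private theorem i1_polar (C : V3 →ₗ[ℂ] M3) (u x h t : V3) :
    D h u (C x *ᵥ t) + D x u (C h *ᵥ t) = kap C u (x + h) t - kap C u x t - kap C u h t := by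
  simp only [kap, map_add, Matrix.add_mulVec, D, Pi.add_apply]
  ring

private theorem i1_B {S : DatG W} {f : W →ₗ[ℂ] ℂ} {m : W →ₗ[ℂ] V3} {w1 e : W}
    (h : MD S f m w1 e (![1, 0, 0]) (![0, 0, 1])) (hm1 : m w1 = ![1, 0, 0])
    (hm2 : ∀ y, m y 2 = 0) (hA : ∀ y, ∃ a : ℂ, S.A y = !![0, 0, a; 0, 0, -(m y 1); 0, 0, 0])
    (w : W) (hw : f w = 0) : S.B w 1 0 = 0 ∧ S.B w 2 0 = 0 ∧ S.B w 2 1 = 0 ∧
      S.B w 1 1 = S.B w 2 2 ∧ m w 1 = 0 ∧ S.B w 1 2 = 0 := by
  obtain ⟨a, ha⟩ := hA w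
  have key : ∀ x : V3, D x (((2 : ℂ) • S.B w - S.A w + (m w 1) • !![0, 0, 0; 0, 0, 1; 0, 0, 0]) *ᵥ x)
      (![1, 0, 0]) = 0 := by
    intro x
    have h1 := h.F w hw w1 x
    rw [hm1, h.A1] at h1
    have h2 := hm2 w
    simp [D, Matrix.mulVec, dotProduct, Fin.sum_univ_three, vecMulVec_apply, ha] at h1 ⊢
    linear_combination h1 - x 1 * x 2 * h2
  obtain ⟨s, l, hs⟩ := pc _ _ (by
    intro h0
    have := congrFun h0 0
    simp at this) key
  have e10 := congrFun (congrFun hs 1) 0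
  have e20 := congrFun (congrFun hs 2) 0
  have e21 := congrFun (congrFun hs 2) 1
  have e12 := congrFun (congrFun hs 1) 2
  have e11 := congrFun (congrFun hs 1) 1
  have e22 := congrFun (congrFun hs 2) 2
  simp only [Matrix.add_apply, Matrix.sub_apply, Matrix.smul_apply, vecMulVec_apply, ha]
    at e10 e20 e21 e12 e11 e22
  simp [Matrix.one_apply] at e10 e20 e21 e12 e11 e22
  have b12 : S.B w 1 2 = -(m w 1) := by linear_combination (1 / 2 : ℂ) * e12
  have b11 : S.B w 1 1 = S.B w 2 2 := by linear_combination (1 / 2 : ℂ) * (e11 - e22)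
  have hm : m w 1 = 0 := by
    have h1 := g4 h.std.cl w1 w (![0, 0, 1]) (![0, 0, 1])
    rw [h.hb, h.hb, hw, h.hw1, zero_smul, zero_smul, h.A1, h.B1] at h1
    simp [D, kap, Matrix.mulVec, dotProduct, Fin.sum_univ_three, vecMulVec_apply, ha] at h1
    rw [b12] at h1
    linear_combination -h1
  refine ⟨e10, e20, e21, b11, hm, ?_⟩
  rw [b12, hm, neg_zero]

private theorem i1_zero {S : DatG W} {f : W →ₗ[ℂ] ℂ} {m : W →ₗ[ℂ] V3} {w1 e : W}
    (h : MD S f m w1 e (![1, 0, 0]) (![0, 0, 1])) (hm1 : m w1 = ![1, 0, 0])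
    (hm2 : ∀ y, m y 2 = 0) (hA : ∀ y, ∃ a : ℂ, S.A y = !![0, 0, a; 0, 0, -(m y 1); 0, 0, 0])
    (hm' : ∃ y, m y 1 ≠ 0) (w : W) (hw : f w = 0) (hmw : m w = 0) : w = 0 := by
  obtain ⟨a, ha⟩ := hA w
  obtain ⟨y, hy⟩ := hm'
  obtain ⟨b10, b20, b21, b11, hm, b12⟩ := i1_B h hm1 hm2 hA w hw
  have key : ∀ x : V3, ((2 * S.B w 0 0 - 2 * S.B w 2 2) * x 0 + 2 * S.B w 0 1 * x 1 +
      (2 * S.B w 0 2 - a) * x 2) * x 2 = 0 := by
    intro x
    have h1 := h.F w hw y x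
    rw [hmw] at h1
    have h2 := hm2 y
    simp [D, Matrix.mulVec, dotProduct, Fin.sum_univ_three, ha, b10, b20, b21, b11, hm, b12, h2] at h1
    have h3 : m y 1 * (((2 * S.B w 0 0 - 2 * S.B w 2 2) * x 0 + 2 * S.B w 0 1 * x 1 +
      (2 * S.B w 0 2 - a) * x 2) * x 2) = 0 := by
      linear_combination h1
    exact (mul_eq_zero.1 h3).resolve_left hy
  have k2 := key (![0, 0, 1])
  have k0 := key (![1, 0, 1])
  have k1 := key (![0, 1, 1])
  simp at k0 k1 k2
  have c02 : S.B w 0 2 = a / 2 := by linear_combination (1 / 2 : ℂ) * k2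
  have c01 : S.B w 0 1 = 0 := by linear_combination (1 / 2 : ℂ) * (k1 - k2)
  have c00 : S.B w 0 0 = S.B w 2 2 := by linear_combination (1 / 2 : ℂ) * (k0 - k2)
  have hw' : w - (a / 2) • w1 = 0 := by
    apply h.std.nc
    · refine ⟨S.B w 2 2, ?_⟩
      rw [map_sub, map_smul, h.B1]
      ext i j
      fin_cases i <;> fin_cases j <;>
        simp [vecMulVec_apply, Matrix.one_apply, b10, b20, b21, b11, b12, c02, c01, c00]
    · intro y'
      rw [h.hb, map_sub, map_smul, hw, h.hw1, smul_zero, sub_zero, zero_smul]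
  have h3 : m (w - (a / 2) • w1) = 0 := by rw [hw', map_zero]
  rw [map_sub, map_smul, hmw, hm1] at h3
  have h4 := congrFun h3 0
  simp at h4
  rw [h4, zero_div, zero_smul, sub_zero] at hw'
  exact hw'

theorem m_I1_coord {S : DatG W} {f : W →ₗ[ℂ] ℂ} {m : W →ₗ[ℂ] V3} {w1 e : W}
    (h : MD S f m w1 e (![1, 0, 0]) (![0, 0, 1])) (hm1 : m w1 = ![1, 0, 0])
    (hm2 : ∀ y, m y 2 = 0) (hA : ∀ y, ∃ a : ℂ, S.A y = !![0, 0, a; 0, 0, -(m y 1); 0, 0, 0])
    (hm' : ∃ y, m y 1 ≠ 0) : False := by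
  have hker : ∀ w, f w = 0 → w = (m w 0) • w1 := by
    intro w hw
    have h1 := i1_zero h hm1 hm2 hA hm' (w - (m w 0) • w1)
      (by rw [map_sub, map_smul, hw, h.hw1, smul_zero, sub_zero]) (by
        obtain ⟨-, -, -, -, hm, -⟩ := i1_B h hm1 hm2 hA w hw
        rw [map_sub, map_smul, hm1]
        funext i
        fin_cases i
        · simp
        · simpa using hm
        · simpa using hm2 w)
    exact sub_eq_zero.1 h1
  have hall : ∀ w, ∃ c : ℂ, w = f w • e + c • w1 := by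
    intro w
    have h1 := hker (w - f w • e) (by rw [map_sub, map_smul, h.he]; simp)
    refine ⟨m (w - f w • e) 0, ?_⟩
    rw [← h1]
    abel
  obtain ⟨a, ha⟩ := hA e
  set μ : ℂ := m e 1 with hμ
  have hk : ∀ x t : V3, kap S.C (![1, 0, 0]) x t =
      -(x 2 * (D t (![1, 0, 0]) (S.B e *ᵥ x) + D x (![1, 0, 0]) (S.B e *ᵥ t))) -
        μ * (x 2 * x 2 * t 2) := by
    intro x t
    have h1 := g4 h.std.cl w1 e x t
    rw [h.hb, h.hb, h.he, h.hw1, zero_smul, one_smul, sub_zero, hm1, h.A1, h.B1, ha] at h1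
    simp only [D, Matrix.mulVec, dotProduct, Fin.sum_univ_three, vecMulVec_apply] at h1 ⊢
    simp at h1 ⊢
    linear_combination h1
  have hdiv : DivC S.C := div_of_kap S.C (fun x t hx => by rw [hk, hx]; ring)
  have hdk : ∀ x t1 t2 : V3, x 2 * dkap S.C (![1, 0, 0]) x t1 t2 = 0 := by
    intro x t1 t2
    have h1 := eq4' h.std.cl w1 x t1 t2
    rw [h.A1, h.B1] at h1
    simp only [D, dkap, Matrix.mulVec, dotProduct, Fin.sum_univ_three, vecMulVec_apply] at h1 ⊢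
    simp [-mul_eq_zero] at h1 ⊢
    linear_combination -h1
  have hdk' : ∀ x t1 t2 : V3, x 2 ≠ 0 →
      t1 2 * (D t2 (![1, 0, 0]) (S.B e *ᵥ x) + D x (![1, 0, 0]) (S.B e *ᵥ t2)) =
      t2 2 * (D t1 (![1, 0, 0]) (S.B e *ᵥ x) + D x (![1, 0, 0]) (S.B e *ᵥ t1)) := by
    intro x t1 t2 hx
    have h1 := (mul_eq_zero.1 (hdk x t1 t2)).resolve_left hx
    rw [dkap, i1_polar, i1_polar, hk, hk, hk, hk, hk, hk] at h1
    simp only [D, Matrix.mulVec, dotProduct, Fin.sum_univ_three, Pi.add_apply] at h1 ⊢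
    simp at h1 ⊢
    linear_combination -h1
  have p1 := hdk' (![0, 0, 1]) (![0, 0, 1]) (![1, 0, 0]) (by simp)
  have p2 := hdk' (![0, 1, 1]) (![0, 0, 1]) (![1, 0, 0]) (by simp)
  have p3 := hdk' (![0, 0, 1]) (![0, 0, 1]) (![0, 1, 0]) (by simp)
  have p4 := hdk' (![0, 1, 1]) (![0, 0, 1]) (![0, 1, 0]) (by simp)
  simp only [i1_D0, Matrix.mulVec, dotProduct, Fin.sum_univ_three] at p1 p2 p3 p4
  simp at p1 p2 p3 p4
  have b20 : S.B e 2 0 = 0 := by linear_combination p1 - p2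
  have b21 : S.B e 2 1 = 0 := by linear_combination (1 / 2 : ℂ) * (p3 - p4)
  refine no_div h.std ⟨?_, ?_, ?_⟩ hdiv
  · intro y j
    obtain ⟨a', ha'⟩ := hA y
    rw [ha']
    fin_cases j <;> simp
  · intro w
    obtain ⟨c, hc⟩ := hall w
    rw [hc, map_add, map_smul, map_smul, h.B1]
    simp [vecMulVec_apply, b20, b21]
  · intro y w
    rw [h.hb]
    simp [hm2 y]

theorem m_I1 {S : DatG W} {f : W →ₗ[ℂ] ℂ} {m : W →ₗ[ℂ] V3} {w1 e : W} {u φ : V3}
    (h : MD S f m w1 e u φ) (hI : ∃ s : ℂ, m w1 = s • u) (hI' : ∃ y, ∀ s : ℂ, m y ≠ s • u) :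
    False := by
  -- normalisation `u = m(w1)`
  obtain ⟨s, hs⟩ := hI
  have hs0 : s ≠ 0 := by
    rintro rfl
    exact h.hm1 (by rw [hs, zero_smul])
  have hh : MD S f m w1 e (s • u) (s⁻¹ • φ) := by
    have h1 : vecMulVec (s • u) (s⁻¹ • φ) = vecMulVec u φ := by
      ext i j
      simp only [vecMulVec_apply, Pi.smul_apply, smul_eq_mul]
      field_simp
    exact { std := h.std, hb := h.hb, hw1 := h.hw1, he := h.he, hm1 := h.hm1
            A1 := by rw [h1]; exact h.A1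
            B1 := by rw [h1]; exact h.B1
            hu := smul_ne_zero hs0 h.hu
            hφ := smul_ne_zero (inv_ne_zero hs0) h.hφ
            Au := fun y => by rw [Matrix.mulVec_smul, h.Au y, smul_comm] }
  rw [← hs] at hh
  have hI2 : ∃ y, ∀ r : ℂ, m y ≠ r • m w1 := by
    obtain ⟨y, hy⟩ := hI'
    refine ⟨y, fun r hr => hy (r * s) ?_⟩
    rw [hr, hs, smul_smul]
  clear hI' hs
  generalize s⁻¹ • φ = φ' at hh
  -- `φ'(u) = 0`
  obtain ⟨y0, hy0⟩ := hI2
  have hpc : ∀ y, ∃ (r : ℂ) (l : V3), S.A y + vecMulVec (m y) φ' =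
      r • (1 : M3) + vecMulVec (m w1) l := by
    intro y
    apply pc _ _ hh.hm1
    intro x
    have h1 := hh.F w1 hh.hw1 y x
    rw [hh.A1, hh.B1] at h1
    simp only [D, Matrix.mulVec, dotProduct, Fin.sum_univ_three, vecMulVec_apply,
      Matrix.add_apply] at h1 ⊢
    linear_combination -h1
  have hφu : φ' ⬝ᵥ m w1 = 0 := by
    by_contra hne
    obtain ⟨r, l, hl⟩ := hpc y0
    have h1 := congrArg (fun M : M3 => M *ᵥ m w1) hl
    beta_reduce at h1
    rw [Matrix.add_mulVec, Matrix.add_mulVec, hh.Au y0, Matrix.smul_mulVec, Matrix.one_mulVec] at h1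
    have h2 : ∀ a b c : V3, vecMulVec a b *ᵥ c = (b ⬝ᵥ c) • a := by
      intro a b c
      funext i
      simp only [Matrix.mulVec, dotProduct, Fin.sum_univ_three, vecMulVec_apply, Pi.smul_apply,
        smul_eq_mul]
      ring
    rw [h2, h2] at h1
    apply hy0 ((φ' ⬝ᵥ m w1)⁻¹ * (r + l ⬝ᵥ m w1 - (S.A y0).trace))
    rw [mul_smul, sub_smul, add_smul, ← h1, add_sub_cancel_left, smul_smul,
      inv_mul_cancel₀ hne, one_smul]
  obtain ⟨P, Q, hPQ, hQP, hP, hQ⟩ := frame_vec_cov (m w1) φ' hh.hm1 hh.hφ hφu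
  have h3 := hh.conj hPQ
  rw [hP, hQ] at h3
  set S' : DatG W := conjG S P Q with hS'
  set m' : W →ₗ[ℂ] V3 := (Matrix.toLin' P).comp m with hm'
  have hm'1 : m' w1 = ![1, 0, 0] := by
    rw [hm']
    simp [hP]
  have hy' : ∀ r : ℂ, m' y0 ≠ r • ![1, 0, 0] := by
    intro r hr
    apply hy0 r
    have h4 : Q *ᵥ (m' y0) = Q *ᵥ (r • ![1, 0, 0]) := by rw [hr]
    rw [hm', LinearMap.comp_apply, Matrix.toLin'_apply, Matrix.mulVec_mulVec, hQP,
      Matrix.one_mulVec, Matrix.mulVec_smul, ← hP, Matrix.mulVec_mulVec, hQP,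
      Matrix.one_mulVec] at h4
    exact h4
  -- the matrices in coordinates
  have hc : ∀ y, m' y 2 = 0 ∧ S'.A y 1 0 = 0 ∧ S'.A y 2 0 = 0 ∧ S'.A y 1 1 = 0 ∧ S'.A y 2 1 = 0 ∧
      S'.A y 2 2 = 0 ∧ S'.A y 1 2 = -(m' y 1) := by
    intro y
    obtain ⟨r, l, hl⟩ := pc (S'.A y + vecMulVec (m' y) (![0, 0, 1])) (![1, 0, 0])
      (by
        intro h0
        have := congrFun h0 0
        simp at this) (by
        intro x
        have h1 := h3.F w1 h3.hw1 y x
        rw [h3.A1, h3.B1, hm'1] at h1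
        simp only [D, Matrix.mulVec, dotProduct, Fin.sum_univ_three, vecMulVec_apply,
          Matrix.add_apply] at h1 ⊢
        linear_combination -h1)
    have e00 := congrFun (congrFun hl 0) 0
    have e10 := congrFun (congrFun hl 1) 0
    have e20 := congrFun (congrFun hl 2) 0
    have e11 := congrFun (congrFun hl 1) 1
    have e21 := congrFun (congrFun hl 2) 1
    have e12 := congrFun (congrFun hl 1) 2
    have e22 := congrFun (congrFun hl 2) 2
    simp only [Matrix.add_apply, Matrix.smul_apply, vecMulVec_apply] at e00 e10 e20 e11 e21 e12 e22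
    simp [Matrix.one_apply] at e00 e10 e20 e11 e21 e12 e22
    have ht := congrFun (h3.Au y) 0
    simp [Matrix.mulVec, dotProduct, Fin.sum_univ_three, Matrix.trace] at ht
    have he := e2A' h3.std.cl y
    rw [e2] at he
    have h22 : S'.A y 2 2 = -(S'.A y 1 1) := by linear_combination -ht
    rw [e10, e20, e21, h22] at he
    have h11 : S'.A y 1 1 * S'.A y 1 1 = 0 := by linear_combination -he
    have h11' : S'.A y 1 1 = 0 := mul_self_eq_zero.1 h11
    rw [h11', neg_zero] at h22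
    refine ⟨?_, e10, e20, h11', e21, h22, ?_⟩
    · rw [h22] at e22
      rw [h11'] at e11
      linear_combination e22 - e11
    · linear_combination e12
  have hy1 : m' y0 1 ≠ 0 := by
    intro h0
    apply hy' (m' y0 0)
    funext i
    fin_cases i
    · simp
    · simpa using h0
    · simpa using (hc y0).1
  -- (g1)
  let L1 : W →ₗ[ℂ] ℂ := (LinearMap.proj 1).comp m'
  let L00 : W →ₗ[ℂ] ℂ :=
    { toFun := fun y => S'.A y 0 0
      map_add' := fun a b => by rw [map_add]; rfl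
      map_smul' := fun a b => by rw [map_smul]; rfl }
  let L01 : W →ₗ[ℂ] ℂ :=
    { toFun := fun y => S'.A y 0 1
      map_add' := fun a b => by rw [map_add]; rfl
      map_smul' := fun a b => by rw [map_smul]; rfl }
  have hL1 : L1 ≠ 0 := by
    intro h0
    exact hy1 (LinearMap.congr_fun h0 y0)
  have hz0 : ∀ y, S'.A y 0 0 = 0 := by
    have h4 : ∀ y, L00 y * L1 y = 0 := by
      intro y
      obtain ⟨c1, c2, c3, c4, c5, c6, c7⟩ := hc y
      have h5 := congrFun (h3.Am y) 1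
      simp [Matrix.mulVec, dotProduct, Fin.sum_univ_three, Matrix.trace, c1, c2, c4, c6] at h5
      show S'.A y 0 0 * m' y 1 = 0
      rcases h5 with h5 | h5
      · rw [h5, zero_mul]
      · rw [h5, mul_zero]
    rcases two_lin L00 L1 h4 with h5 | h5
    · exact fun y => LinearMap.congr_fun h5 y
    · exact absurd h5 hL1
  have hz1 : ∀ y, S'.A y 0 1 = 0 := by
    have h4 : ∀ y, L01 y * L1 y = 0 := by
      intro y
      obtain ⟨c1, c2, c3, c4, c5, c6, c7⟩ := hc y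
      have h5 := congrFun (h3.Am y) 0
      simp [Matrix.mulVec, dotProduct, Fin.sum_univ_three, Matrix.trace, c1, c4, c6, hz0 y] at h5
      show S'.A y 0 1 * m' y 1 = 0
      rcases h5 with h5 | h5
      · rw [h5, zero_mul]
      · rw [h5, mul_zero]
    rcases two_lin L01 L1 h4 with h5 | h5
    · exact fun y => LinearMap.congr_fun h5 y
    · exact absurd h5 hL1
  refine m_I1_coord h3 hm'1 (fun y => (hc y).1) (fun y => ⟨S'.A y 0 2, ?_⟩) ⟨y0, hy1⟩
  obtain ⟨c1, c2, c3, c4, c5, c6, c7⟩ := hc y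
  ext i j
  fin_cases i <;> fin_cases j <;> simp [hz0 y, hz1 y, c2, c3, c4, c5, c6, c7]

end Pool.Agent.Helper93.K3B
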