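import Pool.Agent.Helper93.K3B.II2b

/-!
K3B / II2: CASE M (II.2): coordinates `m(w1) = e_0`, `u = e_1`, `φ = (0,0,1)`, `z = x_2`;
`m_2 = 0`, `A_y = q(y) E02 + m_0(y) E12`.

`m_II2_B`: (F) with `y = w1`: `D x (B_w x) e_0 = -m_0(w) z²`, so `B_w = m_0(w) E12 + e_0 ⊗ χ_w + s` (`pc`).
`m_II2_a`: `w2 ≠ 0`, `f(w2) = 0`, `m_0(w2) = 0` (`B_w2 = e_0 ⊗ χ`): (g2)(w1,w2): `b(w1,w2) = 0`,
`A_1 = E12`: `Z S w1 w2 = 0` gives `χ_0 = χ_1 = 0`; `χ ≠ 0` (NCG).  (g4)(w1,w2): `q(w2) = 2 χ_2`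
(three terms `-3 χ + χ + q`).  (g4)(w2,e): `b(w2,e) - b(e,w2) = m(w2)`; (F) for `w2`, `y = w2`: `m_1(w2) = 0`
(as `2B_w2 - A_w2 = 0`: `D x (A_w2 x) m(w2) = 2χ_2 m_1(w2) z²`), so `m(w2) = 0`; then with
`Π_c(x) = D x e_0 (B_e x)`: `z dΠ_c = (Π_c + m_0(e) z²) dz`, so `Π_c = m_0(e) z²` (Euler), so
`B_e 2 0 = B_e 2 1 = 0`, `Row2 S`; `no_div`.
`m_II2`: `m_II2_B`, gauge `ζ w = -B_w 1 1` (`MD.gauge`); if some `w2 ≠ 0` in `ker f` has
`m_0(w2) = 0`: `m_II2_a`; otherwise every `w` in `ker f` is `m_0(w) w1`: `m_II2_b`.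
-/

set_option autoImplicit false

namespace Pool.Agent.Helper93.K3B

open Matrix Pool.Agent.Helper93.K3A

variable {W : Type} [AddCommGroup W] [Module ℂ W]

theorem m_II2_B {S : DatG W} {f : W →ₗ[ℂ] ℂ} {m : W →ₗ[ℂ] V3} {w1 e : W}
    (h : MD S f m w1 e (![0, 1, 0]) (![0, 0, 1])) (hm1 : m w1 = ![1, 0, 0])
    (hm2 : ∀ y, m y 2 = 0) (hA : ∀ y, S.A y = !![0, 0, S.A y 0 2; 0, 0, m y 0; 0, 0, 0])
    (w : W) (hw : f w = 0) :
    ∃ (s : ℂ) (χ : V3), S.B w = !![χ 0, χ 1, χ 2; 0, 0, m w 0; 0, 0, 0] + s • (1 : M3) := by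
  have key : ∀ x, D x ((S.B w - !![0, 0, 0; 0, 0, m w 0; 0, 0, 0]) *ᵥ x) (![1, 0, 0]) = 0 := by
    intro x
    have h2 := h.F w hw w1 x
    rw [hm1, h.A1, hA w] at h2
    have h3 := hm2 w
    simp [D, Matrix.mulVec, dotProduct, Fin.sum_univ_three, vecMulVec_apply, h3] at h2 ⊢
    linear_combination h2 / 2
  obtain ⟨s, l, hl⟩ := pc _ _ (fun h0 => by simpa using congrFun h0 0) key
  refine ⟨s, l, ?_⟩
  have h4 : S.B w = !![0, 0, 0; 0, 0, m w 0; 0, 0, 0] + (s • (1 : M3) + vecMulVec ![1, 0, 0] l) := by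
    rw [← hl]; abel
  rw [h4]
  ext i j
  fin_cases i <;> fin_cases j <;> simp [vecMulVec_apply, Matrix.one_apply] <;> ring

theorem m_II2_a {S : DatG W} {f : W →ₗ[ℂ] ℂ} {m : W →ₗ[ℂ] V3} {w1 e : W}
    (h : MD S f m w1 e (![0, 1, 0]) (![0, 0, 1])) (hm1 : m w1 = ![1, 0, 0])
    (hm2 : ∀ y, m y 2 = 0) (hA : ∀ y, S.A y = !![0, 0, S.A y 0 2; 0, 0, m y 0; 0, 0, 0])
    (hB : ∀ w, f w = 0 → ∃ χ : V3, S.B w = !![χ 0, χ 1, χ 2; 0, 0, m w 0; 0, 0, 0])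
    (w2 : W) (hw2 : w2 ≠ 0) (hf2 : f w2 = 0) (hm20 : m w2 0 = 0) : False := by
  obtain ⟨χ, hχ⟩ := hB w2 hf2
  rw [hm20] at hχ
  have hA2 := hA w2
  rw [hm20] at hA2
  set q := S.A w2 0 2 with hq
  -- `χ_0 = χ_1 = 0`
  have hZ : Z S w1 w2 = 0 := by
    have hz : ∀ x, Z S w1 w2 *ᵥ x = 0 := by
      intro x
      apply eq_zero_of_D
      intro t1 t2
      rw [← g2 h.std.cl w1 w2 x t1 t2, h.hb, hf2, zero_smul]
      simp [dkap, D]
    ext i j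
    have h1 := congrFun (hz (Pi.single j 1)) i
    rw [Matrix.mulVec_single_one] at h1
    exact h1
  have hA1 : S.A w1 = !![0, 0, 0; 0, 0, 1; 0, 0, 0] := by
    rw [h.A1]
    ext i j
    fin_cases i <;> fin_cases j <;> simp [vecMulVec_apply]
  have hB1 : S.B w1 = !![0, 0, 0; 0, 0, 1; 0, 0, 0] := by
    rw [h.B1]
    ext i j
    fin_cases i <;> fin_cases j <;> simp [vecMulVec_apply]
  have hχ0 : χ 0 = 0 := by
    have h1 := congrFun (congrFun hZ 1) 2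
    rw [Z, hA1, hχ, hA2] at h1
    simp [K3A.adjp, e2p, Matrix.mul_apply, Fin.sum_univ_three, Matrix.trace] at h1
    exact h1
  have hχ1 : χ 1 = 0 := by
    have h1 := congrFun (congrFun hZ 0) 2
    rw [Z, hA1, hχ, hA2] at h1
    simp [K3A.adjp, e2p, Matrix.mul_apply, Fin.sum_univ_three, Matrix.trace] at h1
    exact h1
  rw [hχ0, hχ1] at hχ
  have hc : χ 2 ≠ 0 := by
    intro h0
    apply hw2
    apply h.std.nc w2
    · refine ⟨0, ?_⟩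
      rw [hχ, h0, zero_smul]
      ext i j
      fin_cases i <;> fin_cases j <;> rfl
    · intro y
      rw [h.hb, hf2, zero_smul]
  -- `q = 2 χ_2`
  have hq2 : q = 2 * χ 2 := by
    have h1 := g4 h.std.cl w1 w2 (![0, 0, 1]) (![0, 0, 1])
    rw [h.hb, h.hb, hf2, h.hw1, zero_smul, zero_smul, sub_zero, hA1, hB1, hχ, hA2] at h1
    simp [D, kap, Matrix.mulVec, dotProduct, Fin.sum_univ_three] at h1
    linear_combination h1
  -- `m(w2) = 0`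
  have hm21 : m w2 1 = 0 := by
    have h1 := h.F w2 hf2 w2 (![0, 0, 1])
    rw [hχ, hA2, hq2] at h1
    simp [D, Matrix.mulVec, dotProduct, Fin.sum_univ_three, hm20, hm2 w2] at h1
    have h2 : χ 2 * m w2 1 = 0 := by linear_combination (-1 / 2 : ℂ) * h1
    exact (mul_eq_zero.mp h2).resolve_left hc
  have hmw2 : m w2 = 0 := by
    funext i
    fin_cases i
    · exact hm20
    · exact hm21
    · exact hm2 w2
  -- `z (Π - m_0(e) z²) = 0`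
  have key : ∀ x : V3, x 2 * (x 2 * (S.B e *ᵥ x) 1 - x 1 * (S.B e *ᵥ x) 2 - m e 0 * x 2 ^ 2) = 0 := by
    intro x
    have h1 := g4 h.std.cl w2 e x x
    rw [h.hb, h.hb, hf2, h.he, zero_smul, one_smul, sub_zero, hmw2, hχ, hA2, hA e, hq2] at h1
    have e1 : !![0, 0, χ 2; 0, 0, 0; 0, 0, 0] *ᵥ x = ![χ 2 * x 2, 0, 0] := by
      funext i
      fin_cases i <;> simp [Matrix.mulVec, dotProduct, Fin.sum_univ_three]
    have e2 : !![0, 0, 2 * χ 2; 0, 0, 0; 0, 0, 0] *ᵥ x = ![2 * χ 2 * x 2, 0, 0] := by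
      funext i
      fin_cases i <;> simp [Matrix.mulVec, dotProduct, Fin.sum_univ_three]
    have e3 : !![0, 0, S.A e 0 2; 0, 0, m e 0; 0, 0, 0] *ᵥ x = ![S.A e 0 2 * x 2, m e 0 * x 2, 0] := by
      funext i
      fin_cases i <;> simp [Matrix.mulVec, dotProduct, Fin.sum_univ_three]
    rw [e1, e2, e3] at h1
    set v := S.B e *ᵥ x with hv
    simp [D, kap] at h1
    apply mul_left_cancel₀ hc
    linear_combination h1
  have hB20 : S.B e 2 0 = 0 ∧ S.B e 2 1 = 0 := by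
    have k0 := key ![0, 0, 1]
    have k1 := key ![1, 0, 1]
    have k2 := key ![0, 1, 1]
    have k3 := key ![0, -1, 1]
    have k4 := key ![1, 1, 1]
    simp [Matrix.mulVec, dotProduct, Fin.sum_univ_three] at k0 k1 k2 k3 k4
    constructor
    · linear_combination -k4 + k1 + k2 - k0
    · linear_combination (-1 / 2 : ℂ) * (k2 + k3 - 2 * k0)
  refine no_div h.std ⟨?_, ?_, ?_⟩ (m_II2_div h hm1 hA)
  · intro y j
    rw [hA y]
    fin_cases j <;> rfl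
  · intro w
    obtain ⟨χ', hχ'⟩ := hB (w - f w • e) (by rw [map_sub, map_smul, h.he]; simp)
    have h1 : S.B w = f w • S.B e + S.B (w - f w • e) := by
      rw [map_sub, map_smul]; abel
    rw [h1, hχ']
    constructor
    · simp [hB20.1]
    · simp [hB20.2]
  · intro y w
    rw [h.hb, Pi.smul_apply, hm2 y, smul_zero]

theorem m_II2 {S : DatG W} {f : W →ₗ[ℂ] ℂ} {m : W →ₗ[ℂ] V3} {w1 e : W}
    (h : MD S f m w1 e (![0, 1, 0]) (![0, 0, 1])) (hm1 : m w1 = ![1, 0, 0])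
    (hm2 : ∀ y, m y 2 = 0) (hA : ∀ y, S.A y = !![0, 0, S.A y 0 2; 0, 0, m y 0; 0, 0, 0]) :
    False := by
  let ζ : W →ₗ[ℂ] ℂ :=
    { toFun := fun w => -(S.B w 1 1)
      map_add' := fun x y => by
        rw [map_add, Matrix.add_apply]
        ring
      map_smul' := fun c x => by
        rw [map_smul, Matrix.smul_apply, smul_eq_mul, RingHom.id_apply, smul_eq_mul]
        ring }
  have hζ : ∀ w, ζ w = -(S.B w 1 1) := fun w => rfl
  have hζ1 : ζ w1 = 0 := by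
    rw [hζ, h.B1]
    simp [vecMulVec_apply]
  have h' := h.gauge ζ hζ1 0
  have hA' : ∀ y, (gaugeG S ζ 0).A y = !![0, 0, (gaugeG S ζ 0).A y 0 2; 0, 0, m y 0; 0, 0, 0] := hA
  have hB' : ∀ w, f w = 0 →
      ∃ χ : V3, (gaugeG S ζ 0).B w = !![χ 0, χ 1, χ 2; 0, 0, m w 0; 0, 0, 0] := by
    intro w hw
    obtain ⟨s, χ, hs⟩ := m_II2_B h hm1 hm2 hA w hw
    refine ⟨χ, ?_⟩
    have h1 : (gaugeG S ζ 0).B w = S.B w + ζ w • (1 : M3) := rfl
    have h2 : S.B w 1 1 = s := by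
      rw [hs]
      simp
    rw [h1, hζ, h2, hs, neg_smul]
    abel
  by_cases hex : ∃ w2, w2 ≠ 0 ∧ f w2 = 0 ∧ m w2 0 = 0
  · obtain ⟨w2, h1, h2, h3⟩ := hex
    exact m_II2_a h' hm1 hm2 hA' hB' w2 h1 h2 h3
  · refine m_II2_b h' hm1 hm2 hA' fun w hw => ⟨m w 0, ?_⟩
    by_contra hne
    apply hex
    refine ⟨w - m w 0 • w1, sub_ne_zero.mpr hne, ?_, ?_⟩
    · rw [map_sub, map_smul, hw, h.hw1]; simp
    · rw [map_sub, map_smul, hm1]; simp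

end Pool.Agent.Helper93.K3B
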