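import Pool.Agent.Helper93.K3A.Main
import Pool.Agent.Helper93.K3B.C1
import Pool.Agent.Helper93.K3B.C2
import Pool.Agent.Helper93.K3B.I0
import Pool.Agent.Helper93.K3B.I1
import Pool.Agent.Helper93.K3B.II2

/-!
K3B / Main: assembly: `b = 0`, and THEOREM K4 for the general data.
-/

set_option autoImplicit false

namespace Pool.Agent.Helper93.K3B

open Matrix Pool.Agent.Helper93.K3A

variable {W : Type} [AddCommGroup W] [Module ℂ W]

/-- CASE M -/
theorem caseM {S : DatG W} (h : StdG S) (f : W →ₗ[ℂ] ℂ) (hf : f ≠ 0) (m : W →ₗ[ℂ] V3)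
    (hb : ∀ y w, S.b y w = f w • m y) (w1 : W) (hw1 : f w1 = 0) (hm1 : m w1 ≠ 0) : False := by
  obtain ⟨S', e, u, φ, h'⟩ := m_setup h f hf m hb w1 hw1 hm1
  by_cases hI : ∃ s : ℂ, m w1 = s • u
  · by_cases hI0 : ∀ y, ∃ s : ℂ, m y = s • u
    · exact m_I0 h' hI0
    · push Not at hI0
      exact m_I1 h' hI hI0
  · push Not at hI
    obtain ⟨P, Q, hPQ, -, hu, hc, hφ⟩ := m_II_frame h' hI
    have h2 := h'.conj hPQ
    rw [hu, hφ] at h2
    have hm : ((Matrix.toLin' P).comp m) w1 = ![1, 0, 0] := by simpa using hc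
    have hA := m_II_A h2 hm
    let S2 := conjG S' P Q
    let m2 := (Matrix.toLin' P).comp m
    let q : W →ₗ[ℂ] ℂ :=
      { toFun := fun y => S2.A y 0 2
        map_add' := fun x y => by simp
        map_smul' := fun c x => by simp }
    let mv : W →ₗ[ℂ] ℂ :=
      { toFun := fun y => m2 y 2
        map_add' := fun x y => by rw [map_add]; rfl
        map_smul' := fun c x => by rw [map_smul]; rfl }
    rcases two_lin q mv (fun y => (hA y).2) with h0 | h0
    · by_cases hmv : ∃ y, m2 y 2 ≠ 0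
      · refine m_II1 h2 hm (fun y => ?_) hmv
        have h3 : S2.A y 0 2 = 0 := congrArg (fun l : W →ₗ[ℂ] ℂ => l y) h0
        have h4 := (hA y).1
        rw [h3] at h4
        exact h4
      · push Not at hmv
        refine m_II2 h2 hm hmv (fun y => ?_)
        have h4 := (hA y).1
        have h5 := hmv y
        rw [h5, neg_zero] at h4
        exact h4
    · have hmv : ∀ y, m2 y 2 = 0 := fun y => congrArg (fun l : W →ₗ[ℂ] ℂ => l y) h0
      refine m_II2 h2 hm hmv (fun y => ?_)
      have h4 := (hA y).1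
      have h5 := hmv y
      rw [h5, neg_zero] at h4
      exact h4

/-- `b = f(w) m(y)` is impossible for `b ≠ 0` -/
theorem case_fm {S : DatG W} (h : StdG S) (f : W →ₗ[ℂ] ℂ) (m : W →ₗ[ℂ] V3)
    (hb : ∀ y w, S.b y w = f w • m y) (y0 w0 : W) (h0 : S.b y0 w0 ≠ 0) : False := by
  have hf : f ≠ 0 := by
    rintro rfl
    exact h0 (by rw [hb]; simp)
  by_cases h1 : ∃ w1, f w1 = 0 ∧ m w1 ≠ 0
  · obtain ⟨w1, hw1, hm1⟩ := h1
    exact caseM h f hf m hb w1 hw1 hm1
  · push Not at h1
    obtain ⟨e, he⟩ : ∃ e, f e = 1 := by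
      obtain ⟨v, hv⟩ : ∃ v, f v ≠ 0 := by
        by_contra hc
        push Not at hc
        exact hf (LinearMap.ext hc)
      exact ⟨(f v)⁻¹ • v, by rw [map_smul, smul_eq_mul, inv_mul_cancel₀ hv]⟩
    have hm : ∀ y, m y = f y • m e := by
      intro y
      have h2 := h1 (y - f y • e) (by rw [map_sub, map_smul, he]; simp)
      rw [map_sub, map_smul, sub_eq_zero] at h2
      exact h2
    have hc : m e ≠ 0 := by
      intro hc
      exact h0 (by rw [hb, hm, hc]; simp)
    exact c2 h (m e) hc f hf (fun y w => by rw [hb, hm, smul_smul, mul_comm])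

theorem bzero {S : DatG W} (h : StdG S) : S.b = 0 := by
  by_contra hne
  obtain ⟨y0, w0, h0⟩ : ∃ y w, S.b y w ≠ 0 := by
    by_contra hc
    push Not at hc
    exact hne (LinearMap.ext fun y => LinearMap.ext fun w => hc y w)
  rcases rank1_bilin S.b (fun y w w' i j => g0 h.cl y w w' i j) with ⟨c, hc, g, hg⟩ | ⟨f, m, hb⟩
  · rcases rank1_form g with ⟨k, f, hkf⟩ | hr
    · refine case_fm h f (k.smulRight c) (fun y w => ?_) y0 w0 h0
      rw [hg, hkf, LinearMap.smulRight_apply, smul_smul]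
    · exact c1 h c hc g hg hr
  · exact case_fm h f m hb y0 w0 h0

/-- THEOREM K4, general case -/
theorem K4G {S : DatG W} (h : StdG S) : C3G S :=
  C3G.of_toDat (bzero h) (K4 (h.toStd (bzero h)))

end Pool.Agent.Helper93.K3B
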