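import Pool.Agent.Helper93.K3B.Bridge4
import Pool.Agent.Helper93.K3B.Main
import Pool.Agent.Helper60.FC.Out
import Pool.Agent.Helper71.FC.CaseC2

/-!
K3B / Bridge: type (3a) of the classification: `i3a : I3a` and `ic2nf1 : IC2nf1`.
-/

set_option autoImplicit false

namespace Pool.Agent.Helper93.K3B

open Matrix Pool.Agent.Helper93.K3A MvPolynomial
open scoped BigOperators
open Pool.Agent.Helper71.FC
open Pool.Agent.Helper71.FL (w12 pf ct Dec Closed dd)
open Pool.Agent.Helper28.FolReg (Reg2 Reg3)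
open Pool.Agent.Helper18.LB (NF)

variable {n : ℕ}

theorem li_of_reg {a b m : Pn n} {va vb vm : Fin n → ℂ} (ha : a = lf va) (hb : b = lf vb)
    (hm : m = lf vm) (hm0 : m ≠ 0) (h : Reg3 m b a) :
    LinearIndependent ℂ ![-vb, -va, vm] := by
  have ev0 : ∀ v : Fin n → ℂ, eval (0 : Fin n → ℂ) (lf v) = 0 := by
    intro v
    rw [eval_lf]
    simp
  rw [Fintype.linearIndependent_iff]
  intro g hg
  rw [Fin.sum_univ_three] at hg
  have h1 : g 2 • vm = g 0 • vb + g 1 • va := by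
    have := hg
    simp only [Matrix.cons_val_zero, Matrix.cons_val_one, Matrix.cons_val] at this
    have h2 : g 2 • vm - (g 0 • vb + g 1 • va) = 0 := by
      rw [← this]
      simp only [smul_neg]
      abel
    exact sub_eq_zero.mp h2
  have h2 : C (g 2) * m = C (g 0) * b + C (g 1) * a := by
    rw [ha, hb, hm]
    apply MvPolynomial.funext
    intro z
    simp only [map_add, map_mul, eval_C, eval_lf, Finset.mul_sum, ← Finset.sum_add_distrib]
    refine Finset.sum_congr rfl fun i _ => ?_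
    have := congrFun h1 i
    simp only [Pi.smul_apply, Pi.add_apply, smul_eq_mul] at this
    linear_combination z i * this
  have g1 : g 1 = 0 := by
    by_contra h0
    have h3 : ∃ u v, a * 1 = m * u + b * v := by
      refine ⟨C (g 2 / g 1), -C (g 0 / g 1), ?_⟩
      have e1 : C (g 1) * C (g 1)⁻¹ = (1 : Pn n) := by
        rw [← C_mul, mul_inv_cancel₀ h0, C_1]
      rw [div_eq_mul_inv, div_eq_mul_inv, C_mul, C_mul]
      linear_combination (-C (g 1)⁻¹) * h2 - a * e1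
    obtain ⟨u, v, h4⟩ := h.2.2 1 h3
    have h5 := congrArg (eval (0 : Fin n → ℂ)) h4
    rw [map_one, map_add, map_mul, map_mul, hm, hb, ev0, ev0] at h5
    simp at h5
  have g0 : g 0 = 0 := by
    by_contra h0
    have h3 : ∃ u, b * 1 = m * u := by
      refine ⟨C (g 2 / g 0), ?_⟩
      have e1 : C (g 0) * C (g 0)⁻¹ = (1 : Pn n) := by
        rw [← C_mul, mul_inv_cancel₀ h0, C_1]
      rw [g1, C_0, zero_mul, add_zero] at h2
      rw [div_eq_mul_inv, C_mul]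
      linear_combination (-C (g 0)⁻¹) * h2 - b * e1
    obtain ⟨u, h4⟩ := h.2.1 1 h3
    have h5 := congrArg (eval (0 : Fin n → ℂ)) h4
    rw [map_one, map_mul, hm, ev0] at h5
    simp at h5
  have g2 : g 2 = 0 := by
    rw [g0, g1, C_0, zero_mul, zero_mul, add_zero] at h2
    rcases mul_eq_zero.mp h2 with h3 | h3
    · exact (C_eq_zero.mp h3)
    · exact absurd h3 hm0
  intro i
  fin_cases i
  · exact g0
  · exact g1
  · exact g2

/-- the normal form of type (3a) as `Rep` -/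
theorem rep_of_NF {θ : F2 n} {σ1 σ2 : F1 n} {a b m : Pn n} {ρ φ1 φ2 : F1 n}
    (h : NF θ 1 σ1 σ2 a b m ρ φ1 φ2) :
    ∃ (P : Fin 3 → Fin n → ℂ) (H : Fin 3 → Fin n → Fin n → ℂ), Rep θ P H ∧
      LinearIndependent ℂ P := by
  obtain ⟨va, hva⟩ := lf_of_hom h.ha
  obtain ⟨vb, hvb⟩ := lf_of_hom h.hb
  obtain ⟨vm, hvm⟩ := lf_of_hom h.hm
  choose v1 hv1 using fun i => lf_of_hom (h.hφ1 i)
  choose v2 hv2 using fun i => lf_of_hom (h.hφ2 i)
  choose v3 hv3 using fun i => lf_of_hom (h.hρ i)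
  refine ⟨![-vb, -va, vm], ![v1, v2, v3], ⟨fun i j => ?_⟩, li_of_reg hva hvb hvm h.hm0 h.reg⟩
  have hneg : ∀ v : Fin n → ℂ, lf (-v) = - lf v := by
    intro v
    unfold lf
    rw [← Finset.sum_neg_distrib]
    refine Finset.sum_congr rfl fun k _ => ?_
    rw [Pi.neg_apply, C_neg, neg_mul]
  rw [h.hθ]
  simp only [Matrix.cons_val_zero, Matrix.cons_val_one, Matrix.cons_val]
  rw [hneg, hneg, ← hva, ← hvb, ← hvm]
  unfold w11
  simp only [← hv1, ← hv2, ← hv3]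
  ring

/-- TYPE (3a): the normal form of PROP 4 (A) -/
theorem nf3_of_NF (hn : 5 ≤ n) {θ : F2 n} (hF : Fol θ) (hc : ¬ Cone θ) (h1 : EE θ 1 = ⊥)
    {σ1 σ2 : F1 n} {a b m : Pn n} {ρ φ1 φ2 : F1 n} (h : NF θ 1 σ1 σ2 a b m ρ φ1 φ2) :
    ∃ z om x1 x2 f1 f2, NF3 θ z om x1 x2 f1 f2 := by
  obtain ⟨P, H, hR, hP⟩ := rep_of_NF h
  obtain ⟨σ, hσ⟩ := LinearMap.exists_rightInverse_of_surjective (pL P)
    (LinearMap.range_eq_top.mpr (pL_surj hP))
  have hσ' : ∀ x, pL P (σ x) = x := fun x => LinearMap.congr_fun hσ x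
  exact hR.nf3 hP σ hσ' (K4G (hR.std hn hP hF hc h1 σ hσ'))

theorem i3a : Pool.Agent.Helper18.LB.I3a := by
  intro n hn θ hF hc h0 h1 σ1 σ2 a b m ρ φ1 φ2 hNF
  obtain ⟨z, om, x1, x2, f1, f2, h⟩ := nf3_of_NF hn hF hc h1 hNF
  exact Pool.Agent.Helper60.FC.prop4_c3 hn hF hc h1 h.hz h.z0 h.ho h.hx1 h.hx2 h.hf1 h.hf2 h.eq

theorem ic2nf1 : IC2nf1 := by
  intro n hn θ hF hc h0 h1 σ1 σ2 a b m ρ φ1 φ2 hNF
  exact i3a n hn θ hF hc h0 h1 σ1 σ2 a b m ρ φ1 φ2 hNF

end Pool.Agent.Helper93.K3B
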