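import Pool.Agent.Helper93.K3B.Defs

/-!
K3B / Bridge1: from a bilinear `U`-valued form on a vector space `E` with `p : E → U` onto to the
data `DatG`.
-/

set_option autoImplicit false

namespace Pool.Agent.Helper93.K3B

open Matrix Pool.Agent.Helper93.K3A

section
variable {E : Type} [AddCommGroup E] [Module ℂ E]

/-- the data of `η = β(z,dz)` in the coordinates `z = σ x + y`, `y` in `ker p` -/
noncomputable def datOf (p : E →ₗ[ℂ] V3) (β : E →ₗ[ℂ] E →ₗ[ℂ] V3) (σ : V3 →ₗ[ℂ] E) :
    DatG (LinearMap.ker p) where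
  A := { toFun := fun y => LinearMap.toMatrix' ((β (y : E)).comp σ)
         map_add' := fun x y => by
          rw [← map_add]; congr 1; ext t; simp
         map_smul' := fun c x => by
          rw [RingHom.id_apply, ← map_smul]; congr 1; ext t; simp }
  B := { toFun := fun w => LinearMap.toMatrix' ((β.flip (w : E)).comp σ)
         map_add' := fun x y => by
          rw [← map_add]; congr 1; ext t; simp
         map_smul' := fun c x => by
          rw [RingHom.id_apply, ← map_smul]; congr 1; ext t; simp }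
  C := { toFun := fun x => LinearMap.toMatrix' ((β (σ x)).comp σ)
         map_add' := fun x y => by
          rw [← map_add]; congr 1; ext t; simp
         map_smul' := fun c x => by
          rw [RingHom.id_apply, ← map_smul]; congr 1; ext t; simp }
  b := { toFun := fun y => (β (y : E)).comp (LinearMap.ker p).subtype
         map_add' := fun x y => by ext t; simp
         map_smul' := fun c x => by ext t; simp }

variable (p : E →ₗ[ℂ] V3) (β : E →ₗ[ℂ] E →ₗ[ℂ] V3) (σ : V3 →ₗ[ℂ] E)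

theorem datOf_A (y : LinearMap.ker p) (t : V3) : (datOf p β σ).A y *ᵥ t = β y (σ t) := by
  show LinearMap.toMatrix' ((β (y : E)).comp σ) *ᵥ t = _
  rw [LinearMap.toMatrix'_mulVec]
  rfl

theorem datOf_B (w : LinearMap.ker p) (x : V3) : (datOf p β σ).B w *ᵥ x = β (σ x) w := by
  show LinearMap.toMatrix' ((β.flip (w : E)).comp σ) *ᵥ x = _
  rw [LinearMap.toMatrix'_mulVec]
  rfl

theorem datOf_C (x t : V3) : (datOf p β σ).C x *ᵥ t = β (σ x) (σ t) := by
  show LinearMap.toMatrix' ((β (σ x)).comp σ) *ᵥ t = _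
  rw [LinearMap.toMatrix'_mulVec]
  rfl

theorem datOf_b (y w : LinearMap.ker p) : (datOf p β σ).b y w = β y w := rfl

theorem etaG_datOf (x : V3) (y : LinearMap.ker p) (t : V3) (w : LinearMap.ker p) :
    etaG (datOf p β σ) x y t w = β (σ x + y) (σ t + w) := by
  rw [etaG, datOf_A, datOf_B, datOf_C, datOf_b]
  simp only [map_add, LinearMap.add_apply]
  abel

/-- derivative of `D (p z) (β z v2) (β z v3)` -/
def dT (z v1 v2 v3 : E) : ℂ :=
  D (p v1) (β z v2) (β z v3) + D (p z) (β v1 v2) (β z v3) + D (p z) (β z v2) (β v1 v3)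

variable {p σ}

theorem p_sum (hσ : ∀ x, p (σ x) = x) (x : V3) (y : LinearMap.ker p) : p (σ x + y) = x := by
  have h : p (y : E) = 0 := y.2
  rw [map_add, hσ, h, add_zero]

theorem ClG_datOf (hσ : ∀ x, p (σ x) = x)
    (h : ∀ z v1 v2 v3, dT p β z v1 v2 v3 + dT p β z v2 v3 v1 + dT p β z v3 v1 v2 = 0) :
    ClG (datOf p β σ) := by
  intro x y t1 w1 t2 w2 t3 w3
  have h1 := h (σ x + y) (σ t1 + w1) (σ t2 + w2) (σ t3 + w3)
  unfold dT at h1
  simp only [p_sum hσ] at h1
  simp only [dthG, etaG_datOf]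
  exact h1

theorem NCG_datOf (hσ : ∀ x, p (σ x) = x)
    (h : ∀ w, p w = 0 → (∃ c : ℂ, ∀ z, β z w = c • p z) → w = 0) : NCG (datOf p β σ) := by
  intro w hB hb
  obtain ⟨c, hc⟩ := hB
  apply Subtype.ext
  refine h w w.2 ⟨c, fun z => ?_⟩
  let y : LinearMap.ker p := ⟨z - σ (p z), by rw [LinearMap.mem_ker, map_sub, hσ, sub_self]⟩
  have h1 := hb y
  rw [datOf_b] at h1
  have h2 := datOf_B p β σ w (p z)
  rw [hc, Matrix.smul_mulVec, Matrix.one_mulVec] at h2
  have h3 : β z w = β (σ (p z)) w + β (y : E) w := by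
    rw [← LinearMap.add_apply, ← map_add]
    congr 2
    show z = σ (p z) + (z - σ (p z))
    abel
  rw [h3, h1, add_zero, ← h2]

/-- the splitting of `E` -/
noncomputable def spl (p : E →ₗ[ℂ] V3) (σ : V3 →ₗ[ℂ] E) (hσ : ∀ x, p (σ x) = x) :
    E →ₗ[ℂ] (V3 × LinearMap.ker p) where
  toFun z := (p z, ⟨z - σ (p z), by rw [LinearMap.mem_ker, map_sub, hσ, sub_self]⟩)
  map_add' x y := by
    ext1
    · simp
    · apply Subtype.ext
      simp only [map_add, Prod.snd_add, Submodule.coe_add]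
      abel
  map_smul' c x := by
    ext1
    · simp
    · apply Subtype.ext
      simp [smul_sub]

theorem spl_fst (hσ : ∀ x, p (σ x) = x) (z : E) : (spl p σ hσ z).1 = p z := rfl

theorem spl_sum (hσ : ∀ x, p (σ x) = x) (z : E) :
    σ (spl p σ hσ z).1 + ((spl p σ hσ z).2 : E) = z := by
  show σ (p z) + (z - σ (p z)) = z
  abel

theorem spl_inv (hσ : ∀ x, p (σ x) = x) (x : V3) (y : LinearMap.ker p) :
    spl p σ hσ (σ x + y) = (x, y) := by
  have h := p_sum hσ x y
  ext1
  · exact h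
  · apply Subtype.ext
    show (σ x + y : E) - σ (p (σ x + y)) = y
    rw [h]
    abel

theorem PRG_datOf (hσ : ∀ x, p (σ x) = x)
    (h : ∀ u : V3, u ≠ 0 → ∀ ν : E →ₗ[ℂ] E →ₗ[ℂ] ℂ,
      (∀ z v v', ν z v * D (p z) u (β z v') = ν z v' * D (p z) u (β z v)) → ν = 0) :
    PRG (datOf p β σ) := by
  intro u hu ν hν
  have h1 := h u hu (ν.compl₁₂ (spl p σ hσ) (spl p σ hσ)) (fun z v v' => by
    have h2 := hν (spl p σ hσ z) (spl p σ hσ v) (spl p σ hσ v')
    simp only [xiG, etaG_datOf, spl_sum] at h2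
    exact h2)
  apply LinearMap.ext
  rintro ⟨x, y⟩
  apply LinearMap.ext
  rintro ⟨t, w⟩
  have h2 := LinearMap.congr_fun (LinearMap.congr_fun h1 (σ x + y)) (σ t + w)
  rw [LinearMap.compl₁₂_apply, spl_inv, spl_inv] at h2
  rw [h2]
  rfl

end

end Pool.Agent.Helper93.K3B
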