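import Pool.Agent.Helper93.K3B.Bridge1
import Pool.Agent.Helper71.FC.GL2

/-!
K3B / Bridge2: from polynomial forms `θ = Σ p_a η_{a+1} ∧ η_{a+2}` to the data of Bridge1.
-/

set_option autoImplicit false

namespace Pool.Agent.Helper93.K3B

open Matrix Pool.Agent.Helper93.K3A MvPolynomial
open scoped BigOperators
open Pool.Agent.Helper71.FC
open Pool.Agent.Helper71.FL (w12 pf ct Dec Closed dd)

variable {n : ℕ}

/-- basis vectors -/
def ev (i : Fin n) : Fin n → ℂ := Pi.single i 1

theorem lin_ext {f : (Fin n → ℂ) → ℂ} (h : IsLinearMap ℂ f) (h0 : ∀ i, f (ev i) = 0)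
    (v : Fin n → ℂ) : f v = 0 := by
  have h1 : h.mk' f = 0 := by
    apply LinearMap.pi_ext'
    intro i
    ext
    simpa [ev] using h0 i
  exact LinearMap.congr_fun h1 v

/-- the linear map of three linear forms -/
noncomputable def pL (P : Fin 3 → Fin n → ℂ) : (Fin n → ℂ) →ₗ[ℂ] V3 where
  toFun z := fun a => ∑ i, P a i * z i
  map_add' x y := by
    funext a
    simp [mul_add, Finset.sum_add_distrib]
  map_smul' c x := by
    funext a
    simp only [Pi.smul_apply, smul_eq_mul, RingHom.id_apply, Finset.mul_sum]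
    exact Finset.sum_congr rfl fun i _ => by ring

/-- the bilinear map of three 1-forms with linear coefficients -/
noncomputable def bL (H : Fin 3 → Fin n → Fin n → ℂ) :
    (Fin n → ℂ) →ₗ[ℂ] (Fin n → ℂ) →ₗ[ℂ] V3 :=
  LinearMap.mk₂ ℂ (fun z v => fun a => ∑ i, v i * ∑ l, H a i l * z l)
    (fun z z' v => by
      funext a
      simp only [Pi.add_apply, ← Finset.sum_add_distrib, ← mul_add])
    (fun c z v => by
      funext a
      simp only [Pi.smul_apply, smul_eq_mul, Finset.mul_sum]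
      exact Finset.sum_congr rfl fun i _ => Finset.sum_congr rfl fun j _ => by ring)
    (fun z v v' => by
      funext a
      simp only [Pi.add_apply, ← Finset.sum_add_distrib, ← add_mul])
    (fun c z v => by
      funext a
      simp only [Pi.smul_apply, smul_eq_mul, Finset.mul_sum]
      exact Finset.sum_congr rfl fun i _ => Finset.sum_congr rfl fun j _ => by ring)

theorem eval_lf (a z : Fin n → ℂ) : eval z (lf a) = ∑ i, a i * z i := by
  unfold lf
  rw [map_sum]
  exact Finset.sum_congr rfl fun i _ => by rw [map_mul, eval_C, eval_X]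

theorem pderiv_lf (a : Fin n → ℂ) (i : Fin n) : pderiv i (lf a) = C (a i) := by
  unfold lf
  rw [map_sum]
  rw [Finset.sum_eq_single i]
  · rw [(pderiv i).leibniz, pderiv_C, pderiv_X_self]
    simp
  · intro j _ hj
    rw [(pderiv i).leibniz, pderiv_C, pderiv_X_of_ne hj]
    simp
  · intro h
    exact absurd (Finset.mem_univ i) h

theorem lf_hom (a : Fin n → ℂ) : (lf a).IsHomogeneous 1 := by
  unfold lf
  refine IsHomogeneous.sum _ _ _ fun i _ => ?_
  have := (isHomogeneous_C (Fin n) (a i)).mul (isHomogeneous_X ℂ i)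
  rwa [zero_add] at this

theorem pL_apply (P : Fin 3 → Fin n → ℂ) (z : Fin n → ℂ) (a : Fin 3) :
    pL P z a = eval z (lf (P a)) := by
  rw [eval_lf]
  rfl

theorem pL_ev (P : Fin 3 → Fin n → ℂ) (i : Fin n) (a : Fin 3) : pL P (ev i) a = P a i := by
  show ∑ j, P a j * ev i j = P a i
  simp [ev, Pi.single_apply]

theorem bL_ev (H : Fin 3 → Fin n → Fin n → ℂ) (z : Fin n → ℂ) (i : Fin n) (a : Fin 3) :
    bL H z (ev i) a = eval z (lf (H a i)) := by
  rw [eval_lf]
  show ∑ j, ev i j * ∑ l, H a j l * z l = _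
  simp [ev, Pi.single_apply]

theorem bL_ev_ev (H : Fin 3 → Fin n → Fin n → ℂ) (l i : Fin n) (a : Fin 3) :
    bL H (ev l) (ev i) a = H a i l := by
  rw [bL_ev, eval_lf]
  simp [ev, Pi.single_apply]

theorem eval_ev (a : Fin n → ℂ) (i : Fin n) : eval (ev i) (lf a) = a i := by
  rw [eval_lf]
  simp [ev, Pi.single_apply]

/-- the 2-form with coordinates -/
structure Rep (θ : F2 n) (P : Fin 3 → Fin n → ℂ) (H : Fin 3 → Fin n → Fin n → ℂ) : Prop where
  eq : ∀ i j, θ i j = lf (P 0) * w11 (fun k => lf (H 1 k)) (fun k => lf (H 2 k)) i j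
    + lf (P 1) * w11 (fun k => lf (H 2 k)) (fun k => lf (H 0 k)) i j
    + lf (P 2) * w11 (fun k => lf (H 0 k)) (fun k => lf (H 1 k)) i j

variable {θ : F2 n} {P : Fin 3 → Fin n → ℂ} {H : Fin 3 → Fin n → Fin n → ℂ}

theorem Rep.eval_eq (h : Rep θ P H) (z : Fin n → ℂ) (i j : Fin n) :
    eval z (θ i j) = D (pL P z) (bL H z (ev i)) (bL H z (ev j)) := by
  rw [h.eq]
  unfold w11 D
  simp only [bL_ev, pL_apply, map_add, map_mul, map_sub]
  ring

theorem Rep.dT_ev (h : Rep θ P H) (z : Fin n → ℂ) (i j k : Fin n) :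
    dT (pL P) (bL H) z (ev i) (ev j) (ev k) = eval z (pderiv i (θ j k)) := by
  rw [h.eq]
  unfold w11 dT D
  simp only [bL_ev, pL_apply, eval_ev]
  simp only [map_add, map_sub, Derivation.leibniz, pderiv_lf, smul_eq_mul, map_mul, eval_C]
  ring

theorem isLin_dT1 (p : (Fin n → ℂ) →ₗ[ℂ] V3) (β : (Fin n → ℂ) →ₗ[ℂ] (Fin n → ℂ) →ₗ[ℂ] V3)
    (z v2 v3 : Fin n → ℂ) : IsLinearMap ℂ (fun v => dT p β z v v2 v3 + dT p β z v2 v3 v
      + dT p β z v3 v v2) := by
  constructor
  · intro x y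
    simp only [dT, D, map_add, LinearMap.add_apply, Pi.add_apply]
    ring
  · intro c x
    simp only [dT, D, map_smul, LinearMap.smul_apply, Pi.smul_apply, smul_eq_mul]
    ring

theorem Rep.dT_eq (h : Rep θ P H) (hc : Closed θ) (z v1 v2 v3 : Fin n → ℂ) :
    dT (pL P) (bL H) z v1 v2 v3 + dT (pL P) (bL H) z v2 v3 v1
      + dT (pL P) (bL H) z v3 v1 v2 = 0 := by
  refine lin_ext (isLin_dT1 _ _ z v2 v3) (fun i => ?_) v1
  have h1 := lin_ext (isLin_dT1 (pL P) (bL H) z v3 (ev i)) (fun j => ?_) v2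
  · linear_combination h1
  have h2 := lin_ext (isLin_dT1 (pL P) (bL H) z (ev i) (ev j)) (fun k => ?_) v3
  · linear_combination h2
  rw [h.dT_ev, h.dT_ev, h.dT_ev]
  have h3 := congrArg (eval z) (hc i j k)
  rw [map_add, map_add, map_zero] at h3
  linear_combination h3

end Pool.Agent.Helper93.K3B
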