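import Pool.Agent.Helper93.K3B.Bridge2

/-!
K3B / Bridge3: the standing hypotheses `StdG` from `Fol θ`, `¬ Cone θ`, `EE θ 1 = ⊥`, `5 ≤ n`.
-/

set_option autoImplicit false

namespace Pool.Agent.Helper93.K3B

open Matrix Pool.Agent.Helper93.K3A MvPolynomial
open scoped BigOperators
open Pool.Agent.Helper71.FC
open Pool.Agent.Helper71.FL (w12 pf ct Dec Closed dd)

variable {n : ℕ} {θ : F2 n} {P : Fin 3 → Fin n → ℂ} {H : Fin 3 → Fin n → Fin n → ℂ}

theorem pL_surj (hP : LinearIndependent ℂ P) : Function.Surjective (pL P) := by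
  rw [← LinearMap.range_eq_top]
  by_contra hne
  obtain ⟨f, hf, hle⟩ := Submodule.exists_le_ker_of_lt_top _ (lt_top_iff_ne_top.mpr hne)
  apply hf
  have h1 : ∀ z, f (pL P z) = 0 := fun z => hle (LinearMap.mem_range_self _ z)
  rw [Fintype.linearIndependent_iff] at hP
  have h2 := hP (fun a => f (Pi.single a 1)) (by
    funext i
    have h3 := h1 (ev i)
    have h4 : pL P (ev i) = ∑ a, (P a i) • (Pi.single a 1 : V3) := by
      funext b
      rw [pL_ev, Finset.sum_apply]
      simp [Pi.single_apply]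
    rw [h4, map_sum] at h3
    simp only [map_smul, smul_eq_mul] at h3
    rw [Finset.sum_apply]
    simp only [Pi.smul_apply, smul_eq_mul, Pi.zero_apply]
    rw [← h3]
    exact Finset.sum_congr rfl fun a _ => mul_comm _ _)
  apply LinearMap.pi_ext'
  intro a
  ext
  simpa using h2 a

theorem Rep.ncg (h : Rep θ P H) (hc : ¬ Cone θ) (w : Fin n → ℂ) (hw : pL P w = 0)
    (hB : ∃ c : ℂ, ∀ z, bL H z w = c • pL P z) : w = 0 := by
  obtain ⟨c, hB⟩ := hB
  by_contra hne
  refine hc ⟨w, hne, fun j => ?_⟩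
  apply MvPolynomial.funext
  intro z
  rw [map_zero]
  unfold av ct
  rw [map_sum]
  have h1 : IsLinearMap ℂ (fun v : Fin n → ℂ => (∑ i, v i * eval z (θ i j))
      - D (pL P z) (bL H z v) (bL H z (ev j))) := by
    constructor
    · intro x y
      simp only [Pi.add_apply, add_mul, Finset.sum_add_distrib, map_add, D]
      ring
    · intro a x
      simp only [Pi.smul_apply, smul_eq_mul, map_smul, D, mul_assoc, ← Finset.mul_sum]
      ring
  have h2 := lin_ext h1 (fun i => by
    have h3 : ∑ k, ev i k * eval z (θ k j) = eval z (θ i j) := by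
      simp [ev, Pi.single_apply]
    rw [h3, h.eval_eq, sub_self]) w
  have h4 : D (pL P z) (bL H z w) (bL H z (ev j)) = 0 := by
    rw [hB]
    simp only [D, Pi.smul_apply, smul_eq_mul]
    ring
  rw [h4, sub_zero] at h2
  rw [← h2]
  refine Finset.sum_congr rfl fun i _ => ?_
  rw [map_mul]
  unfold cv
  rw [eval_C]

/-- the polynomial `D p u c` -/
noncomputable def gu (P : Fin 3 → Fin n → ℂ) (u c : V3) : Pn n :=
  lf (P 0) * C (u 1 * c 2 - u 2 * c 1) + lf (P 1) * C (u 2 * c 0 - u 0 * c 2)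
    + lf (P 2) * C (u 0 * c 1 - u 1 * c 0)

theorem eval_gu (u c : V3) (z : Fin n → ℂ) : eval z (gu P u c) = D (pL P z) u c := by
  unfold gu D
  simp only [map_add, map_mul, eval_C, pL_apply]

/-- the polynomial coefficients of `ξ_u` -/
noncomputable def xu (P : Fin 3 → Fin n → ℂ) (H : Fin 3 → Fin n → Fin n → ℂ) (u : V3)
    (i : Fin n) : Pn n :=
  lf (P 0) * (C (u 1) * lf (H 2 i) - C (u 2) * lf (H 1 i))
    + lf (P 1) * (C (u 2) * lf (H 0 i) - C (u 0) * lf (H 2 i))
    + lf (P 2) * (C (u 0) * lf (H 1 i) - C (u 1) * lf (H 0 i))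

theorem eval_xu (u : V3) (i : Fin n) (z : Fin n → ℂ) :
    eval z (xu P H u i) = D (pL P z) u (bL H z (ev i)) := by
  unfold xu D
  simp only [map_add, map_mul, map_sub, eval_C, pL_apply, bL_ev]

theorem D4 (p u a b c : V3) : D p u a * D p b c + D p u b * D p c a + D p u c * D p a b = 0 := by
  unfold D
  ring

theorem exists_D_ne (hP : LinearIndependent ℂ P) (u : V3) (hu : u ≠ 0) :
    ∃ c z, D (pL P z) u c ≠ 0 := by
  have h : ∃ x c : V3, D x u c ≠ 0 := by
    by_contra hc
    push Not at hc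
    apply hu
    have h0 := hc (Pi.single 1 1) (Pi.single 2 1)
    have h1 := hc (Pi.single 0 1) (Pi.single 2 1)
    have h2 := hc (Pi.single 0 1) (Pi.single 1 1)
    simp [D, Pi.single_apply] at h0 h1 h2
    funext i
    fin_cases i <;> simp [h0, h1, h2]
  obtain ⟨x, c, h⟩ := h
  obtain ⟨z, hz⟩ := pL_surj hP x
  exact ⟨c, z, by rwa [hz]⟩

theorem Rep.xu_ne (h : Rep θ P H) (hP : LinearIndependent ℂ P) (hF : Fol θ) (u : V3)
    (hu : u ≠ 0) : ∃ i, xu P H u i ≠ 0 := by
  by_contra hc
  push Not at hc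
  obtain ⟨c, z0, hz0⟩ := exists_D_ne hP u hu
  have hg : gu P u c ≠ 0 := by
    intro h0
    apply hz0
    rw [← eval_gu, h0, map_zero]
  have h1 : ∀ i j, θ i j = 0 := by
    intro i j
    have h2 : gu P u c * θ i j = 0 := by
      apply MvPolynomial.funext
      intro z
      rw [map_mul, map_zero, eval_gu, h.eval_eq]
      have h3 := D4 (pL P z) u (bL H z (ev i)) (bL H z (ev j)) c
      have h4 := congrArg (eval z) (hc i)
      have h5 := congrArg (eval z) (hc j)
      rw [eval_xu, map_zero] at h4 h5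
      rw [h4, h5] at h3
      linear_combination h3
    rcases mul_eq_zero.mp h2 with h3 | h3
    · exact absurd h3 hg
    · exact h3
  have := hF.prim 0 (fun i j => by rw [h1])
  exact not_isUnit_zero this

theorem Rep.prg (h : Rep θ P H) (hP : LinearIndependent ℂ P) (hF : Fol θ) (h1 : EE θ 1 = ⊥)
    (u : V3) (hu : u ≠ 0) (ν : (Fin n → ℂ) →ₗ[ℂ] (Fin n → ℂ) →ₗ[ℂ] ℂ)
    (hν : ∀ z v v', ν z v * D (pL P z) u (bL H z v') = ν z v' * D (pL P z) u (bL H z v)) :
    ν = 0 := by
  obtain ⟨l0, hl0⟩ := h.xu_ne hP hF u hu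
  let N : F1 n := fun i => lf (fun l => ν (ev l) (ev i))
  have hN : ∀ z i, eval z (N i) = ν z (ev i) := by
    intro z i
    rw [eval_lf]
    have h2 : IsLinearMap ℂ (fun v : Fin n → ℂ => (∑ l, ν (ev l) (ev i) * v l) - ν v (ev i)) := by
      constructor
      · intro x y
        simp only [Pi.add_apply, mul_add, Finset.sum_add_distrib, map_add, LinearMap.add_apply]
        ring
      · intro a x
        simp only [Pi.smul_apply, smul_eq_mul, map_smul, LinearMap.smul_apply, mul_left_comm,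
          ← Finset.mul_sum]
        ring
    have h3 := lin_ext h2 (fun k => by simp [ev, Pi.single_apply]) z
    exact sub_eq_zero.mp h3
  have hNE : N ∈ EE θ 1 := by
    refine ⟨fun i => lf_hom _, fun i j k => ?_⟩
    have h2 : xu P H u l0 * w12 N θ i j k = 0 := by
      apply MvPolynomial.funext
      intro z
      rw [map_mul, map_zero, eval_xu]
      unfold w12
      simp only [map_add, map_mul, hN, h.eval_eq]
      have e1 := hν z (ev i) (ev l0)
      have e2 := hν z (ev j) (ev l0)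
      have e3 := hν z (ev k) (ev l0)
      have e4 := D4 (pL P z) u (bL H z (ev i)) (bL H z (ev j)) (bL H z (ev k))
      linear_combination (D (pL P z) (bL H z (ev j)) (bL H z (ev k))) * e1
        + (D (pL P z) (bL H z (ev k)) (bL H z (ev i))) * e2
        + (D (pL P z) (bL H z (ev i)) (bL H z (ev j))) * e3 + ν z (ev l0) * e4
    rcases mul_eq_zero.mp h2 with h3 | h3
    · exact absurd h3 hl0
    · exact h3
  rw [h1, Submodule.mem_bot] at hNE
  have h5 : ∀ z i, ν z (ev i) = 0 := by
    intro z i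
    rw [← hN, hNE]
    simp
  apply LinearMap.ext
  intro z
  apply LinearMap.pi_ext'
  intro i
  ext
  simpa [ev] using h5 z i

theorem Rep.std (h : Rep θ P H) (hn : 5 ≤ n) (hP : LinearIndependent ℂ P) (hF : Fol θ)
    (hc : ¬ Cone θ) (h1 : EE θ 1 = ⊥) (σ : V3 →ₗ[ℂ] (Fin n → ℂ)) (hσ : ∀ x, pL P (σ x) = x) :
    StdG (datOf (pL P) (bL H) σ) where
  cl := ClG_datOf _ hσ (h.dT_eq hF.closed)
  nc := NCG_datOf _ hσ (fun w hw hB => h.ncg hc w hw hB)
  pr := PRG_datOf _ hσ (fun u hu ν hν => h.prg hP hF h1 u hu ν hν)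
  dim := by
    have h2 := LinearMap.finrank_range_add_finrank_ker (pL P)
    rw [LinearMap.range_eq_top.mpr (pL_surj hP), finrank_top, Module.finrank_fin_fun,
      Module.finrank_fin_fun] at h2
    omega

end Pool.Agent.Helper93.K3B
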