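import Pool.Agent.Helper93.K3B.Bridge3

/-!
K3B / Bridge4: from `C3G` to the normal form `θ = z f1 ∧ f2 + om (x1 f2 - x2 f1) ∧ dz`.
-/

set_option autoImplicit false

namespace Pool.Agent.Helper93.K3B

open Matrix Pool.Agent.Helper93.K3A MvPolynomial
open scoped BigOperators
open Pool.Agent.Helper71.FC
open Pool.Agent.Helper71.FL (w12 pf ct Dec Closed dd)

variable {n : ℕ} {θ : F2 n} {P : Fin 3 → Fin n → ℂ} {H : Fin 3 → Fin n → Fin n → ℂ}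

/-- the linear form of a linear map -/
noncomputable def lfL (f : (Fin n → ℂ) →ₗ[ℂ] ℂ) : Pn n := lf (fun i => f (ev i))

theorem eval_lfL (f : (Fin n → ℂ) →ₗ[ℂ] ℂ) (z : Fin n → ℂ) : eval z (lfL f) = f z := by
  unfold lfL
  rw [eval_lf]
  have h2 : IsLinearMap ℂ (fun v : Fin n → ℂ => (∑ l, f (ev l) * v l) - f v) := by
    constructor
    · intro x y
      simp only [Pi.add_apply, mul_add, Finset.sum_add_distrib, map_add]
      ring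
    · intro a x
      simp only [Pi.smul_apply, smul_eq_mul, map_smul, mul_left_comm, ← Finset.mul_sum]
      ring
  have h3 := lin_ext h2 (fun k => by simp [ev, Pi.single_apply]) z
  exact sub_eq_zero.mp h3

theorem lfL_hom (f : (Fin n → ℂ) →ₗ[ℂ] ℂ) : (lfL f).IsHomogeneous 1 := lf_hom _

theorem df_lfL (f : (Fin n → ℂ) →ₗ[ℂ] ℂ) (i : Fin n) : df (lfL f) i = C (f (ev i)) :=
  pderiv_lf _ i

/-- the form of helper60's `prop4_c3` -/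
structure NF3 (θ : F2 n) (z om x1 x2 : Pn n) (f1 f2 : F1 n) : Prop where
  hz : z.IsHomogeneous 1
  z0 : z ≠ 0
  ho : om.IsHomogeneous 1
  hx1 : x1.IsHomogeneous 1
  hx2 : x2.IsHomogeneous 1
  hf1 : ∀ i, (f1 i).IsHomogeneous 1
  hf2 : ∀ i, (f2 i).IsHomogeneous 1
  eq : ∀ i j, θ i j = z * w11 f1 f2 i j + om * (x1 * w11 f2 (df z) i j - x2 * w11 f1 (df z) i j)

theorem Rep.nf3 (h : Rep θ P H) (hP : LinearIndependent ℂ P) (σ : V3 →ₗ[ℂ] (Fin n → ℂ))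
    (hσ : ∀ x, pL P (σ x) = x) (h3 : C3G (datOf (pL P) (bL H) σ)) :
    ∃ z om x1 x2 f1 f2, NF3 θ z om x1 x2 f1 f2 := by
  obtain ⟨φ, hφ, ω, ζ, hC⟩ := h3
  obtain ⟨P0, Q0, hPQ, hQP, hφQ⟩ := frame_cov φ hφ
  let ω' : (Fin n → ℂ) →ₗ[ℂ] ℂ := ω.comp (spl (pL P) σ hσ)
  let ζ' : (Fin n → ℂ) →ₗ[ℂ] ℂ := ζ.comp (spl (pL P) σ hσ)
  have hC' : ∀ z v, φ ⬝ᵥ bL H z v = ω' z * (φ ⬝ᵥ pL P v) + (φ ⬝ᵥ pL P z) * ζ' v := by
    intro z v
    have h1 := hC (spl (pL P) σ hσ z) (spl (pL P) σ hσ v)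
    rw [etaG_datOf, spl_sum, spl_sum, spl_fst, spl_fst] at h1
    exact h1
  have hφ2 : ∀ x : V3, (P0 *ᵥ x) 2 = φ ⬝ᵥ x := by
    intro x
    have h1 : φ ⬝ᵥ x = (φ ᵥ* Q0) ⬝ᵥ (P0 *ᵥ x) := by
      rw [← Matrix.dotProduct_mulVec, Matrix.mulVec_mulVec, hQP, Matrix.one_mulVec]
    rw [h1, hφQ]
    simp [dotProduct, Fin.sum_univ_three]
  have hdet : P0.det ≠ 0 := by
    intro h0
    have h1 := congrArg Matrix.det hPQ
    rw [Matrix.det_mul, h0, zero_mul, Matrix.det_one] at h1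
    exact zero_ne_one h1
  let pa : Fin 3 → (Fin n → ℂ) →ₗ[ℂ] ℂ := fun a =>
    (LinearMap.proj a).comp ((Matrix.toLin' P0).comp (pL P))
  have hpa : ∀ a z, pa a z = (P0 *ᵥ pL P z) a := fun a z => rfl
  let ha : Fin 3 → Fin n → (Fin n → ℂ) →ₗ[ℂ] ℂ := fun a i =>
    (LinearMap.proj a).comp ((Matrix.toLin' P0).comp ((bL H).flip (ev i)))
  have hha : ∀ a i z, ha a i z = (P0 *ᵥ bL H z (ev i)) a := fun a i z => rfl
  let g : Fin 3 → Fin n → (Fin n → ℂ) →ₗ[ℂ] ℂ := fun a i => ha a i - ζ' (ev i) • pa a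
  have hg : ∀ a i z, g a i z = (P0 *ᵥ bL H z (ev i)) a - ζ' (ev i) * (P0 *ᵥ pL P z) a :=
    fun a i z => rfl
  refine ⟨lfL (pa 2), lfL (P0.det⁻¹ • ω'), lfL (pa 0), lfL (P0.det • pa 1),
    fun i => lfL (P0.det⁻¹ • g 0 i), fun i => lfL (g 1 i), ?_⟩
  refine ⟨lfL_hom _, ?_, lfL_hom _, lfL_hom _, lfL_hom _, fun i => lfL_hom _,
    fun i => lfL_hom _, ?_⟩
  · intro h0
    obtain ⟨z, hz⟩ := pL_surj hP (Q0 *ᵥ ![0, 0, 1])
    have h1 := eval_lfL (pa 2) z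
    rw [h0, map_zero, hpa, hz, Matrix.mulVec_mulVec, hPQ, Matrix.one_mulVec] at h1
    simp at h1
  · intro i j
    apply MvPolynomial.funext
    intro z
    unfold w11
    simp only [map_add, map_mul, map_sub, eval_lfL, df_lfL, eval_C]
    simp only [LinearMap.smul_apply, smul_eq_mul, hg, hpa]
    rw [h.eval_eq]
    have h1 := D_mulVec P0 (pL P z) (bL H z (ev i)) (bL H z (ev j))
    have e1 : (P0 *ᵥ bL H z (ev i)) 2 = ω' z * (P0 *ᵥ pL P (ev i)) 2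
        + (P0 *ᵥ pL P z) 2 * ζ' (ev i) := by
      rw [hφ2, hφ2, hφ2, hC']
    have e2 : (P0 *ᵥ bL H z (ev j)) 2 = ω' z * (P0 *ᵥ pL P (ev j)) 2
        + (P0 *ᵥ pL P z) 2 * ζ' (ev j) := by
      rw [hφ2, hφ2, hφ2, hC']
    have h2 : D (pL P z) (bL H z (ev i)) (bL H z (ev j)) = P0.det⁻¹ *
        D (P0 *ᵥ pL P z) (P0 *ᵥ bL H z (ev i)) (P0 *ᵥ bL H z (ev j)) := by
      rw [h1, ← mul_assoc, inv_mul_cancel₀ hdet, one_mul]
    rw [h2]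
    unfold D
    rw [e1, e2]
    generalize (P0 *ᵥ pL P z) 0 = a0
    generalize (P0 *ᵥ pL P z) 1 = a1
    generalize (P0 *ᵥ pL P z) 2 = a2
    generalize (P0 *ᵥ bL H z (ev i)) 0 = b0
    generalize (P0 *ᵥ bL H z (ev i)) 1 = b1
    generalize (P0 *ᵥ bL H z (ev j)) 0 = c0
    generalize (P0 *ᵥ bL H z (ev j)) 1 = c1
    generalize (P0 *ᵥ pL P (ev i)) 2 = q1
    generalize (P0 *ᵥ pL P (ev j)) 2 = q2
    field_simp
    ring

end Pool.Agent.Helper93.K3B
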