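import Pool.Agent.Helper93.K3B.Div

/-!
K3B / C2a: `b(y,w) = f(y) f(w) e_0`, `A_e = 0`, `k(w1) = 1` for some `w1` in `ker f`.

(g2)(e,e): `Z S e e = 0`, so `dkap C e_0 = 0`.  (g2)(w1,w) for `w` in `ker f`: `b = 0`, so
`Z S w1 w = 0` and `Z_T1` (with `2 B_w 1 2 = A_w 1 2`): `A_w 0 0 = B_w 0 0`, `A_w 0 1 = B_w 0 1`.
(g2)(w1,e): `b = 0`, `Z S w1 e = 0`, i.e. with `A = A_w1 = !![τ,a1,a2;0,0,1;0,0,0]`, `B = B_e`:
`2τB - 2AB - BA + tr(B) A - e2p(A,B) = 0`; the entries (2,0), (2,1), (1,0), (0,0), (1,1) give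
`B 2 0 = B 2 1 = 0` (τ ≠ 0: (2,0): τ B20 = 0, (2,1): 2τ B21 = B20 a1.  τ = 0: (1,0): 2 B20 = τ B10 = 0,
(1,1): B21 = τ(B11 - B22) + a2 B20 = 0).  So `Row2 S` (every `w` is `(w - f(w) e) + f(w) e`).
`eq4'` for `w1` (`A_w1 = B_w1 + (1/2) E12 + del E02`, `B_w1 = e_0 ⊗ β + (1/2) E12`) times 2 is
`h2` of `core` with `k = 2 del`.  `no_div`.
-/

set_option autoImplicit false

namespace Pool.Agent.Helper93.K3B

open Matrix Pool.Agent.Helper93.K3A

variable {W : Type} [AddCommGroup W] [Module ℂ W]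

theorem c2a {S : DatG W} (h : StdG S) (f : W →ₗ[ℂ] ℂ)
    (hb : ∀ y w, S.b y w = (f y * f w) • (![1, 0, 0] : V3)) (hA : ∀ y, T1 (S.A y))
    (hB : ∀ w, f w = 0 → T1 (S.B w) ∧ 2 * S.B w 1 2 = S.A w 1 2)
    (e : W) (he : f e = 1) (hAe : S.A e = 0) (w1 : W) (hw1 : f w1 = 0) (hk : S.A w1 1 2 = 1) :
    False := by
  have hcl := h.cl
  -- (g2) with b = 0
  have hZ0 : ∀ y w, S.b y w = 0 → Z S y w = 0 := by
    intro y w hbw
    have h1 : ∀ x, Z S y w *ᵥ x = 0 := by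
      intro x
      refine eq_zero_of_D fun t1 t2 => ?_
      rw [← g2 hcl y w x t1 t2, hbw]
      simp [dkap, D]
    ext i j
    have h2 := congrFun (h1 (Pi.single j 1)) i
    simpa using h2
  obtain ⟨a10, a11, a20, a21, a22⟩ := hA w1
  obtain ⟨⟨b10, b11, b20, b21, b22⟩, hb12⟩ := hB w1 hw1
  rw [hk] at hb12
  have hb12' : S.B w1 1 2 = 1 / 2 := by linear_combination (1 / 2 : ℂ) * hb12
  -- Z w1 w1
  have hz := hZ0 w1 w1 (by rw [hb, hw1]; simp)
  rw [Z_T1 w1 w1 (hA w1) (hA w1) (hB w1 hw1).1, hk, hb12'] at hz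
  have e01 : S.A w1 0 1 = S.B w1 0 1 := by
    have h2 := congrFun (congrFun hz 0) 2
    simp at h2
    linear_combination h2
  have e00 : S.A w1 0 0 = S.B w1 0 0 := by
    have h2 := congrFun (congrFun hz 1) 2
    simp at h2
    linear_combination -h2
  -- Z w1 e
  have hze := hZ0 w1 e (by rw [hb, hw1]; simp)
  have q20 := congrFun (congrFun hze 2) 0
  have q21 := congrFun (congrFun hze 2) 1
  have q10 := congrFun (congrFun hze 1) 0
  have q11 := congrFun (congrFun hze 1) 1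
  simp [Z, K3A.adjp, e2p, Matrix.mul_apply, Fin.sum_univ_three, Matrix.trace, Matrix.one_apply,
    hAe, a10, a11, a20, a21, a22, hk] at q20 q21 q10 q11
  have hB20 : S.B e 2 0 = 0 ∧ S.B e 2 1 = 0 := by
    by_cases hτ : S.A w1 0 0 = 0
    · rw [hτ] at q10 q11
      have h20 : S.B e 2 0 = 0 := by linear_combination -(1 / 2 : ℂ) * q10
      refine ⟨h20, ?_⟩
      rw [h20] at q11
      linear_combination -q11
    · have h20 : S.B e 2 0 = 0 := by
        have h1 : S.A w1 0 0 * S.B e 2 0 = 0 := by linear_combination q20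
        exact (mul_eq_zero.1 h1).resolve_left hτ
      refine ⟨h20, ?_⟩
      rw [h20] at q21
      have h1 : S.A w1 0 0 * S.B e 2 1 = 0 := by linear_combination (1 / 2 : ℂ) * q21
      exact (mul_eq_zero.1 h1).resolve_left hτ
  have hrow : Row2 S := by
    refine ⟨fun y j => ?_, fun w => ?_, fun y w => ?_⟩
    · obtain ⟨-, -, c20, c21, c22⟩ := hA y
      fin_cases j
      · exact c20
      · exact c21
      · exact c22
    · have h1 : f (w - f w • e) = 0 := by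
        rw [map_sub, map_smul, he, smul_eq_mul, mul_one, sub_self]
      obtain ⟨⟨-, -, c20, c21, -⟩, -⟩ := hB _ h1
      rw [map_sub, map_smul] at c20 c21
      simp only [Matrix.sub_apply, Matrix.smul_apply, smul_eq_mul, hB20.1, hB20.2, mul_zero,
        sub_zero] at c20 c21
      exact ⟨c20, c21⟩
    · rw [hb]
      simp
  -- dkap e_0 = 0
  have hd0 : ∀ x t1 t2, dkap S.C (![1, 0, 0]) x t1 t2 = 0 := by
    intro x t1 t2
    have h1 := g2 hcl e e x t1 t2
    have h2 : S.b e e = ![1, 0, 0] := by rw [hb, he]; simp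
    have h3 : Z S e e = 0 := by
      ext i j
      simp [Z, K3A.adjp, e2p, hAe]
    rw [h2, h3] at h1
    rw [h1]
    simp [D]
  have hAx : ∀ t : V3, S.A w1 *ᵥ t =
      ![S.B w1 0 0 * t 0 + S.B w1 0 1 * t 1 + S.A w1 0 2 * t 2, t 2, 0] := by
    intro t
    funext i
    fin_cases i
    · simp [Matrix.mulVec, dotProduct, Fin.sum_univ_three, e00, e01]
    · simp [Matrix.mulVec, dotProduct, Fin.sum_univ_three, a10, a11, hk]
    · simp [Matrix.mulVec, dotProduct, Fin.sum_univ_three, a20, a21, a22]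
  have hBx : ∀ t : V3, S.B w1 *ᵥ t =
      ![S.B w1 0 0 * t 0 + S.B w1 0 1 * t 1 + S.B w1 0 2 * t 2, 1 / 2 * t 2, 0] := by
    intro t
    funext i
    fin_cases i
    · simp [Matrix.mulVec, dotProduct, Fin.sum_univ_three]
    · simp [Matrix.mulVec, dotProduct, Fin.sum_univ_three, b10, b11, hb12']
    · simp [Matrix.mulVec, dotProduct, Fin.sum_univ_three, b20, b21, b22]
  refine no_div h hrow (core S.C (2 * (S.A w1 0 2 - S.B w1 0 2)) hd0 ?_)
  intro x t1 t2
  have h1 := eq4' hcl w1 x t1 t2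
  have h2 := hd0 x t1 t2
  rw [hAx, hAx, hBx, hBx, hBx] at h1
  simp [D, dkap, kap] at h1 h2 ⊢
  linear_combination (-2) * h1 - 2 * (S.B w1 0 0 * x 0 + S.B w1 0 1 * x 1 + S.B w1 0 2 * x 2) * h2

end Pool.Agent.Helper93.K3B
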