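import Pool.Agent.Helper93.K3B.Defs

/-!
K3B / Core: the computation at the end of LEMMA X, for `κ_0 = x_2 C_1 - x_1 C_2` (index 0,1,2),
`κ_1 = x_0 C_2 - x_2 C_0`, where `C_i` is the i-th component of the `U`-valued 1-form `C(x)dx`.

`core`: `dκ_0 = 0` and `z dκ_1 = dz ∧ (κ_1 + k κ_0)` with `z = x_2` imply that the third row of
`C(x)` is `z ζ`.
Proof: on `{z = 0}`: `(x_0 - k x_1) dz ∧ C_2 = 0`, so `(C(x)t)_2 = l(x) t_2 + z m(t)`; by the gauge
`C(x) - x ⊗ m` (which changes neither `κ_0` nor `κ_1`) `C_2 = l dz`.  On `{z = 0}`: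
`dκ_0 = 0` gives `C_1 = -d(x_1 l)` mod `dz`.  The second equation divided by `z`:
`(d(x_0 l) + k C_1) ∧ dz = z dC_0`, so `d((x_0 - k x_1) l) = 0` on `{z = 0}`, so `l = lam z`.
(Everything is linear in the 27 entries of `C`; brute force by evaluation at basis vectors and
`linear_combination` is fine: the conclusion says `C(e_0)_(2,j) = C(e_1)_(2,j) = 0` for all `j`.)
-/

set_option autoImplicit false

namespace Pool.Agent.Helper93.K3B

open Matrix Pool.Agent.Helper93.K3A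

/-- the third row of `C(x)` is `x_2 ζ` -/
def DivC (C : V3 →ₗ[ℂ] M3) : Prop := ∃ ζ : V3, ∀ x t : V3, (C x *ᵥ t) 2 = x 2 * (ζ ⬝ᵥ t)

private theorem C_exp (C : V3 →ₗ[ℂ] M3) (x : V3) :
    C x = x 0 • C ![1, 0, 0] + x 1 • C ![0, 1, 0] + x 2 • C ![0, 0, 1] := by
  have h : x = x 0 • ![1, 0, 0] + x 1 • ![0, 1, 0] + x 2 • ![0, 0, 1] := by
    ext i
    fin_cases i <;> simp
  conv_lhs => rw [h]
  simp only [map_add, map_smul]

private theorem div_of (C : V3 →ₗ[ℂ] M3) (h0 : ∀ j, C ![1, 0, 0] 2 j = 0)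
    (h1 : ∀ j, C ![0, 1, 0] 2 j = 0) : DivC C := by
  refine ⟨fun j => C ![0, 0, 1] 2 j, fun x t => ?_⟩
  rw [C_exp C x]
  simp [Matrix.mulVec, dotProduct, Fin.sum_univ_three, h0, h1]
  ring

theorem core (C : V3 →ₗ[ℂ] M3) (k : ℂ)
    (h1 : ∀ x t1 t2, dkap C (![1, 0, 0]) x t1 t2 = 0)
    (h2 : ∀ x t1 t2 : V3, x 2 * dkap C (![0, 1, 0]) x t1 t2
      = t1 2 * (kap C (![0, 1, 0]) x t2 + k * kap C (![1, 0, 0]) x t2)
        - t2 2 * (kap C (![0, 1, 0]) x t1 + k * kap C (![1, 0, 0]) x t1)) : DivC C := by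
  have a1 := h1 ![1, 0, 0] ![1, 0, 0] ![0, 1, 0]
  have a2 := h1 ![1, 0, 0] ![1, 0, 0] ![0, 0, 1]
  have a3 := h1 ![0, 1, 0] ![1, 0, 0] ![0, 1, 0]
  have a4 := h1 ![1, 0, 0] ![0, 1, 0] ![0, 0, 1]
  have b1 := h2 ![1, 0, 0] ![0, 1, 0] ![0, 0, 1]
  have b2 := h2 ![0, 0, 1] ![1, 0, 0] ![0, 0, 1]
  have b3 := h2 ![1, 0, 1] ![1, 0, 0] ![0, 0, 1]
  have b4 := h2 ![0, 0, 1] ![1, 0, 0] ![0, 1, 0]
  have b5 := h2 ![0, 1, 1] ![1, 0, 0] ![0, 1, 0]
  have b6 := h2 ![0, 0, 1] ![0, 1, 0] ![0, 0, 1]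
  have b7 := h2 ![1, 0, 1] ![0, 1, 0] ![0, 0, 1]
  have c1 : C ![1, 0, 1] = C ![1, 0, 0] + C ![0, 0, 1] := by
    rw [C_exp C ![1, 0, 1]]; simp
  have c2 : C ![0, 1, 1] = C ![0, 1, 0] + C ![0, 0, 1] := by
    rw [C_exp C ![0, 1, 1]]; simp
  simp only [dkap, kap, D, c1, c2, Matrix.mulVec, dotProduct, Fin.sum_univ_three, Matrix.cons_val,
    Matrix.add_apply] at a1 a2 a3 a4 b1 b2 b3 b4 b5 b6 b7
  refine div_of C (fun j => ?_) (fun j => ?_)
  · fin_cases j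
    · show C ![1, 0, 0] 2 0 = 0
      linear_combination a1
    · show C ![1, 0, 0] 2 1 = 0
      linear_combination b1
    · show C ![1, 0, 0] 2 2 = 0
      linear_combination -(1 / 2) * a1 + k / 2 * a2 - b2 / 2 + b3 / 2
  · fin_cases j
    · show C ![0, 1, 0] 2 0 = 0
      linear_combination a3 / 2 + b1 / 2
    · show C ![0, 1, 0] 2 1 = 0
      linear_combination -b4 + b5
    · show C ![0, 1, 0] 2 2 = 0
      linear_combination -k / 2 * a1 + k ^ 2 / 2 * a2 + k * a4 - b1 - k / 2 * b2 - b6 +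
        k / 2 * b3 + b7

/-- if `κ_0` vanishes on `{z = 0}` then the third row of `C(x)` is `z ζ` -/
theorem div_of_kap (C : V3 →ₗ[ℂ] M3)
    (h : ∀ x t : V3, x 2 = 0 → kap C (![1, 0, 0]) x t = 0) : DivC C := by
  have h1 : ∀ t : V3, (C ![0, 1, 0] *ᵥ t) 2 = 0 := by
    intro t
    have a := h ![0, 1, 0] t rfl
    simp only [kap, D, Matrix.cons_val] at a
    linear_combination -a
  have h0 : ∀ t : V3, (C ![1, 0, 0] *ᵥ t) 2 = 0 := by
    intro t
    have a := h ![1, 1, 0] t rfl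
    have c1 : C ![1, 1, 0] = C ![1, 0, 0] + C ![0, 1, 0] := by
      rw [C_exp C ![1, 1, 0]]; simp
    rw [kap, c1, Matrix.add_mulVec] at a
    simp only [D, Matrix.cons_val, Pi.add_apply] at a
    linear_combination -a - h1 t
  refine div_of C (fun j => ?_) (fun j => ?_)
  · have := h0 (Pi.single j 1)
    simpa using this
  · have := h1 (Pi.single j 1)
    simpa using this

end Pool.Agent.Helper93.K3B
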