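import Pool.Agent.Helper93.K3A.Tools2
import Pool.Agent.Helper93.K3A.Hess

/-!
Type (3a) forms, general case (block K3B of TH-K, MP_45a28a, frozen statement S00166).
Mathematical proof: /team-store/memo_3b_helper93.md (the case `b ≠ 0` is impossible).

`U = ℂ³`, `W` a finite dimensional space, `η` is the `U`-valued 1-form on `U × W` with
`η_(x,y)(t,w) = C(x) t + A_y t + B_w x + b(y,w)`, and `θ_(x,y)(v,v') = D x (η v) (η v')`.
-/

set_option autoImplicit false

namespace Pool.Agent.Helper93.K3B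

open Matrix Pool.Agent.Helper93.K3A

/-- the data of a form of type (3a) -/
structure DatG (W : Type) [AddCommGroup W] [Module ℂ W] where
  A : W →ₗ[ℂ] M3
  B : W →ₗ[ℂ] M3
  C : V3 →ₗ[ℂ] M3
  b : W →ₗ[ℂ] W →ₗ[ℂ] V3

/-- `dκ_u(t1,t2)`, where `κ_u(x; t) = D x u (C(x) t)` is `K3A.kap` -/
def dkap (C : V3 →ₗ[ℂ] M3) (u x t1 t2 : V3) : ℂ :=
  (D t1 u (C x *ᵥ t2) + D x u (C t1 *ᵥ t2)) - (D t2 u (C x *ᵥ t1) + D x u (C t2 *ᵥ t1))

/-- matrices `e_0 ⊗ α + ν E_12` -/
def T1 (P : M3) : Prop := P 1 0 = 0 ∧ P 1 1 = 0 ∧ P 2 0 = 0 ∧ P 2 1 = 0 ∧ P 2 2 = 0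

section
variable {W : Type} [AddCommGroup W] [Module ℂ W]

/-- the `U`-valued 1-form at the point `(x,y)` on the vector `(t,w)` -/
def etaG (S : DatG W) (x : V3) (y : W) (t : V3) (w : W) : V3 :=
  S.C x *ᵥ t + S.A y *ᵥ t + S.B w *ᵥ x + S.b y w

/-- derivative of `θ(v₂,v₃)` in the direction `v₁` -/
def dthG (S : DatG W) (x : V3) (y : W) (t1 : V3) (w1 : W) (t2 : V3) (w2 : W) (t3 : V3) (w3 : W) : ℂ :=
  D t1 (etaG S x y t2 w2) (etaG S x y t3 w3) + D x (etaG S t1 w1 t2 w2) (etaG S x y t3 w3)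
    + D x (etaG S x y t2 w2) (etaG S t1 w1 t3 w3)

/-- `dθ = 0` -/
def ClG (S : DatG W) : Prop := ∀ x y t1 w1 t2 w2 t3 w3,
  dthG S x y t1 w1 t2 w2 t3 w3 + dthG S x y t2 w2 t3 w3 t1 w1 + dthG S x y t3 w3 t1 w1 t2 w2 = 0

/-- `θ` is not a cone -/
def NCG (S : DatG W) : Prop := ∀ w, (∃ c : ℂ, S.B w = c • (1 : M3)) → (∀ y, S.b y w = 0) → w = 0

/-- the 1-form `ξ_u = det(x,u,η)`, annihilated by `θ` -/
def xiG (S : DatG W) (u x : V3) (y : W) (t : V3) (w : W) : ℂ := D x u (etaG S x y t w)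

/-- no 1-form with linear coefficients is proportional to a form `ξ_u` -/
def PRG (S : DatG W) : Prop := ∀ u : V3, u ≠ 0 → ∀ ν : (V3 × W) →ₗ[ℂ] (V3 × W) →ₗ[ℂ] ℂ,
  (∀ z v v', ν z v * xiG S u z.1 z.2 v'.1 v'.2 = ν z v' * xiG S u z.1 z.2 v.1 v.2) → ν = 0

/-- standing hypotheses -/
structure StdG (S : DatG W) : Prop where
  cl : ClG S
  nc : NCG S
  pr : PRG S
  dim : 2 ≤ Module.finrank ℂ W

/-- the conclusion: after gauge `φ(η) = ω dz`, `z = φ(x)` -/
def C3G (S : DatG W) : Prop := ∃ φ : V3, φ ≠ 0 ∧ ∃ ω ζ : (V3 × W) →ₗ[ℂ] ℂ, ∀ z v,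
  φ ⬝ᵥ etaG S z.1 z.2 v.1 v.2 = ω z * (φ ⬝ᵥ v.1) + (φ ⬝ᵥ z.1) * ζ v

/-- the matrix on the right hand side of (g2) -/
def Z (S : DatG W) (y w : W) : M3 :=
  ((S.A y).trace • (1 : M3) - S.A y) * S.B w + adjp (S.A y) (S.A w - S.B w)

/-- the linear map `x ↦ x ⊗ k` -/
def xk (k : V3) : V3 →ₗ[ℂ] M3 where
  toFun := fun x => vecMulVec x k
  map_add' := fun x y => by ext i j; simp [vecMulVec_apply, add_mul]
  map_smul' := fun c x => by ext i j; simp [vecMulVec_apply, mul_assoc]

/-- gauge transformation `η ↦ η + (ζ(w) + k·t) x` -/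
def gaugeG (S : DatG W) (ζ : W →ₗ[ℂ] ℂ) (k : V3) : DatG W where
  A := S.A
  B := S.B + ζ.smulRight (1 : M3)
  C := S.C + xk k
  b := S.b

/-- change of coordinates in `U` by `P` with inverse `Q` -/
def conjG (S : DatG W) (P Q : M3) : DatG W where
  A := { toFun := fun w => P * S.A w * Q
         map_add' := fun x y => by simp [Matrix.mul_add, Matrix.add_mul]
         map_smul' := fun c x => by simp }
  B := { toFun := fun w => P * S.B w * Q
         map_add' := fun x y => by simp [Matrix.mul_add, Matrix.add_mul]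
         map_smul' := fun c x => by simp }
  C := { toFun := fun x => P * S.C (Q *ᵥ x) * Q
         map_add' := fun x y => by simp [Matrix.mulVec_add, Matrix.mul_add, Matrix.add_mul]
         map_smul' := fun c x => by simp [Matrix.mulVec_smul] }
  b := { toFun := fun y => (Matrix.toLin' P).comp (S.b y)
         map_add' := fun x y => by ext w; simp [Matrix.mulVec_add]
         map_smul' := fun c x => by ext w; simp [Matrix.mulVec_smul] }

/-- change of coordinates `y ↦ y + (l·x) e` in `W` (the `L`-gauge) -/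
def lgG (S : DatG W) (e : W) (l : V3) : DatG W where
  A := S.A + { toFun := fun y => vecMulVec (S.b y e) l
               map_add' := fun x y => by ext i j; simp [vecMulVec_apply, add_mul]
               map_smul' := fun c x => by ext i j; simp [vecMulVec_apply, mul_assoc] }
  B := S.B + { toFun := fun w => vecMulVec (S.b e w) l
               map_add' := fun x y => by ext i j; simp [vecMulVec_apply, add_mul]
               map_smul' := fun c x => by ext i j; simp [vecMulVec_apply, mul_assoc] }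
  C := { toFun := fun x => S.C x + (l ⬝ᵥ x) • S.A e + vecMulVec (S.B e *ᵥ x) l
            + (l ⬝ᵥ x) • vecMulVec (S.b e e) l
         map_add' := fun x y => by
          ext i j
          simp [vecMulVec_apply, Matrix.mulVec_add, dotProduct_add]
          ring
         map_smul' := fun c x => by
          ext i j
          simp [vecMulVec_apply, Matrix.mulVec_smul, dotProduct_smul]
          ring }
  b := S.b

end

end Pool.Agent.Helper93.K3B
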