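import Pool.Agent.Helper93.K3B.Inv
import Pool.Agent.Helper93.K3B.Core

/-!
K3B / Div: `θ` has no linear factor; `Z` for the matrices `T1`.
-/

set_option autoImplicit false

namespace Pool.Agent.Helper93.K3B

open Matrix Pool.Agent.Helper93.K3A

section
variable {W : Type} [AddCommGroup W] [Module ℂ W]

/-- the third component of `η - C dx` is `s(w) z` -/
def Row2 (S : DatG W) : Prop :=
  (∀ y j, S.A y 2 j = 0) ∧ (∀ w, S.B w 2 0 = 0 ∧ S.B w 2 1 = 0) ∧ ∀ y w, S.b y w 2 = 0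

theorem no_div {S : DatG W} (h : StdG S) (hr : Row2 S) (hd : DivC S.C) : False := by
  obtain ⟨ζ, hζ⟩ := hd
  obtain ⟨hA, hB, hb⟩ := hr
  let φ : V3 := ![0, 0, 1]
  have hφ : φ ≠ 0 := fun h0 => by simpa [φ] using congrFun h0 2
  let z : (V3 × W) →ₗ[ℂ] ℂ :=
    { toFun := fun v => ζ ⬝ᵥ v.1 + S.B v.2 2 2
      map_add' := fun x y => by simp [dotProduct_add]; ring
      map_smul' := fun c x => by simp [dotProduct_smul]; ring }
  refine no_factorG h φ hφ z ?_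
  intro p v
  have h1 := hζ p.1 v.1
  have h2 : (S.A p.2 *ᵥ v.1) 2 = 0 := by
    simp [Matrix.mulVec, dotProduct, hA]
  have h3 : (S.B v.2 *ᵥ p.1) 2 = S.B v.2 2 2 * p.1 2 := by
    simp [Matrix.mulVec, dotProduct, Fin.sum_univ_three, (hB v.2).1, (hB v.2).2]
  have h4 := hb p.2 v.2
  have e1 : ∀ q : V3, φ ⬝ᵥ q = q 2 := by
    intro q
    simp [φ, dotProduct, Fin.sum_univ_three]
  have e2 : z v = ζ ⬝ᵥ v.1 + S.B v.2 2 2 := rfl
  rw [e1, e1, e2, etaG]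
  simp only [Pi.add_apply]
  rw [h1, h2, h3, h4]
  ring

theorem Z_T1 {S : DatG W} (y w : W) (hy : T1 (S.A y)) (hw : T1 (S.A w)) (hb : T1 (S.B w)) :
    Z S y w = !![0, 0, S.A y 0 1 * (S.A w 1 2 - 2 * S.B w 1 2)
        + (S.A w 0 1 - S.B w 0 1) * S.A y 1 2;
      0, 0, -(S.A y 0 0) * (S.A w 1 2 - 2 * S.B w 1 2) - (S.A w 0 0 - S.B w 0 0) * S.A y 1 2;
      0, 0, 0] := by
  obtain ⟨a1, a2, a3, a4, a5⟩ := hy
  obtain ⟨c1, c2, c3, c4, c5⟩ := hw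
  obtain ⟨b1, b2, b3, b4, b5⟩ := hb
  ext i j
  fin_cases i <;> fin_cases j <;>
    simp [Z, K3A.adjp, e2p, Matrix.mul_apply, Matrix.vecMul, dotProduct, Fin.sum_univ_three,
      Matrix.trace, Matrix.one_apply, a1, a2, a3, a4, a5, c1, c2, c3, c4, c5, b1, b2, b3, b4, b5] <;>
    ring

end

end Pool.Agent.Helper93.K3B
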