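import Pool.Agent.Helper93.K3B.Defs
import Pool.Agent.Helper93.K3A.Eqs

/-!
K3B / Eqs: the components of `dθ = 0`.
-/

set_option autoImplicit false

namespace Pool.Agent.Helper93.K3B

open Matrix Pool.Agent.Helper93.K3A

section
variable {W : Type} [AddCommGroup W] [Module ℂ W]

theorem e2A' {S : DatG W} (h : ClG S) (y : W) : e2 (S.A y) = 0 := by
  have := h 0 y (Pi.single 0 1) 0 (Pi.single 1 1) 0 (Pi.single 2 1) 0
  simp [dthG, D, etaG, Matrix.mulVec, dotProduct, Fin.sum_univ_three, Pi.single_apply] at this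
  rw [e2]
  linear_combination this

theorem e2pA' {S : DatG W} (h : ClG S) (y w : W) : e2p (S.A y) (S.A w) = 0 := by
  have h1 := e2_add_smul (S.A y) (S.A w) 1
  have h2 := e2A' h (y + w)
  rw [e2A' h y, e2A' h w] at h1
  rw [map_add] at h2
  rw [one_smul, h2] at h1
  linear_combination -h1

/-- (g0) -/
theorem g0v {S : DatG W} (h : ClG S) (y w w' : W) (t : V3) : D t (S.b y w) (S.b y w') = 0 := by
  have h1 := h 0 y t 0 0 w 0 w'
  simp [dthG, etaG] at h1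
  simp only [D, Pi.zero_apply] at h1 ⊢
  linear_combination h1

/-- (g0), minors -/
theorem g0 {S : DatG W} (h : ClG S) (y w w' : W) (i j : Fin 3) :
    S.b y w i * S.b y w' j = S.b y w j * S.b y w' i := by
  have h0 := g0v h y w w' (Pi.single 0 1)
  have h1 := g0v h y w w' (Pi.single 1 1)
  have h2 := g0v h y w w' (Pi.single 2 1)
  simp [D, Pi.single_apply] at h0 h1 h2
  have e01 : S.b y w 0 * S.b y w' 1 = S.b y w 1 * S.b y w' 0 := by linear_combination h2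
  have e02 : S.b y w 0 * S.b y w' 2 = S.b y w 2 * S.b y w' 0 := by linear_combination -h1
  have e12 : S.b y w 1 * S.b y w' 2 = S.b y w 2 * S.b y w' 1 := by linear_combination h0
  fin_cases i <;> fin_cases j
  · rfl
  · exact e01
  · exact e02
  · exact e01.symm
  · rfl
  · exact e12
  · exact e02.symm
  · exact e12.symm
  · rfl

/-- (g1) -/
theorem g1 {S : DatG W} (h : ClG S) (y w : W) :
    S.A y *ᵥ S.b y w = (S.A y).trace • S.b y w := by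
  have key : ∀ t1 t2, D (((S.A y).trace • (1 : M3) - S.A y) *ᵥ S.b y w) t1 t2 = 0 := by
    intro t1 t2
    have h1 := h 0 y t1 0 t2 0 0 w
    simp [dthG, etaG] at h1
    rw [D_trsub]
    simp only [D, Pi.zero_apply] at h1 ⊢
    linear_combination h1
  have h2 := eq_zero_of_D key
  rw [Matrix.sub_mulVec, Matrix.smul_mulVec, Matrix.one_mulVec, sub_eq_zero] at h2
  exact h2.symm

/-- (g2) -/
theorem g2 {S : DatG W} (h : ClG S) (y w : W) (x t1 t2 : V3) :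
    dkap S.C (S.b y w) x t1 t2 = D (Z S y w *ᵥ x) t1 t2 := by
  have h1 := h x y t1 0 t2 0 0 w
  have h2 := h x 0 t1 0 t2 0 0 w
  have h3 := h 0 y t1 0 t2 0 0 w
  have e1 := D_adjp (S.A y) (S.A w - S.B w) x t1 t2
  have e3 := D_trsub (S.A y) (S.B w *ᵥ x) t1 t2
  rw [Z, Matrix.add_mulVec, ← Matrix.mulVec_mulVec]
  simp only [Matrix.sub_mulVec] at e1
  simp [dthG, etaG] at h1 h2 h3
  simp only [D, dkap, Pi.add_apply, Pi.sub_apply, Pi.zero_apply] at h1 h2 h3 e1 e3 ⊢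
  linear_combination -h1 + h2 + h3 - e1 - e3

/-- (g3) -/
theorem g3 {S : DatG W} (h : ClG S) (y w w' : W) (x t : V3) :
    D t (S.B w *ᵥ x) (S.b y w') - D t (S.B w' *ᵥ x) (S.b y w)
    + D x (S.B w *ᵥ t) (S.b y w') - D x (S.B w' *ᵥ t) (S.b y w)
    + D x (S.b w w' - S.b w' w) (S.A y *ᵥ t)
    - D x (S.A w *ᵥ t) (S.b y w') + D x (S.A w' *ᵥ t) (S.b y w) = 0 := by
  have h1 := h x y t 0 0 w 0 w'
  have h2 := h x 0 t 0 0 w 0 w'
  have h3 := h 0 y t 0 0 w 0 w'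
  simp [dthG, etaG] at h1 h2 h3
  simp only [D, Pi.add_apply, Pi.sub_apply, Pi.zero_apply] at h1 h2 h3 ⊢
  linear_combination h1 - h2 - h3

/-- (g4) -/
theorem g4 {S : DatG W} (h : ClG S) (w w' : W) (x t : V3) :
    D t (S.B w *ᵥ x) (S.B w' *ᵥ x) + D x (S.B w *ᵥ t) (S.B w' *ᵥ x)
      + D x (S.B w *ᵥ x) (S.B w' *ᵥ t)
    - D x (S.A w *ᵥ t) (S.B w' *ᵥ x) + D x (S.A w' *ᵥ t) (S.B w *ᵥ x)
    + kap S.C (S.b w w' - S.b w' w) x t = 0 := by
  have h1 := h x 0 t 0 0 w 0 w'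
  simp [dthG, etaG] at h1
  simp only [D, kap, Pi.add_apply, Pi.sub_apply, Pi.zero_apply] at h1 ⊢
  linear_combination h1

/-- (4) -/
theorem eq4' {S : DatG W} (h : ClG S) (w : W) (x t1 t2 : V3) :
    D x (S.A w *ᵥ t1) (S.C x *ᵥ t2) - D x (S.A w *ᵥ t2) (S.C x *ᵥ t1)
    = (D t1 (S.B w *ᵥ x) (S.C x *ᵥ t2) + D x (S.B w *ᵥ t1) (S.C x *ᵥ t2)
        + D x (S.B w *ᵥ x) (S.C t1 *ᵥ t2))
      - (D t2 (S.B w *ᵥ x) (S.C x *ᵥ t1) + D x (S.B w *ᵥ t2) (S.C x *ᵥ t1)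
        + D x (S.B w *ᵥ x) (S.C t2 *ᵥ t1)) := by
  have h1 := h x 0 t1 0 t2 0 0 w
  simp [dthG, etaG] at h1
  simp only [D, Pi.zero_apply] at h1 ⊢
  linear_combination h1

/-- (5) -/
theorem eq5' {S : DatG W} (h : ClG S) (x t1 t2 t3 : V3) :
    D t1 (S.C x *ᵥ t2) (S.C x *ᵥ t3) + D x (S.C t1 *ᵥ t2) (S.C x *ᵥ t3)
      + D x (S.C x *ᵥ t2) (S.C t1 *ᵥ t3)
    + (D t2 (S.C x *ᵥ t3) (S.C x *ᵥ t1) + D x (S.C t2 *ᵥ t3) (S.C x *ᵥ t1)
      + D x (S.C x *ᵥ t3) (S.C t2 *ᵥ t1))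
    + (D t3 (S.C x *ᵥ t1) (S.C x *ᵥ t2) + D x (S.C t3 *ᵥ t1) (S.C x *ᵥ t2)
      + D x (S.C x *ᵥ t1) (S.C t3 *ᵥ t2)) = 0 := by
  have h1 := h x 0 t1 0 t2 0 t3 0
  simp [dthG, etaG] at h1
  simp only [D, Pi.zero_apply] at h1 ⊢
  linear_combination h1

end

end Pool.Agent.Helper93.K3B
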