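import Pool.Agent.Helper93.K3B.M0

/-!
K3B / II0: CASE M (II), `m(w1)` not in `ℂu`: coordinates.

`m_II_frame`: (g1) for `w1`: `A_1 c = tr(A_1) c`, `A_1 = u ⊗ φ`, `c = m(w1)`: `φ(c) u = φ(u) c`, so
`φ(c) = φ(u) = 0`.  Choose `v` with `φ(v) = 1`; basis `(c, u, v)`.
`m_II_A`: `tr(A_y) = 0` for all `y`: on `U/u` the `A_y` are trace 0 and determinant 0, so nilpotent
2 x 2 matrices, and `A_y m(y) = tr(A_y) m(y)` modulo `u`: `tr(A_y) m(y) ∈ ℂu` (apply the nilpotent
map twice: `τ² mbar = 0`), and `tr(A_y) (m(y) mod u)` is a product of linear maps, `m(w1)` is not in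
`ℂu`: `tr(A_y) = 0`.  (F), `w = w1`: `x_2 (x_0 m_2(y) - x_2 m_0(y)) = x_1 (A_y x)_2 - x_2 (A_y x)_1`; compare
coefficients, `A_y e_1 = 0`.  The last statement: first component of `A_y m(y) = 0`.
-/

set_option autoImplicit false

namespace Pool.Agent.Helper93.K3B

open Matrix Pool.Agent.Helper93.K3A

variable {W : Type} [AddCommGroup W] [Module ℂ W]

theorem m_II_frame {S : DatG W} {f : W →ₗ[ℂ] ℂ} {m : W →ₗ[ℂ] V3} {w1 e : W} {u φ : V3}
    (h : MD S f m w1 e u φ) (hII : ∀ s : ℂ, m w1 ≠ s • u) :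
    ∃ P Q : M3, P * Q = 1 ∧ Q * P = 1 ∧ P *ᵥ u = ![0, 1, 0] ∧ P *ᵥ m w1 = ![1, 0, 0] ∧
      φ ᵥ* Q = ![0, 0, 1] := by
  have h1 := h.Am w1
  rw [h.A1] at h1
  set c : V3 := m w1 with hc
  have h2 : ∀ i, (φ ⬝ᵥ c) * u i = (φ ⬝ᵥ u) * c i := by
    intro i
    have h3 := congrFun h1 i
    have e1 : (vecMulVec u φ *ᵥ c) i = (φ ⬝ᵥ c) * u i := by
      simp only [Matrix.mulVec, dotProduct, vecMulVec_apply, Finset.sum_mul]
      exact Finset.sum_congr rfl fun j _ => by ring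
    have e2 : (vecMulVec u φ).trace = φ ⬝ᵥ u := by
      simp only [Matrix.trace, Matrix.diag_apply, vecMulVec_apply, dotProduct]
      exact Finset.sum_congr rfl fun j _ => by ring
    rw [e1, e2] at h3
    exact h3
  have hφu : φ ⬝ᵥ u = 0 := by
    by_contra hne
    apply hII ((φ ⬝ᵥ u)⁻¹ * (φ ⬝ᵥ c))
    funext i
    have h3 := h2 i
    rw [Pi.smul_apply, smul_eq_mul, mul_assoc, h3, ← mul_assoc, inv_mul_cancel₀ hne, one_mul]
  have hφc : φ ⬝ᵥ c = 0 := by
    obtain ⟨i, hi⟩ := Function.ne_iff.mp h.hu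
    have h3 := h2 i
    rw [hφu, zero_mul] at h3
    exact (mul_eq_zero.mp h3).resolve_right hi
  obtain ⟨v, hv⟩ : ∃ v : V3, φ ⬝ᵥ v = 1 := by
    obtain ⟨i, hi⟩ := Function.ne_iff.mp h.hφ
    refine ⟨Pi.single i (φ i)⁻¹, ?_⟩
    rw [dotProduct_single, mul_inv_cancel₀ hi]
  set Q : M3 := Matrix.of fun i j => (![c, u, v] : Fin 3 → V3) j i with hQ
  have hQx : ∀ x : V3, Q *ᵥ x = x 0 • c + x 1 • u + x 2 • v := by
    intro x
    funext i
    simp only [hQ, Matrix.mulVec, dotProduct, Fin.sum_univ_three, Matrix.of_apply, Pi.add_apply,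
      Pi.smul_apply, smul_eq_mul, Matrix.cons_val_zero, Matrix.cons_val_one, Matrix.cons_val]
    ring
  have hdet : Q.det ≠ 0 := by
    intro h0
    obtain ⟨x, hx0, hx⟩ := Matrix.exists_mulVec_eq_zero_iff.mpr h0
    rw [hQx] at hx
    have x2 : x 2 = 0 := by
      have h3 := congrArg (fun z : V3 => φ ⬝ᵥ z) hx
      simp only [dotProduct_add, dotProduct_smul, hφc, hφu, hv, smul_eq_mul, mul_zero, mul_one,
        zero_add, dotProduct_zero] at h3
      exact h3
    rw [x2, zero_smul, add_zero] at hx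
    have x0 : x 0 = 0 := by
      by_contra hne
      apply hII (-((x 0)⁻¹ * x 1))
      funext i
      have h3 := congrFun hx i
      simp only [Pi.add_apply, Pi.smul_apply, smul_eq_mul, Pi.zero_apply] at h3
      rw [Pi.smul_apply, smul_eq_mul]
      have h4 : c i = (x 0)⁻¹ * (x 0 * c i) := by rw [← mul_assoc, inv_mul_cancel₀ hne, one_mul]
      rw [h4]
      linear_combination (x 0)⁻¹ * h3
    rw [x0, zero_smul, zero_add] at hx
    have x1 : x 1 = 0 := (smul_eq_zero.mp hx).resolve_right h.hu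
    apply hx0
    funext i
    fin_cases i
    · exact x0
    · exact x1
    · exact x2
  have hunit : IsUnit Q.det := isUnit_iff_ne_zero.mpr hdet
  have hQP : Q * Q⁻¹ = 1 := Matrix.mul_nonsing_inv Q hunit
  have hPQ : Q⁻¹ * Q = 1 := Matrix.nonsing_inv_mul Q hunit
  refine ⟨Q⁻¹, Q, hPQ, hQP, ?_, ?_, ?_⟩
  · have h3 : Q *ᵥ ![0, 1, 0] = u := by
      rw [hQx]
      simp
    rw [← h3, Matrix.mulVec_mulVec, hPQ, Matrix.one_mulVec]
  · have h3 : Q *ᵥ ![1, 0, 0] = c := by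
      rw [hQx]
      simp
    rw [← h3, Matrix.mulVec_mulVec, hPQ, Matrix.one_mulVec]
  · funext j
    have h3 : (φ ᵥ* Q) j = φ ⬝ᵥ ((![c, u, v] : Fin 3 → V3) j) := rfl
    rw [h3]
    fin_cases j
    · exact hφc
    · exact hφu
    · exact hv

theorem m_II_A {S : DatG W} {f : W →ₗ[ℂ] ℂ} {m : W →ₗ[ℂ] V3} {w1 e : W}
    (h : MD S f m w1 e (![0, 1, 0]) (![0, 0, 1])) (hm1 : m w1 = ![1, 0, 0]) (y : W) :
    S.A y = !![0, 0, S.A y 0 2; -(m y 2), 0, m y 0; 0, 0, 0] ∧ S.A y 0 2 * m y 2 = 0 := by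
  have hF := fun x : V3 => h.F w1 h.hw1 y x
  rw [h.A1, h.B1, hm1] at hF
  have hAu := h.Au y
  have hu0 := congrFun hAu 0
  have hu1 := congrFun hAu 1
  have hu2 := congrFun hAu 2
  have he2 := e2A' h.std.cl y
  have hAm := congrFun (h.Am y) 0
  have f1 := hF ![1, 1, 0]
  have f2 := hF ![0, 1, 0]
  have f3 := hF ![0, 0, 1]
  have f4 := hF ![1, 0, 1]
  have f5 := hF ![0, 1, 1]
  simp [Matrix.mulVec, dotProduct, Fin.sum_univ_three, Matrix.trace] at hu0 hu1 hu2 hAm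
  simp [D, Matrix.mulVec, dotProduct, Fin.sum_univ_three, vecMulVec_apply] at f1 f2 f3 f4 f5
  rw [e2] at he2
  have a12 : S.A y 1 2 = m y 0 := by linear_combination f3
  have a20 : S.A y 2 0 = 0 := by linear_combination -f1 - hu2
  have a10 : S.A y 1 0 = - m y 2 := by linear_combination f4 - a12
  have a22 : S.A y 2 2 = S.A y 1 1 := by linear_combination -f5 + a12 - hu2
  have a00 : S.A y 0 0 = - S.A y 1 1 := by linear_combination -hu1 - a22
  have hsq : S.A y 1 1 * S.A y 1 1 = 0 := by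
    rw [hu0, a20, hu2, a22, a00] at he2
    linear_combination -he2
  have a11 : S.A y 1 1 = 0 := mul_self_eq_zero.mp hsq
  rw [a11] at a22 a00
  rw [neg_zero] at a00
  constructor
  · ext i j
    fin_cases i <;> fin_cases j
    · exact a00
    · exact hu0
    · rfl
    · exact a10
    · exact a11
    · exact a12
    · exact a20
    · exact hu2
    · exact a22
  · rw [a00, hu0, a11, a22] at hAm
    linear_combination hAm

end Pool.Agent.Helper93.K3B
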