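import Pool.Agent.Helper93.K3B.II1b

/-!
K3B / II1: CASE M (II.1): coordinates `m(w1) = e_0`, `u = e_1`, `φ = (0,0,1)`;
`A_y = e_1 ⊗ φ_y`, `φ_y(x) = m_0(y) x_2 - m_2(y) x_0 = - D x e_1 m(y)`; `m_2 ≠ 0`.

`m_II1_B`: (F): `D x ((B_w - A_w) x) m(y) = 0` for all `y`, `w` in `ker f` (both sides of (F) are
`-φ_y(x) φ_w(x)`); with `y = w1` and `y` with `m_2(y) ≠ 0` (`pc` twice): `B_w - A_w` is scalar.
Gauge: `hB : B_w = A_w` on `ker f`.  `Π(x) := D x e_1 (B_e x)`.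
(g4)(w,e), `w` in `ker f`: `κ_(m(w)) = -φ_w(x) dΠ`.
`m_II1_a`: `m_2(w2) ≠ 0` for some `w2` in `ker f`: `x = a m(w1) + b m(w2) + c e_1` gives
`0 = κ_x(x;t) = a κ_(m(w1)) + b κ_(m(w2)) + c κ_(e_1)` and `a φ_w1(x) + b φ_w2(x) = - D x e_1 (x - c e_1) = 0`,
so `c(x) κ_(e_1)(x;t) = 0`, `κ_(e_1) = 0` (product of polynomials).
`m_II_end`: `κ_(e_1) = 0`: `ξ_(e_1)(x,y;t,w) = f(w) (Π(x) + D x e_1 m(y))` because `A_y`, and `B_w` for `w` in
`ker f`, have image in `ℂ e_1`; `W = ker f + ℂ e`; contradiction by `no_dsG` with `lam = f ∘ snd`.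
`m_II1`: `m_II1_B`, gauge `ζ w = -(B_w 0 0 - A_w 0 0)` (`MD.gauge`, `ζ w1 = 0`), then
`m_II1_a` or `m_II1_b` (if `m_2 = 0` on `ker f` then `m e 2 ≠ 0`), `m_II_end`.
-/

set_option autoImplicit false

namespace Pool.Agent.Helper93.K3B

open Matrix Pool.Agent.Helper93.K3A

variable {W : Type} [AddCommGroup W] [Module ℂ W]

private theorem vm1 (a t : V3) : vecMulVec (![0, 1, 0] : V3) a *ᵥ t =
    ![0, a 0 * t 0 + a 1 * t 1 + a 2 * t 2, 0] := by
  funext i
  rw [Matrix.mulVec, dotProduct, Fin.sum_univ_three]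
  simp only [vecMulVec_apply]
  fin_cases i
  · simp
  · simp
  · simp

private theorem D1 (x r : V3) : D x (![0, 1, 0]) r = x 0 * r 2 - x 2 * r 0 := by
  simp only [D, Matrix.cons_val_zero, Matrix.cons_val_one, Matrix.cons_val]
  ring

theorem m_II1_B {S : DatG W} {f : W →ₗ[ℂ] ℂ} {m : W →ₗ[ℂ] V3} {w1 e : W}
    (h : MD S f m w1 e (![0, 1, 0]) (![0, 0, 1])) (hm1 : m w1 = ![1, 0, 0])
    (hA : ∀ y, S.A y = !![0, 0, 0; -(m y 2), 0, m y 0; 0, 0, 0]) (hm : ∃ y, m y 2 ≠ 0)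
    (w : W) (hw : f w = 0) : ∃ s : ℂ, S.B w = S.A w + s • (1 : M3) := by
  have key : ∀ y x, D x ((S.B w - S.A w) *ᵥ x) (m y) = 0 := by
    intro y x
    have h1 := h.F w hw y x
    rw [Matrix.sub_mulVec]
    rw [hA w, hA y] at h1
    rw [hA w]
    simp [D, Matrix.mulVec, dotProduct, Fin.sum_univ_three] at h1 ⊢
    linear_combination (1 / 2) * h1
  obtain ⟨y, hy⟩ := hm
  have hy0 : m y ≠ 0 := by
    intro h0
    apply hy
    rw [h0]
    rfl
  have hw0 : m w1 ≠ 0 := h.hm1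
  obtain ⟨s, l, hs⟩ := pc (S.B w - S.A w) (m w1) hw0 (key w1)
  obtain ⟨s', l', hs'⟩ := pc (S.B w - S.A w) (m y) hy0 (key y)
  have e20 := congrFun (congrFun (hs.symm.trans hs') 2) 0
  have e21 := congrFun (congrFun (hs.symm.trans hs') 2) 1
  have e22 := congrFun (congrFun (hs.symm.trans hs') 2) 2
  have e11 := congrFun (congrFun (hs.symm.trans hs') 1) 1
  have c1 : m w1 1 = 0 := by rw [hm1]; rfl
  have c2 : m w1 2 = 0 := by rw [hm1]; rfl
  simp only [Matrix.add_apply, Matrix.smul_apply, Matrix.one_apply, vecMulVec_apply, smul_eq_mul,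
    c1, c2, zero_mul, add_zero] at e20 e21 e22 e11
  have n20 : (2 : Fin 3) ≠ 0 := by decide
  have n21 : (2 : Fin 3) ≠ 1 := by decide
  rw [if_neg n20, mul_zero, mul_zero, zero_add, eq_comm, mul_eq_zero] at e20
  rw [if_neg n21, mul_zero, mul_zero, zero_add, eq_comm, mul_eq_zero] at e21
  rw [if_pos trivial, mul_one, mul_one] at e22 e11
  have l0 : l' 0 = 0 := by
    rcases e20 with h0 | h0
    · exact absurd h0 hy
    · exact h0
  have l1 : l' 1 = 0 := by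
    rcases e21 with h0 | h0
    · exact absurd h0 hy
    · exact h0
  have hss : s = s' := by
    rw [l1, mul_zero, add_zero] at e11
    exact e11
  have l2 : l' 2 = 0 := by
    rw [hss] at e22
    have h0 : m y 2 * l' 2 = 0 := by linear_combination -e22
    exact (mul_eq_zero.mp h0).resolve_left hy
  have hl : l' = 0 := by
    funext i
    fin_cases i
    · exact l0
    · exact l1
    · exact l2
  refine ⟨s', ?_⟩
  rw [hl] at hs'
  rw [← sub_eq_iff_eq_add', hs']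
  ext i j
  simp [vecMulVec_apply]

/-- common end of (II.1) and (II.2): `κ_u = 0` is impossible if `A_y` and `B_w`, `w` in `ker f`,
have image in `ℂ e_1` -/
theorem m_II_end {S : DatG W} (h : StdG S) (f : W →ₗ[ℂ] ℂ) (e : W) (he : f e = 1)
    (m : W →ₗ[ℂ] V3) (hb : ∀ y w, S.b y w = f w • m y)
    (hA : ∀ y, ∃ a, S.A y = vecMulVec (![0, 1, 0]) a)
    (hB : ∀ w, f w = 0 → ∃ a, S.B w = vecMulVec (![0, 1, 0]) a)
    (hk : ∀ x t, kap S.C (![0, 1, 0]) x t = 0) : False := by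
  have hu : (![0, 1, 0] : V3) ≠ 0 := by
    intro h0
    have := congrFun h0 1
    simp at this
  refine no_dsG h (![0, 1, 0]) hu (f.comp (LinearMap.snd ℂ V3 W)) ?_
    (fun z => D z.1 (![0, 1, 0]) (S.B e *ᵥ z.1) + D z.1 (![0, 1, 0]) (m z.2)) ?_
  · intro h0
    have h1 := LinearMap.congr_fun h0 ((0 : V3), e)
    simp [he] at h1
  · rintro ⟨x, y⟩ ⟨t, w⟩
    obtain ⟨a, ha⟩ := hA y
    obtain ⟨a', ha'⟩ := hB (w - f w • e) (by simp [he])
    have hBw : S.B w = f w • S.B e + vecMulVec (![0, 1, 0]) a' := by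
      rw [← ha', map_sub, map_smul]
      abel
    have hk1 := hk x t
    simp only [LinearMap.comp_apply, LinearMap.snd_apply]
    rw [xiG, etaG, ha, hBw, hb, Matrix.add_mulVec, Matrix.smul_mulVec, vm1, vm1]
    rw [kap, D1] at hk1
    rw [D1, D1, D1]
    simp only [Pi.add_apply, Pi.smul_apply, smul_eq_mul, Matrix.cons_val_zero, Matrix.cons_val_one,
      Matrix.cons_val]
    linear_combination hk1

theorem m_II1_a {S : DatG W} {f : W →ₗ[ℂ] ℂ} {m : W →ₗ[ℂ] V3} {w1 e : W}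
    (h : MD S f m w1 e (![0, 1, 0]) (![0, 0, 1])) (hm1 : m w1 = ![1, 0, 0])
    (hA : ∀ y, S.A y = !![0, 0, 0; -(m y 2), 0, m y 0; 0, 0, 0])
    (hB : ∀ w, f w = 0 → S.B w = S.A w) (w2 : W) (hw2 : f w2 = 0) (hm2 : m w2 2 ≠ 0) :
    ∀ x t, kap S.C (![0, 1, 0]) x t = 0 := by
  intro x0 t
  have key : ∀ w, f w = 0 → ∀ x, kap S.C (m w) x t =
      -(-(m w 2) * x 0 + m w 0 * x 2) *
        (D t (![0, 1, 0]) (S.B e *ᵥ x) + D x (![0, 1, 0]) (S.B e *ᵥ t)) := by
    intro w hw x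
    have h1 := g4 h.std.cl w e x t
    rw [h.hb, h.hb, h.he, hw, one_smul, zero_smul, sub_zero, hB w hw, hA w, hA e] at h1
    have e1 : ∀ v : V3, (!![0, 0, 0; -(m w 2), 0, m w 0; 0, 0, 0] : M3) *ᵥ v =
        ![0, -(m w 2) * v 0 + m w 0 * v 2, 0] := by
      intro v
      funext i
      fin_cases i <;> simp [Matrix.mulVec, dotProduct, Fin.sum_univ_three]
    have e2 : ∀ v : V3, (!![0, 0, 0; -(m e 2), 0, m e 0; 0, 0, 0] : M3) *ᵥ v =
        ![0, -(m e 2) * v 0 + m e 0 * v 2, 0] := by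
      intro v
      funext i
      fin_cases i <;> simp [Matrix.mulVec, dotProduct, Fin.sum_univ_three]
    simp only [e1, e2] at h1
    simp only [kap, D, Matrix.cons_val_zero, Matrix.cons_val_one, Matrix.cons_val] at h1 ⊢
    linear_combination h1
  have hz : ∀ x, (m w2 2 * x 1 - m w2 1 * x 2) * kap S.C (![0, 1, 0]) x t = 0 := by
    intro x
    have k1 := key w1 h.hw1 x
    have k2 := key w2 hw2 x
    rw [hm1] at k1
    simp only [kap, D, Matrix.cons_val_zero, Matrix.cons_val_one, Matrix.cons_val] at k1 k2 ⊢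
    linear_combination (-(m w2 2 * x 0 - m w2 0 * x 2)) * k1 - x 2 * k2
  have hlp : LP (fun x : V3 => kap S.C (![0, 1, 0]) x t) := by
    have e : (fun x : V3 => kap S.C (![0, 1, 0]) x t) =
        fun x : V3 => (LinearMap.proj (R := ℂ) (φ := fun _ : Fin 3 => ℂ) 0) x *
          ((LinearMap.proj (R := ℂ) (φ := fun _ : Fin 3 => ℂ) 2).comp
            ((LinearMap.applyₗ t).comp ((Matrix.toLin' : M3 ≃ₗ[ℂ] _).toLinearMap.comp S.C))) x -
          (LinearMap.proj (R := ℂ) (φ := fun _ : Fin 3 => ℂ) 2) x *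
          ((LinearMap.proj (R := ℂ) (φ := fun _ : Fin 3 => ℂ) 0).comp
            ((LinearMap.applyₗ t).comp ((Matrix.toLin' : M3 ≃ₗ[ℂ] _).toLinearMap.comp S.C))) x := by
      funext x
      simp [kap, D]
      ring
    rw [e]
    exact ((LP.lin _).mul (LP.lin _)).sub ((LP.lin _).mul (LP.lin _))
  have hlp2 : LP (fun x : V3 => m w2 2 * x 1 - m w2 1 * x 2) := by
    have e : (fun x : V3 => m w2 2 * x 1 - m w2 1 * x 2) =
        fun x : V3 => (fun _ : V3 => m w2 2) x *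
          (LinearMap.proj (R := ℂ) (φ := fun _ : Fin 3 => ℂ) 1) x -
          (fun _ : V3 => m w2 1) x * (LinearMap.proj (R := ℂ) (φ := fun _ : Fin 3 => ℂ) 2) x := by
      funext x
      simp
    rw [e]
    exact ((LP.const _).mul (LP.lin _)).sub ((LP.const _).mul (LP.lin _))
  rcases LP.mul_eq_zero hlp2 hlp hz with h0 | h0
  · exfalso
    have h1 := h0 (![0, 1, 0])
    simp at h1
    exact hm2 h1
  · exact h0 x0

theorem m_II1 {S : DatG W} {f : W →ₗ[ℂ] ℂ} {m : W →ₗ[ℂ] V3} {w1 e : W}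
    (h : MD S f m w1 e (![0, 1, 0]) (![0, 0, 1])) (hm1 : m w1 = ![1, 0, 0])
    (hA : ∀ y, S.A y = !![0, 0, 0; -(m y 2), 0, m y 0; 0, 0, 0]) (hm : ∃ y, m y 2 ≠ 0) :
    False := by
  let ζ : W →ₗ[ℂ] ℂ :=
    { toFun := fun w => -(S.B w 0 0)
      map_add' := fun a b => by
        rw [map_add, Matrix.add_apply]
        ring
      map_smul' := fun c a => by
        rw [map_smul, Matrix.smul_apply]
        simp }
  have hζ : ζ w1 = 0 := by
    change -(S.B w1 0 0) = 0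
    rw [h.B1]
    simp [vecMulVec_apply]
  have h' := h.gauge ζ hζ 0
  have hA' : ∀ y, (gaugeG S ζ 0).A y = !![0, 0, 0; -(m y 2), 0, m y 0; 0, 0, 0] := hA
  have hB' : ∀ w, f w = 0 → (gaugeG S ζ 0).B w = (gaugeG S ζ 0).A w := by
    intro w hw
    obtain ⟨s, hs⟩ := m_II1_B h hm1 hA hm w hw
    have h00 : S.B w 0 0 = s := by
      rw [hs, hA w]
      simp
    change S.B w + (-(S.B w 0 0)) • (1 : M3) = S.A w
    rw [h00, hs]
    module
  have hk : ∀ x t, kap (gaugeG S ζ 0).C (![0, 1, 0]) x t = 0 := by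
    by_cases hc : ∃ w2, f w2 = 0 ∧ m w2 2 ≠ 0
    · obtain ⟨w2, hw2, hm2⟩ := hc
      exact m_II1_a h' hm1 hA' hB' w2 hw2 hm2
    · push Not at hc
      refine m_II1_b h' hm1 hA' hB' ?_
      intro he2
      obtain ⟨y, hy⟩ := hm
      apply hy
      have h1 := hc (y - f y • e) (by simp [h.he])
      rw [map_sub, map_smul] at h1
      simp [he2] at h1
      exact h1
  refine m_II_end h'.std f e h.he m h'.hb ?_ ?_ hk
  · intro y
    refine ⟨![-(m y 2), 0, m y 0], ?_⟩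
    rw [hA' y]
    ext i j
    fin_cases i <;> fin_cases j <;> simp [vecMulVec_apply]
  · intro w hw
    refine ⟨![-(m w 2), 0, m w 0], ?_⟩
    rw [hB' w hw, hA' w]
    ext i j
    fin_cases i <;> fin_cases j <;> simp [vecMulVec_apply]

end Pool.Agent.Helper93.K3B
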