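import Pool.Agent.Helper93.K3B.II0

/-!
K3B / II1b: CASE M (II.1), `m_2 = 0` on `ker f`, `m_2(e) ≠ 0`: coordinates `m(w1) = e_0`, `u = e_1`,
`φ = (0,0,1)`; `A_y = e_1 ⊗ φ_y`, `φ_y(x) = m_0(y) x_2 - m_2(y) x_0 = - D x e_1 m(y)`, `B_w = A_w` on `ker f`;
`Π(x) := D x e_1 (B_e x)`.

`m_II1_b`: one may assume `m_0(e) = 0` (replace `e` by `e - m_0(e) w1`, `MD.shift`).  (g4)(w1,e):
`κ_0 = -x_2 dΠ` (κ_0 = x_2 C_1 - x_1 C_2), so `C_2 = x_2 ζ`; after the gauge `C(x) - x ⊗ ζ`: `C_2 = 0`,
`C_1 = -dΠ`.  `eq4'` for `w1` (`A_1 = B_1 = E12`): `dκ_1 = 0`, where `κ_1 = x_0 C_2 - x_2 C_0 = -x_2 C_0`.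
(g2)(e,e): `b(e,e) = m(e) = m_1 e_1 + m_2 e_2`, `A_e = e_1 ⊗ φ_e`, `φ_e = -m_2 x_0`:
`Z S e e = -2 A_e B_e - B_e A_e + tr(B_e) A_e + tr(A_e B_e) 1`, and `D (Z x) t1 t2 = -(φ_e ∧ dΠ)(t1,t2)`
(identity), so with `dκ_1 = 0`: `dκ_2 = dx_0 ∧ dΠ`, and `κ_2 = x_1 C_0 - x_0 C_1 = x_1 C_0 + x_0 dΠ`:
`d(x_1 C_0) = 0 = d(x_2 C_0)`, so `C_0 = 0` (27 - .. unknowns, linear), `κ_1 = 0`.
-/

set_option autoImplicit false

namespace Pool.Agent.Helper93.K3B

open Matrix Pool.Agent.Helper93.K3A

variable {W : Type} [AddCommGroup W] [Module ℂ W]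

private def NN : M3 := !![0, 0, 0; -1, 0, 0; 0, 0, 0]

private def ZN (B : M3) : M3 :=
  !![0, 0, 0; B 0 0 - B 2 2, B 0 1, 2 * B 0 2; B 2 1, 0, -(B 0 1)]

private theorem ZN_eq (s : ℂ) (B : M3) :
    ((s • NN).trace • (1 : M3) - s • NN) * B + K3A.adjp (s • NN) (s • NN - B) = s • ZN B := by
  have hN : NN = Matrix.of ![![0, 0, 0], ![-1, 0, 0], ![0, 0, 0]] := rfl
  have n00 : NN 0 0 = 0 := rfl
  have n01 : NN 0 1 = 0 := rfl
  have n02 : NN 0 2 = 0 := rfl
  have n10 : NN 1 0 = -1 := rfl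
  have n11 : NN 1 1 = 0 := rfl
  have n12 : NN 1 2 = 0 := rfl
  have n20 : NN 2 0 = 0 := rfl
  have n21 : NN 2 1 = 0 := rfl
  have n22 : NN 2 2 = 0 := rfl
  ext i j
  fin_cases i <;> fin_cases j <;>
    simp [K3A.adjp, e2p, Matrix.trace, Matrix.mul_apply, Matrix.one_apply, Fin.sum_univ_three,
      n00, n01, n02, n10, n11, n12, n20, n21, n22, ZN] <;> ring

/-- the linear algebra -/
private theorem II1b_lin (c : Fin 3 → M3) (B : M3)
    (h1 : ∀ x t : V3, D x (![1, 0, 0]) ((x 0 • c 0 + x 1 • c 1 + x 2 • c 2) *ᵥ t) +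
      x 2 * (D t (![0, 1, 0]) (B *ᵥ x) + D x (![0, 1, 0]) (B *ᵥ t)) = 0)
    (h2 : ∀ x t1 t2 : V3,
      (D t1 (![0, 1, 0]) ((x 0 • c 0 + x 1 • c 1 + x 2 • c 2) *ᵥ t2) +
        D x (![0, 1, 0]) ((t1 0 • c 0 + t1 1 • c 1 + t1 2 • c 2) *ᵥ t2)) -
      (D t2 (![0, 1, 0]) ((x 0 • c 0 + x 1 • c 1 + x 2 • c 2) *ᵥ t1) +
        D x (![0, 1, 0]) ((t2 0 • c 0 + t2 1 • c 1 + t2 2 • c 2) *ᵥ t1)) = 0)
    (h3 : ∀ x t1 t2 : V3,
      (D t1 (![0, 0, 1]) ((x 0 • c 0 + x 1 • c 1 + x 2 • c 2) *ᵥ t2) +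
        D x (![0, 0, 1]) ((t1 0 • c 0 + t1 1 • c 1 + t1 2 • c 2) *ᵥ t2)) -
      (D t2 (![0, 0, 1]) ((x 0 • c 0 + x 1 • c 1 + x 2 • c 2) *ᵥ t1) +
        D x (![0, 0, 1]) ((t2 0 • c 0 + t2 1 • c 1 + t2 2 • c 2) *ᵥ t1)) =
      D (ZN B *ᵥ x) t1 t2) (x t : V3) :
    D x (![0, 1, 0]) ((x 0 • c 0 + x 1 • c 1 + x 2 • c 2) *ᵥ t) = 0 := by
  have a00 : (-1) * c 1 2 0 = 0 := by
    have := h1 (![0, 1, 0]) (![1, 0, 0])
    simp [D, Matrix.mulVec, dotProduct, Fin.sum_univ_three, Matrix.add_apply, Matrix.smul_apply] at this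
    first | linear_combination this | linear_combination -this
  have a01 : (-1) * c 1 2 1 = 0 := by
    have := h1 (![0, 1, 0]) (![0, 1, 0])
    simp [D, Matrix.mulVec, dotProduct, Fin.sum_univ_three, Matrix.add_apply, Matrix.smul_apply] at this
    first | linear_combination this | linear_combination -this
  have a02 : (-1) * c 1 2 2 = 0 := by
    have := h1 (![0, 1, 0]) (![0, 0, 1])
    simp [D, Matrix.mulVec, dotProduct, Fin.sum_univ_three, Matrix.add_apply, Matrix.smul_apply] at this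
    first | linear_combination this | linear_combination -this
  have a10 : (-1) * c 0 2 0 + (-1) * c 1 2 0 = 0 := by
    have := h1 (![1, 1, 0]) (![1, 0, 0])
    simp [D, Matrix.mulVec, dotProduct, Fin.sum_univ_three, Matrix.add_apply, Matrix.smul_apply] at this
    first | linear_combination this | linear_combination -this
  have a11 : (-1) * c 0 2 1 + (-1) * c 1 2 1 = 0 := by
    have := h1 (![1, 1, 0]) (![0, 1, 0])
    simp [D, Matrix.mulVec, dotProduct, Fin.sum_univ_three, Matrix.add_apply, Matrix.smul_apply] at this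
    first | linear_combination this | linear_combination -this
  have a12 : (-1) * c 0 2 2 + (-1) * c 1 2 2 = 0 := by
    have := h1 (![1, 1, 0]) (![0, 0, 1])
    simp [D, Matrix.mulVec, dotProduct, Fin.sum_univ_three, Matrix.add_apply, Matrix.smul_apply] at this
    first | linear_combination this | linear_combination -this
  have a20 : (-1) * B 0 0 + 1 * B 2 2 + 1 * c 2 1 0 = 0 := by
    have := h1 (![0, 0, 1]) (![1, 0, 0])
    simp [D, Matrix.mulVec, dotProduct, Fin.sum_univ_three, Matrix.add_apply, Matrix.smul_apply] at this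
    first | linear_combination this | linear_combination -this
  have a21 : (-1) * B 0 1 + 1 * c 2 1 1 = 0 := by
    have := h1 (![0, 0, 1]) (![0, 1, 0])
    simp [D, Matrix.mulVec, dotProduct, Fin.sum_univ_three, Matrix.add_apply, Matrix.smul_apply] at this
    first | linear_combination this | linear_combination -this
  have a22 : (-2) * B 0 2 + 1 * c 2 1 2 = 0 := by
    have := h1 (![0, 0, 1]) (![0, 0, 1])
    simp [D, Matrix.mulVec, dotProduct, Fin.sum_univ_three, Matrix.add_apply, Matrix.smul_apply] at this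
    first | linear_combination this | linear_combination -this
  have a30 : (-1) * B 0 0 + 2 * B 2 0 + 1 * B 2 2 + 1 * c 0 1 0 + 1 * c 2 1 0 = 0 := by
    have := h1 (![1, 0, 1]) (![1, 0, 0])
    simp [D, Matrix.mulVec, dotProduct, Fin.sum_univ_three, Matrix.add_apply, Matrix.smul_apply] at this
    first | linear_combination this | linear_combination -this
  have a31 : (-1) * B 0 1 + 1 * B 2 1 + 1 * c 0 1 1 + 1 * c 2 1 1 = 0 := by
    have := h1 (![1, 0, 1]) (![0, 1, 0])
    simp [D, Matrix.mulVec, dotProduct, Fin.sum_univ_three, Matrix.add_apply, Matrix.smul_apply] at this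
    first | linear_combination this | linear_combination -this
  have a32 : (-1) * B 0 0 + (-2) * B 0 2 + 1 * B 2 2 + 1 * c 0 1 2 + 1 * c 2 1 2 = 0 := by
    have := h1 (![1, 0, 1]) (![0, 0, 1])
    simp [D, Matrix.mulVec, dotProduct, Fin.sum_univ_three, Matrix.add_apply, Matrix.smul_apply] at this
    first | linear_combination this | linear_combination -this
  have a40 : (-1) * B 0 0 + 1 * B 2 1 + 1 * B 2 2 + 1 * c 1 1 0 + (-1) * c 1 2 0 + 1 * c 2 1 0 + (-1) * c 2 2 0 = 0 := by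
    have := h1 (![0, 1, 1]) (![1, 0, 0])
    simp [D, Matrix.mulVec, dotProduct, Fin.sum_univ_three, Matrix.add_apply, Matrix.smul_apply] at this
    first | linear_combination this | linear_combination -this
  have a41 : (-1) * B 0 1 + 1 * c 1 1 1 + (-1) * c 1 2 1 + 1 * c 2 1 1 + (-1) * c 2 2 1 = 0 := by
    have := h1 (![0, 1, 1]) (![0, 1, 0])
    simp [D, Matrix.mulVec, dotProduct, Fin.sum_univ_three, Matrix.add_apply, Matrix.smul_apply] at this
    first | linear_combination this | linear_combination -this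
  have a42 : (-1) * B 0 1 + (-2) * B 0 2 + 1 * c 1 1 2 + (-1) * c 1 2 2 + 1 * c 2 1 2 + (-1) * c 2 2 2 = 0 := by
    have := h1 (![0, 1, 1]) (![0, 0, 1])
    simp [D, Matrix.mulVec, dotProduct, Fin.sum_univ_three, Matrix.add_apply, Matrix.smul_apply] at this
    first | linear_combination this | linear_combination -this
  have u001 : 2 * c 0 2 1 + (-1) * c 1 2 0 = 0 := by
    have := h2 (![1, 0, 0]) (![1, 0, 0]) (![0, 1, 0])
    simp [D, Matrix.mulVec, dotProduct, Fin.sum_univ_three, Matrix.add_apply, Matrix.smul_apply] at this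
    first | linear_combination this | linear_combination -this
  have v001 : (-1) * B 2 1 + (-1) * c 0 0 0 + (-2) * c 0 1 1 + 1 * c 1 1 0 = 0 := by
    have := h3 (![1, 0, 0]) (![1, 0, 0]) (![0, 1, 0])
    simp [D, ZN, Matrix.mulVec, dotProduct, Fin.sum_univ_three, Matrix.add_apply, Matrix.smul_apply] at this
    first | linear_combination this | linear_combination -this
  have u002 : 1 * c 0 0 0 + 2 * c 0 2 2 + (-1) * c 2 2 0 = 0 := by
    have := h2 (![1, 0, 0]) (![1, 0, 0]) (![0, 0, 1])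
    simp [D, Matrix.mulVec, dotProduct, Fin.sum_univ_three, Matrix.add_apply, Matrix.smul_apply] at this
    first | linear_combination this | linear_combination -this
  have v002 : 1 * B 0 0 + (-1) * B 2 2 + (-2) * c 0 1 2 + 1 * c 2 1 0 = 0 := by
    have := h3 (![1, 0, 0]) (![1, 0, 0]) (![0, 0, 1])
    simp [D, ZN, Matrix.mulVec, dotProduct, Fin.sum_univ_three, Matrix.add_apply, Matrix.smul_apply] at this
    first | linear_combination this | linear_combination -this
  have u012 : 1 * c 0 0 1 + 1 * c 1 2 2 + (-1) * c 2 2 1 = 0 := by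
    have := h2 (![1, 0, 0]) (![0, 1, 0]) (![0, 0, 1])
    simp [D, Matrix.mulVec, dotProduct, Fin.sum_univ_three, Matrix.add_apply, Matrix.smul_apply] at this
    first | linear_combination this | linear_combination -this
  have v012 : 1 * c 0 0 2 + (-1) * c 1 1 2 + 1 * c 2 1 1 = 0 := by
    have := h3 (![1, 0, 0]) (![0, 1, 0]) (![0, 0, 1])
    simp [D, ZN, Matrix.mulVec, dotProduct, Fin.sum_univ_three, Matrix.add_apply, Matrix.smul_apply] at this
    first | linear_combination this | linear_combination -this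
  have u101 : 1 * c 1 2 1 = 0 := by
    have := h2 (![0, 1, 0]) (![1, 0, 0]) (![0, 1, 0])
    simp [D, Matrix.mulVec, dotProduct, Fin.sum_univ_three, Matrix.add_apply, Matrix.smul_apply] at this
    first | linear_combination this | linear_combination -this
  have v101 : 1 * c 0 0 1 + (-2) * c 1 0 0 + (-1) * c 1 1 1 = 0 := by
    have := h3 (![0, 1, 0]) (![1, 0, 0]) (![0, 1, 0])
    simp [D, ZN, Matrix.mulVec, dotProduct, Fin.sum_univ_three, Matrix.add_apply, Matrix.smul_apply] at this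
    first | linear_combination this | linear_combination -this
  have u102 : 1 * c 1 0 0 + 1 * c 1 2 2 = 0 := by
    have := h2 (![0, 1, 0]) (![1, 0, 0]) (![0, 0, 1])
    simp [D, Matrix.mulVec, dotProduct, Fin.sum_univ_three, Matrix.add_apply, Matrix.smul_apply] at this
    first | linear_combination this | linear_combination -this
  have v102 : 1 * B 0 1 + 1 * c 0 0 2 + (-1) * c 1 1 2 + (-1) * c 2 0 0 = 0 := by
    have := h3 (![0, 1, 0]) (![1, 0, 0]) (![0, 0, 1])
    simp [D, ZN, Matrix.mulVec, dotProduct, Fin.sum_univ_three, Matrix.add_apply, Matrix.smul_apply] at this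
    first | linear_combination this | linear_combination -this
  have u112 : 1 * c 1 0 1 = 0 := by
    have := h2 (![0, 1, 0]) (![0, 1, 0]) (![0, 0, 1])
    simp [D, Matrix.mulVec, dotProduct, Fin.sum_univ_three, Matrix.add_apply, Matrix.smul_apply] at this
    first | linear_combination this | linear_combination -this
  have v112 : 2 * c 1 0 2 + (-1) * c 2 0 1 = 0 := by
    have := h3 (![0, 1, 0]) (![0, 1, 0]) (![0, 0, 1])
    simp [D, ZN, Matrix.mulVec, dotProduct, Fin.sum_univ_three, Matrix.add_apply, Matrix.smul_apply] at this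
    first | linear_combination this | linear_combination -this
  have u201 : (-1) * c 0 0 1 + 1 * c 1 0 0 + 1 * c 2 2 1 = 0 := by
    have := h2 (![0, 0, 1]) (![1, 0, 0]) (![0, 1, 0])
    simp [D, Matrix.mulVec, dotProduct, Fin.sum_univ_three, Matrix.add_apply, Matrix.smul_apply] at this
    first | linear_combination this | linear_combination -this
  have v201 : 1 * B 0 1 + (-1) * c 2 0 0 + (-1) * c 2 1 1 = 0 := by
    have := h3 (![0, 0, 1]) (![1, 0, 0]) (![0, 1, 0])
    simp [D, ZN, Matrix.mulVec, dotProduct, Fin.sum_univ_three, Matrix.add_apply, Matrix.smul_apply] at this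
    first | linear_combination this | linear_combination -this
  have u202 : (-1) * c 0 0 2 + 2 * c 2 0 0 + 1 * c 2 2 2 = 0 := by
    have := h2 (![0, 0, 1]) (![1, 0, 0]) (![0, 0, 1])
    simp [D, Matrix.mulVec, dotProduct, Fin.sum_univ_three, Matrix.add_apply, Matrix.smul_apply] at this
    first | linear_combination this | linear_combination -this
  have v202 : 2 * B 0 2 + (-1) * c 2 1 2 = 0 := by
    have := h3 (![0, 0, 1]) (![1, 0, 0]) (![0, 0, 1])
    simp [D, ZN, Matrix.mulVec, dotProduct, Fin.sum_univ_three, Matrix.add_apply, Matrix.smul_apply] at this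
    first | linear_combination this | linear_combination -this
  have u212 : (-1) * c 1 0 2 + 2 * c 2 0 1 = 0 := by
    have := h2 (![0, 0, 1]) (![0, 1, 0]) (![0, 0, 1])
    simp [D, Matrix.mulVec, dotProduct, Fin.sum_univ_three, Matrix.add_apply, Matrix.smul_apply] at this
    first | linear_combination this | linear_combination -this
  have v212 : 1 * c 2 0 2 = 0 := by
    have := h3 (![0, 0, 1]) (![0, 1, 0]) (![0, 0, 1])
    simp [D, ZN, Matrix.mulVec, dotProduct, Fin.sum_univ_three, Matrix.add_apply, Matrix.smul_apply] at this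
    first | linear_combination this | linear_combination -this
  have f0 : 1 * c 0 2 0 = 0 := by
    linear_combination (1) * a00 + (-1) * a10
  have g0 : 1 * c 1 2 0 = 0 := by
    linear_combination (-1) * a00
  have k0 : (-1) * c 0 0 0 + 1 * c 2 2 0 = 0 := by
    linear_combination (1) * a00 + (1) * a20 + (-2) * a21 + (2) * a31 + (-1) * a40 + (1) * v001
  have l0 : 1 * c 1 0 0 = 0 := by
    linear_combination (1/2) * a01 + (1/2) * a02 + (1/2) * a21 + (-1/2) * a41 + (1/2) * u012 + (-1/2) * v101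
  have n0 : 1 * c 2 0 0 = 0 := by
    linear_combination (-1) * a21 + (1) * v012 + (-1) * v102
  have f1 : 1 * c 0 2 1 = 0 := by
    linear_combination (1) * a01 + (-1) * a11
  have g1 : 1 * c 1 2 1 = 0 := by
    linear_combination (-1) * a01
  have k1 : (-1) * c 0 0 1 + 1 * c 2 2 1 = 0 := by
    linear_combination (-1) * a02 + (-1) * u012
  have l1 : 1 * c 1 0 1 = 0 := by
    linear_combination (1) * u112
  have n1 : 1 * c 2 0 1 = 0 := by
    linear_combination (1/3) * v112 + (2/3) * u212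
  have f2 : 1 * c 0 2 2 = 0 := by
    linear_combination (1) * a02 + (-1) * a12
  have g2 : 1 * c 1 2 2 = 0 := by
    linear_combination (-1) * a02
  have k2 : (-1) * c 0 0 2 + 1 * c 2 2 2 = 0 := by
    linear_combination (1) * a02 + (1) * a21 + (1) * a22 + (-1) * a42 + (-1) * v012
  have l2 : 1 * c 1 0 2 = 0 := by
    linear_combination (2/3) * v112 + (1/3) * u212
  have n2 : 1 * c 2 0 2 = 0 := by
    linear_combination (1) * v212
  simp only [D, Matrix.mulVec, dotProduct, Fin.sum_univ_three, Matrix.add_apply, Matrix.smul_apply, smul_eq_mul]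
  simp
  linear_combination (x 0 ^ 2 * t 0) * f0 + (x 0 * x 1 * t 0) * g0 + (x 0 * x 2 * t 0) * k0 + (-(x 1 * x 2 * t 0)) * l0 + (-(x 2 ^ 2 * t 0)) * n0 + (x 0 ^ 2 * t 1) * f1 + (x 0 * x 1 * t 1) * g1 + (x 0 * x 2 * t 1) * k1 + (-(x 1 * x 2 * t 1)) * l1 + (-(x 2 ^ 2 * t 1)) * n1 + (x 0 ^ 2 * t 2) * f2 + (x 0 * x 1 * t 2) * g2 + (x 0 * x 2 * t 2) * k2 + (-(x 1 * x 2 * t 2)) * l2 + (-(x 2 ^ 2 * t 2)) * n2

theorem m_II1_b {S : DatG W} {f : W →ₗ[ℂ] ℂ} {m : W →ₗ[ℂ] V3} {w1 e : W}
    (h : MD S f m w1 e (![0, 1, 0]) (![0, 0, 1])) (hm1 : m w1 = ![1, 0, 0])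
    (hA : ∀ y, S.A y = !![0, 0, 0; -(m y 2), 0, m y 0; 0, 0, 0])
    (hB : ∀ w, f w = 0 → S.B w = S.A w) (hm2 : m e 2 ≠ 0) :
    ∀ x t, kap S.C (![0, 1, 0]) x t = 0 := by
  obtain ⟨e', he', hme0, hme2⟩ : ∃ e', f e' = 1 ∧ m e' 0 = 0 ∧ m e' 2 ≠ 0 :=
    ⟨e - (m e 0) • w1, by simp [h.he, h.hw1], by simp [hm1], by simpa [hm1] using hm2⟩
  have h' := h.shift e' he'
  have hA1 : S.A w1 = !![0, 0, 0; 0, 0, 1; 0, 0, 0] := by rw [hA, hm1]; simp
  have hB1 : S.B w1 = !![0, 0, 0; 0, 0, 1; 0, 0, 0] := by rw [hB w1 h.hw1, hA1]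
  have hAe : S.A e' = (m e' 2) • NN := by
    rw [hA, hme0, NN]
    ext i j
    fin_cases i <;> fin_cases j <;> simp
  have hC : ∀ x, S.C x = x 0 • S.C (Pi.single 0 1) + x 1 • S.C (Pi.single 1 1) +
      x 2 • S.C (Pi.single 2 1) := by
    intro x
    rw [← map_smul, ← map_smul, ← map_smul, ← map_add, ← map_add]
    congr 1
    funext i
    fin_cases i <;> simp
  -- (g4)
  have G4 : ∀ x t, D x (![1, 0, 0]) (S.C x *ᵥ t) +
      x 2 * (D t (![0, 1, 0]) (S.B e' *ᵥ x) + D x (![0, 1, 0]) (S.B e' *ᵥ t)) = 0 := by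
    intro x t
    have := g4 h.std.cl w1 e' x t
    rw [h.hb, h.hb, h.hw1, he', hm1, hA1, hB1, hAe, kap] at this
    simp [D, NN, Matrix.mulVec, dotProduct, Fin.sum_univ_three] at this ⊢
    linear_combination this
  -- (4) for w1
  have E4 : ∀ x t1 t2, x 2 * dkap S.C (![0, 1, 0]) x t1 t2 = 0 := by
    intro x t1 t2
    have := eq4' h.std.cl w1 x t1 t2
    rw [hA1, hB1] at this
    simp [-mul_eq_zero, D, dkap, Matrix.mulVec, dotProduct, Fin.sum_univ_three] at this ⊢
    linear_combination -this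
  have K1 : ∀ x t1 t2, dkap S.C (![0, 1, 0]) x t1 t2 = 0 := by
    have key : ∀ x t1 t2, x 2 ≠ 0 → dkap S.C (![0, 1, 0]) x t1 t2 = 0 := fun x t1 t2 hx =>
      (mul_eq_zero.mp (E4 x t1 t2)).resolve_left hx
    intro x t1 t2
    by_cases hx : x 2 = 0
    · have k1 := key (x + Pi.single 2 1) t1 t2 (by simp [hx])
      have k2 := key (Pi.single 2 1) t1 t2 (by simp)
      rw [dkap] at k1 k2 ⊢
      rw [map_add] at k1
      simp only [D, Matrix.mulVec, dotProduct, Fin.sum_univ_three, Matrix.add_apply,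
        Pi.add_apply] at k1 k2 ⊢
      linear_combination k1 - k2
    · exact key x t1 t2 hx
  -- (g2)(e',e')
  have K2 : ∀ x t1 t2, dkap S.C (![0, 0, 1]) x t1 t2 =
      D (ZN (S.B e') *ᵥ x) t1 t2 := by
    intro x t1 t2
    have h2 := g2 h.std.cl e' e' x t1 t2
    rw [h.hb, he', one_smul] at h2
    have h1 := K1 x t1 t2
    have e1 : dkap S.C (m e') x t1 t2 = m e' 1 * dkap S.C (![0, 1, 0]) x t1 t2 +
        m e' 2 * dkap S.C (![0, 0, 1]) x t1 t2 := by
      simp [dkap, D, hme0]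
      ring
    have e3 : D (Z S e' e' *ᵥ x) t1 t2 = m e' 2 *
        D (ZN (S.B e') *ᵥ x) t1 t2 := by
      have e4 : Z S e' e' = (m e' 2) • ZN (S.B e') := by
        rw [Z, hAe]
        exact ZN_eq (m e' 2) (S.B e')
      rw [e4]
      simp only [D, Matrix.mulVec, dotProduct, Fin.sum_univ_three, Matrix.smul_apply, smul_eq_mul]
      ring
    rw [e1, e3, h1, mul_zero, zero_add] at h2
    exact mul_left_cancel₀ hme2 h2
  intro x t
  rw [kap, hC]
  refine II1b_lin (fun i => S.C (Pi.single i 1)) (S.B e') ?_ ?_ ?_ x t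
  · intro x t
    have := G4 x t
    rw [hC] at this
    exact this
  · intro x t1 t2
    have := K1 x t1 t2
    rw [dkap, hC x, hC t1, hC t2] at this
    exact this
  · intro x t1 t2
    have := K2 x t1 t2
    rw [dkap, hC x, hC t1, hC t2] at this
    exact this

end Pool.Agent.Helper93.K3B
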