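import Pool.Agent.Helper93.K3B.II1

/-!
K3B / II2b: CASE M (II.2): coordinates `m(w1) = e_0`, `u = e_1`, `φ = (0,0,1)`, `z = x_2`;
`m_2 = 0`, `A_y = q(y) E02 + m_0(y) E12`.

`m_II2_div`: (g4)(w1,e), `Π(x) = D x e_1 (B_e x)`: `κ_0(x;t) = -z (dΠ_x(t) + q(e) z t_2)`: `div_of_kap`.
`m_II2_b`: `ker f = ℂ w1`, and `m_0(e) = 0` (replace `e` by `e - m_0(e) w1`).  After a gauge `C_2 = 0`
(`DivC`).  `eq4'` for `w1`: `dκ_1 = 0`, `κ_1 = -z C_0`.  (g2)(e,e): `m(e) = m_1(e) e_1`, so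
`Z S e e = 0` (both for `m_1(e) = 0` and `≠ 0`, as `dκ_1 = 0`), with `A_e = q E02`:
`Z = q !![-b20, -2 b21, b11 - b22; 0, b20, -b10; 0, 0, 0]` (`b = B_e`): `q = 0` or `B_e 2 0 = B_e 2 1 = 0`; in the second case `Row2 S`, `no_div`.
`q = 0`: `A_e = 0`, `A_y` in `ℂ E12`.  (g4)(w1,e): `C_1 = -dΠ` (as `κ_0 = z C_1`).  `eq4'` for `e`:
`d(D x (B_e x) (C dx)) = 0` and `D x (B_e x) (C t) = C_0 (x_1 b_2 - z b_1) + Π dΠ`, `b = B_e x`,
`Π = D x e_1 b = x_0 b_2 - x_2 b_0`: `d(P C_0) = 0`, `P = x_1 b_2 - z b_1`, and `d(z C_0) = 0`.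
Then `C_0 = 0` or `b_2 ∈ ℂ z` (z C_0 = dk, k = z² k2, C_0 = z dk2 + 2 k2 dz, (z dP - P dz) ∧ (z dk2 + 2 k2 dz) = 0,
on z = 0: P² k2 = 0; ...).  `b_2 ∈ ℂ z`: `Row2 S`, `no_div`.  `C_0 = 0`: `κ_1 = 0`: `m_II_end`.
-/

set_option autoImplicit false

namespace Pool.Agent.Helper93.K3B

open Matrix Pool.Agent.Helper93.K3A

variable {W : Type} [AddCommGroup W] [Module ℂ W]

/-- (g4)(w1,e) -/
private theorem ii2_g4 {S : DatG W} {f : W →ₗ[ℂ] ℂ} {m : W →ₗ[ℂ] V3} {w1 e : W}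
    (h : MD S f m w1 e (![0, 1, 0]) (![0, 0, 1])) (hm1 : m w1 = ![1, 0, 0])
    (hA : ∀ y, S.A y = !![0, 0, S.A y 0 2; 0, 0, m y 0; 0, 0, 0]) (x t : V3) :
    kap S.C (![1, 0, 0]) x t + x 2 * (t 0 * (S.B e *ᵥ x) 2 - t 2 * (S.B e *ᵥ x) 0 + x 0 * (S.B e *ᵥ t) 2 -
      x 2 * (S.B e *ᵥ t) 0 + S.A e 0 2 * x 2 * t 2) = 0 := by
  have h1 := g4 h.std.cl w1 e x t
  have hb : S.b w1 e - S.b e w1 = ![1, 0, 0] := by
    rw [h.hb, h.hb, h.he, h.hw1, one_smul, zero_smul, sub_zero, hm1]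
  rw [hb, h.A1, h.B1] at h1
  have hAe : S.A e *ᵥ t = ![S.A e 0 2 * t 2, m e 0 * t 2, 0] := by
    conv_lhs => rw [hA e]
    funext i
    fin_cases i <;> simp [Matrix.mulVec, dotProduct, Fin.sum_univ_three]
  have hv : ∀ r : V3, vecMulVec (![0, 1, 0]) (![0, 0, 1]) *ᵥ r = ![0, r 2, 0] := by
    intro r
    funext i
    fin_cases i <;> simp [Matrix.mulVec, dotProduct, Fin.sum_univ_three, vecMulVec_apply]
  rw [hAe, hv, hv] at h1
  simp only [D, Matrix.cons_val] at h1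
  linear_combination h1

theorem m_II2_div {S : DatG W} {f : W →ₗ[ℂ] ℂ} {m : W →ₗ[ℂ] V3} {w1 e : W}
    (h : MD S f m w1 e (![0, 1, 0]) (![0, 0, 1])) (hm1 : m w1 = ![1, 0, 0])
    (hA : ∀ y, S.A y = !![0, 0, S.A y 0 2; 0, 0, m y 0; 0, 0, 0]) : DivC S.C := by
  refine div_of_kap S.C fun x t hx => ?_
  have h1 := ii2_g4 h hm1 hA x t
  rw [hx, zero_mul, add_zero] at h1
  exact h1

/-- normalised case -/
private theorem ii2b_core {S : DatG W} {f : W →ₗ[ℂ] ℂ} {m : W →ₗ[ℂ] V3} {w1 e : W}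
    (h : MD S f m w1 e (![0, 1, 0]) (![0, 0, 1])) (hm1 : m w1 = ![1, 0, 0])
    (hm2 : ∀ y, m y 2 = 0) (hA : ∀ y, S.A y = !![0, 0, S.A y 0 2; 0, 0, m y 0; 0, 0, 0])
    (hW : ∀ w, f w = 0 → ∃ s : ℂ, w = s • w1) (hme : m e 0 = 0) (hC : ∀ x j, S.C x 2 j = 0) :
    False := by
  have hdec : ∀ w, ∃ s : ℂ, w = s • w1 + f w • e := by
    intro w
    obtain ⟨s, hs⟩ := hW (w - f w • e) (by rw [map_sub, map_smul, h.he, smul_eq_mul, mul_one, sub_self])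
    exact ⟨s, by rw [← hs, sub_add_cancel]⟩
  -- the case `b20 = b21 = 0`
  have hend : S.B e 2 0 = 0 → S.B e 2 1 = 0 → False := by
    intro h20 h21
    refine no_div h.std ⟨fun y j => ?_, fun w => ?_, fun y w => ?_⟩ (m_II2_div h hm1 hA)
    · rw [hA y]
      fin_cases j <;> simp
    · obtain ⟨s, hs⟩ := hdec w
      rw [hs, map_add, map_smul, map_smul, h.B1]
      constructor
      · simp [vecMulVec_apply, h20]
      · simp [vecMulVec_apply, h21]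
    · rw [h.hb, Pi.smul_apply, hm2, smul_zero]
  obtain ⟨C0, hC0⟩ : ∃ C0, C0 = S.C ![1, 0, 0] := ⟨_, rfl⟩
  obtain ⟨C1, hC1⟩ : ∃ C1, C1 = S.C ![0, 1, 0] := ⟨_, rfl⟩
  obtain ⟨C2, hC2⟩ : ∃ C2, C2 = S.C ![0, 0, 1] := ⟨_, rfl⟩
  have hCx : ∀ x : V3, S.C x = x 0 • C0 + x 1 • C1 + x 2 • C2 := by
    intro x
    rw [hC0, hC1, hC2, ← map_smul, ← map_smul, ← map_smul, ← map_add, ← map_add]
    congr 1
    funext i
    fin_cases i <;> simp
  have r0 : ∀ j, C0 2 j = 0 := fun j => by rw [hC0]; exact hC _ j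
  have r1 : ∀ j, C1 2 j = 0 := fun j => by rw [hC1]; exact hC _ j
  have r2 : ∀ j, C2 2 j = 0 := fun j => by rw [hC2]; exact hC _ j
  have hv : ∀ r : V3, vecMulVec (![0, 1, 0]) (![0, 0, 1]) *ᵥ r = ![0, r 2, 0] := by
    intro r
    funext i
    fin_cases i <;> simp [Matrix.mulVec, dotProduct, Fin.sum_univ_three, vecMulVec_apply]
  -- `dκ_1 = 0`
  have hk1 : ∀ x t1 t2 : V3, x 2 * dkap S.C (![0, 1, 0]) x t1 t2 = 0 := by
    intro x t1 t2
    have h1 := eq4' h.std.cl w1 x t1 t2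
    rw [h.A1, h.B1, hv, hv, hv] at h1
    simp only [D, dkap, Matrix.cons_val] at h1 ⊢
    linear_combination -h1
  have hk2 : ∀ t1 t2 : V3, dkap S.C (![0, 1, 0]) (![0, 0, 1]) t1 t2 = 0 := by
    intro t1 t2
    have h1 := hk1 (![0, 0, 1]) t1 t2
    simpa using h1
  have hkadd : ∀ x x' t1 t2 : V3, dkap S.C (![0, 1, 0]) (x + x') t1 t2 =
      dkap S.C (![0, 1, 0]) x t1 t2 + dkap S.C (![0, 1, 0]) x' t1 t2 := by
    intro x x' t1 t2
    simp only [dkap, D, map_add, Matrix.add_mulVec, Pi.add_apply]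
    ring
  have hk3 : ∀ x t1 t2 : V3, dkap S.C (![0, 1, 0]) x t1 t2 = 0 := by
    intro x t1 t2
    by_cases hx : x 2 = 0
    · have h1 := hk1 (x + ![0, 0, 1]) t1 t2
      rw [hkadd, hk2, add_zero] at h1
      have h2 : (x + ![0, 0, 1] : V3) 2 = 1 := by simp [hx]
      rw [h2, one_mul] at h1
      exact h1
    · exact (mul_eq_zero.mp (hk1 x t1 t2)).resolve_left hx
  -- (g2)(e,e)
  have hZ : ∀ x : V3, Z S e e *ᵥ x = 0 := by
    intro x
    apply eq_zero_of_D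
    intro t1 t2
    rw [← g2 h.std.cl e e x t1 t2, h.hb, h.he, one_smul]
    have hm : m e = m e 1 • ![0, 1, 0] := by
      funext i
      fin_cases i <;> simp [hme, hm2]
    rw [hm]
    have h1 := hk3 x t1 t2
    have h2 : dkap S.C (m e 1 • ![0, 1, 0]) x t1 t2 = m e 1 * dkap S.C (![0, 1, 0]) x t1 t2 := by
      simp only [dkap, D, Pi.smul_apply, smul_eq_mul]
      ring
    rw [h2, h1, mul_zero]
  have hAe : S.A e = !![0, 0, S.A e 0 2; 0, 0, 0; 0, 0, 0] := by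
    have h1 := hA e
    rw [hme] at h1
    exact h1
  obtain ⟨q, hq⟩ : ∃ q, q = S.A e 0 2 := ⟨_, rfl⟩
  rw [← hq] at hAe
  have hZ0 : q * S.B e 2 0 = 0 := by
    have h1 := congrFun (hZ (![1, 0, 0])) 0
    simp [Z, K3A.adjp, e2p, hAe, Matrix.mulVec, Matrix.mul_apply, Matrix.vecMul, dotProduct, Fin.sum_univ_three,
      Matrix.trace, Matrix.one_apply] at h1
    simpa using h1
  have hZ1 : q * S.B e 2 1 = 0 := by
    have h1 := congrFun (hZ (![0, 1, 0])) 0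
    simp [Z, K3A.adjp, e2p, hAe, Matrix.mulVec, Matrix.mul_apply, Matrix.vecMul, dotProduct, Fin.sum_univ_three,
      Matrix.trace, Matrix.one_apply] at h1
    rcases h1 with h1 | h1
    · rw [h1, zero_mul]
    · rw [h1, mul_zero]
  by_cases hq0 : q = 0
  swap
  · exact hend ((mul_eq_zero.mp hZ0).resolve_left hq0) ((mul_eq_zero.mp hZ1).resolve_left hq0)
  rw [hq0] at hAe
  have hAe0 : S.A e = 0 := by
    rw [hAe]
    ext i j
    fin_cases i <;> fin_cases j <;> simp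
  have hq' : S.A e 0 2 = 0 := by rw [hAe0]; rfl
  obtain ⟨B, hB⟩ : ∃ B, B = S.B e := ⟨_, rfl⟩
  rw [← hB] at hend
  -- `C_1 = - dΠ`
  have hg : ∀ x t : V3, x 2 * ((S.C x *ᵥ t) 1 + (t 0 * (B *ᵥ x) 2 - t 2 * (B *ᵥ x) 0 + x 0 * (B *ᵥ t) 2 -
      x 2 * (B *ᵥ t) 0)) = 0 := by
    intro x t
    have h1 := ii2_g4 h hm1 hA x t
    rw [hq', ← hB] at h1
    have h2 : (S.C x *ᵥ t) 2 = 0 := by
      simp [Matrix.mulVec, dotProduct, Fin.sum_univ_three, hC]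
    simp only [kap, D, Matrix.cons_val, h2] at h1
    linear_combination h1
  have a20 := hg (![0, 0, 1]) (![1, 0, 0])
  have a21 := hg (![0, 0, 1]) (![0, 1, 0])
  have a22 := hg (![0, 0, 1]) (![0, 0, 1])
  have a00 := hg (![1, 0, 1]) (![1, 0, 0])
  have a01 := hg (![1, 0, 1]) (![0, 1, 0])
  have a02 := hg (![1, 0, 1]) (![0, 0, 1])
  have a10 := hg (![0, 1, 1]) (![1, 0, 0])
  have a11 := hg (![0, 1, 1]) (![0, 1, 0])
  have a12 := hg (![0, 1, 1]) (![0, 0, 1])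
  simp only [hCx, Matrix.mulVec, dotProduct, Fin.sum_univ_three, Matrix.add_apply, Matrix.smul_apply,
    smul_eq_mul, Matrix.cons_val] at a20 a21 a22 a00 a01 a02 a10 a11 a12
  have c20 : C2 1 0 = B 0 0 - B 2 2 := by linear_combination a20
  have c21 : C2 1 1 = B 0 1 := by linear_combination a21
  have c22 : C2 1 2 = 2 * B 0 2 := by linear_combination a22
  have c00 : C0 1 0 = -2 * B 2 0 := by linear_combination a00 - a20
  have c01 : C0 1 1 = -B 2 1 := by linear_combination a01 - a21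
  have c02 : C0 1 2 = B 0 0 - B 2 2 := by linear_combination a02 - a22
  have c10 : C1 1 0 = -B 2 1 := by linear_combination a10 - a20
  have c11 : C1 1 1 = 0 := by linear_combination a11 - a21
  have c12 : C1 1 2 = B 0 1 := by linear_combination a12 - a22
  -- `dκ_1 = 0`
  have k001 := hk3 (![1, 0, 0]) (![1, 0, 0]) (![0, 1, 0])
  have k002 := hk3 (![1, 0, 0]) (![1, 0, 0]) (![0, 0, 1])
  have k012 := hk3 (![1, 0, 0]) (![0, 1, 0]) (![0, 0, 1])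
  have k101 := hk3 (![0, 1, 0]) (![1, 0, 0]) (![0, 1, 0])
  have k102 := hk3 (![0, 1, 0]) (![1, 0, 0]) (![0, 0, 1])
  have k112 := hk3 (![0, 1, 0]) (![0, 1, 0]) (![0, 0, 1])
  have k201 := hk3 (![0, 0, 1]) (![1, 0, 0]) (![0, 1, 0])
  have k202 := hk3 (![0, 0, 1]) (![1, 0, 0]) (![0, 0, 1])
  have k212 := hk3 (![0, 0, 1]) (![0, 1, 0]) (![0, 0, 1])
  simp only [dkap, D, hCx, Matrix.mulVec, dotProduct, Fin.sum_univ_three, Matrix.add_apply, Matrix.smul_apply,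
    smul_eq_mul, Matrix.cons_val, r0, r1, r2] at k001 k002 k012 k101 k102 k112 k201 k202 k212
  have d00 : C0 0 0 = 0 := by linear_combination k002
  have d01 : C0 0 1 = 0 := by linear_combination k012
  have d10 : C1 0 0 = 0 := by linear_combination k102
  have d11 : C1 0 1 = 0 := by linear_combination k112
  have d02 : C0 0 2 = 2 * C2 0 0 := by linear_combination -k202
  have d12 : C1 0 2 = 2 * C2 0 1 := by linear_combination -k212
  obtain ⟨α, hα⟩ : ∃ α, α = C2 0 0 := ⟨_, rfl⟩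
  obtain ⟨β, hβ⟩ : ∃ β, β = C2 0 1 := ⟨_, rfl⟩
  obtain ⟨γ, hγ⟩ : ∃ γ, γ = C2 0 2 := ⟨_, rfl⟩
  rw [← hα] at d02
  rw [← hβ] at d12
  -- `eq4'` for `e`
  have hE : ∀ x t1 t2 : V3, (D t1 (B *ᵥ x) (S.C x *ᵥ t2) + D x (B *ᵥ t1) (S.C x *ᵥ t2)
        + D x (B *ᵥ x) (S.C t1 *ᵥ t2))
      - (D t2 (B *ᵥ x) (S.C x *ᵥ t1) + D x (B *ᵥ t2) (S.C x *ᵥ t1)
        + D x (B *ᵥ x) (S.C t2 *ᵥ t1)) = 0 := by
    intro x t1 t2
    have h1 := eq4' h.std.cl e x t1 t2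
    rw [hAe0, Matrix.zero_mulVec, Matrix.zero_mulVec, ← hB] at h1
    rw [← h1]
    simp [D]
  have e1 := hE (![0, 0, 1]) (![1, 0, 0]) (![0, 1, 0])
  have e2 := hE (![1, 0, 1]) (![1, 0, 0]) (![0, 1, 0])
  have e3 := hE (![0, 1, 1]) (![1, 0, 0]) (![0, 1, 0])
  have e4 := hE (![0, 1, 0]) (![0, 1, 0]) (![0, 0, 1])
  have e5 := hE (![0, 1, 1]) (![1, 0, 0]) (![0, 0, 1])
  have e6 := hE (![0, 0, 1]) (![1, 0, 0]) (![0, 0, 1])
  have e7 := hE (![0, 1, 1]) (![0, 1, 0]) (![0, 0, 1])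
  have e8 := hE (![0, 0, 1]) (![0, 1, 0]) (![0, 0, 1])
  simp only [D, hCx, Matrix.mulVec, dotProduct, Fin.sum_univ_three, Matrix.add_apply, Matrix.smul_apply,
    smul_eq_mul, Matrix.cons_val, r0, r1, r2, c20, c21, c22, c00, c01, c02, c10, c11, c12, d00, d01, d10, d11,
    d02, d12, ← hα, ← hβ, ← hγ] at e1 e2 e3 e4 e5 e6 e7 e8
  have f1 : α * B 2 0 = 0 := by linear_combination e1 - e2
  have f2 : β * B 2 0 - 2 * α * B 2 1 = 0 := by linear_combination e3 - e1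
  have f3 : β * B 2 1 = 0 := by linear_combination (1 / 5) * e4
  have f4 : γ * B 2 0 + 2 * β * B 2 0 - 2 * β * B 1 0 + α * B 2 1 = 0 := by linear_combination e5 - e6
  have f5 : 2 * γ * B 2 1 + β * (2 * B 2 2 - 2 * B 1 1 + 5 * B 2 1) = 0 := by linear_combination e7 - e8
  by_cases hα0 : α = 0
  swap
  · have g1 := (mul_eq_zero.mp f1).resolve_left hα0
    have g2 : α * B 2 1 = 0 := by linear_combination (-1 / 2) * f2 + (1 / 2) * β * g1
    exact hend g1 ((mul_eq_zero.mp g2).resolve_left hα0)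
  by_cases hβ0 : β = 0
  swap
  · have g1 : β * B 2 0 = 0 := by linear_combination f2 + 2 * B 2 1 * hα0
    exact hend ((mul_eq_zero.mp g1).resolve_left hβ0) ((mul_eq_zero.mp f3).resolve_left hβ0)
  by_cases hγ0 : γ = 0
  swap
  · have g1 : γ * B 2 0 = 0 := by
      linear_combination f4 - (2 * B 2 0 - 2 * B 1 0) * hβ0 - B 2 1 * hα0
    have g2 : γ * B 2 1 = 0 := by
      linear_combination (1 / 2) * f5 - (1 / 2) * (2 * B 2 2 - 2 * B 1 1 + 5 * B 2 1) * hβ0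
    exact hend ((mul_eq_zero.mp g1).resolve_left hγ0) ((mul_eq_zero.mp g2).resolve_left hγ0)
  refine m_II_end h.std f e h.he m h.hb (fun y => ?_) (fun w hw => ?_) (fun x t => ?_)
  · obtain ⟨s, hs⟩ := hdec y
    refine ⟨![0, 0, s], ?_⟩
    conv_lhs => rw [hs, map_add, map_smul, map_smul, h.A1, hAe0]
    ext i j
    fin_cases i <;> fin_cases j <;> simp [vecMulVec_apply]
  · obtain ⟨s, hs⟩ := hW w hw
    refine ⟨![0, 0, s], ?_⟩
    conv_lhs => rw [hs, map_smul, h.B1]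
    ext i j
    fin_cases i <;> fin_cases j <;> simp [vecMulVec_apply]
  · rw [hα0] at d02 hα
    rw [hβ0] at d12 hβ
    rw [hγ0] at hγ
    simp only [kap, D, hCx, Matrix.mulVec, dotProduct, Fin.sum_univ_three, Matrix.add_apply,
      Matrix.smul_apply, smul_eq_mul, Matrix.cons_val, r0, r1, r2, d00, d01, d10, d11, d02, d12, ← hα, ← hβ,
      ← hγ]
    ring

theorem m_II2_b {S : DatG W} {f : W →ₗ[ℂ] ℂ} {m : W →ₗ[ℂ] V3} {w1 e : W}
    (h : MD S f m w1 e (![0, 1, 0]) (![0, 0, 1])) (hm1 : m w1 = ![1, 0, 0])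
    (hm2 : ∀ y, m y 2 = 0) (hA : ∀ y, S.A y = !![0, 0, S.A y 0 2; 0, 0, m y 0; 0, 0, 0])
    (hW : ∀ w, f w = 0 → ∃ s : ℂ, w = s • w1) : False := by
  obtain ⟨ζ, hζ⟩ := m_II2_div h hm1 hA
  have he' : f (e - m e 0 • w1) = 1 := by
    rw [map_sub, map_smul, h.he, h.hw1, smul_zero, sub_zero]
  have h' := (h.shift (e - m e 0 • w1) he').gauge 0 (by simp) (-ζ)
  refine ii2b_core h' hm1 hm2 hA hW ?_ ?_
  · rw [map_sub, map_smul, hm1]
    simp
  · intro x j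
    have h1 := hζ x (Pi.single j 1)
    rw [Matrix.mulVec_single_one, dotProduct_single, mul_one] at h1
    have h2 : (gaugeG S 0 (-ζ)).C x = S.C x + vecMulVec x (-ζ) := rfl
    have h3 : S.C x 2 j = x 2 * ζ j := h1
    rw [h2, Matrix.add_apply, vecMulVec_apply, h3, Pi.neg_apply]
    ring

end Pool.Agent.Helper93.K3B
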