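import Pool.Agent.Helper93.K3B.Eqs
import Pool.Agent.Helper93.K3A.Inv

/-!
K3B / Inv: invariance under gauge, change of coordinates in `U` and the `L`-gauge; the
contradictions with `PR`.  Compare Helper93/K3A/Inv.lean (all proofs there carry over).
-/

set_option autoImplicit false

namespace Pool.Agent.Helper93.K3B

open Matrix Pool.Agent.Helper93.K3A

section
variable {W : Type} [AddCommGroup W] [Module ℂ W]

theorem eta_gaugeG (S : DatG W) (ζ : W →ₗ[ℂ] ℂ) (k : V3) (x : V3) (y : W) (t : V3) (w : W) :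
    etaG (gaugeG S ζ k) x y t w = etaG S x y t w + (ζ w + k ⬝ᵥ t) • x := by
  have h1 : (gaugeG S ζ k).C x = S.C x + vecMulVec x k := rfl
  have h2 : (gaugeG S ζ k).A y = S.A y := rfl
  have h3 : (gaugeG S ζ k).B w = S.B w + ζ w • (1 : M3) := rfl
  have h5 : (gaugeG S ζ k).b y w = S.b y w := rfl
  rw [etaG, etaG, h1, h2, h3, h5, Matrix.add_mulVec, Matrix.add_mulVec, Matrix.smul_mulVec,
    Matrix.one_mulVec]
  have h4 : vecMulVec x k *ᵥ t = (k ⬝ᵥ t) • x := by
    ext i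
    simp only [Matrix.mulVec, dotProduct, vecMulVec_apply, Pi.smul_apply, smul_eq_mul,
      Fin.sum_univ_three]
    ring
  rw [h4, add_smul]
  abel

theorem eta_conjG (S : DatG W) {P Q : M3} (hPQ : P * Q = 1) (x : V3) (y : W) (t : V3) (w : W) :
    etaG (conjG S P Q) x y t w = P *ᵥ etaG S (Q *ᵥ x) y (Q *ᵥ t) w := by
  have h1 : (conjG S P Q).C x = P * S.C (Q *ᵥ x) * Q := rfl
  have h2 : (conjG S P Q).A y = P * S.A y * Q := rfl
  have h3 : (conjG S P Q).B w = P * S.B w * Q := rfl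
  have h4 : (conjG S P Q).b y w = P *ᵥ S.b y w := rfl
  rw [etaG, etaG, h1, h2, h3, h4]
  simp only [Matrix.mulVec_add, Matrix.mulVec_mulVec, Matrix.mul_assoc]

private theorem vmv (a l t : V3) : vecMulVec a l *ᵥ t = (l ⬝ᵥ t) • a := by
  ext i
  simp only [Matrix.mulVec, dotProduct, vecMulVec_apply, Pi.smul_apply, smul_eq_mul,
    Fin.sum_univ_three]
  ring

theorem eta_lgG (S : DatG W) (e : W) (l : V3) (x : V3) (y : W) (t : V3) (w : W) :
    etaG (lgG S e l) x y t w = etaG S x (y + (l ⬝ᵥ x) • e) t (w + (l ⬝ᵥ t) • e) := by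
  have h1 : (lgG S e l).C x = S.C x + (l ⬝ᵥ x) • S.A e + vecMulVec (S.B e *ᵥ x) l
            + (l ⬝ᵥ x) • vecMulVec (S.b e e) l := rfl
  have h2 : (lgG S e l).A y = S.A y + vecMulVec (S.b y e) l := rfl
  have h3 : (lgG S e l).B w = S.B w + vecMulVec (S.b e w) l := rfl
  have h4 : (lgG S e l).b y w = S.b y w := rfl
  rw [etaG, etaG, h1, h2, h3, h4]
  simp only [map_add, map_smul, LinearMap.add_apply, LinearMap.smul_apply, Matrix.add_mulVec,
    Matrix.smul_mulVec, vmv]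
  module

private theorem eta_gaugeG' (S : DatG W) (ζ : W →ₗ[ℂ] ℂ) (k : V3) (x : V3) (y : W) (t : V3)
    (w : W) (i : Fin 3) :
    etaG (gaugeG S ζ k) x y t w i = etaG S x y t w i + (ζ w + k ⬝ᵥ t) * x i := by
  rw [eta_gaugeG]; rfl

private theorem dth_gaugeG (S : DatG W) (ζ : W →ₗ[ℂ] ℂ) (k : V3) (x : V3) (y : W) (t1 : V3)
    (w1 : W) (t2 : V3) (w2 : W) (t3 : V3) (w3 : W) :
    dthG (gaugeG S ζ k) x y t1 w1 t2 w2 t3 w3 = dthG S x y t1 w1 t2 w2 t3 w3 := by
  simp only [dthG, D, eta_gaugeG']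
  ring

private theorem xi_gaugeG (S : DatG W) (ζ : W →ₗ[ℂ] ℂ) (k : V3) (u x : V3) (y : W) (t : V3)
    (w : W) : xiG (gaugeG S ζ k) u x y t w = xiG S u x y t w := by
  simp only [xiG, D, eta_gaugeG']
  ring

theorem StdG.gauge {S : DatG W} (h : StdG S) (ζ : W →ₗ[ℂ] ℂ) (k : V3) : StdG (gaugeG S ζ k) := by
  refine ⟨?_, ?_, ?_, h.dim⟩
  · intro x y t1 w1 t2 w2 t3 w3
    rw [dth_gaugeG, dth_gaugeG, dth_gaugeG]
    exact h.cl x y t1 w1 t2 w2 t3 w3
  · intro w hw hb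
    obtain ⟨c, hc⟩ := hw
    apply h.nc w
    · refine ⟨c - ζ w, ?_⟩
      have h3 : (gaugeG S ζ k).B w = S.B w + ζ w • (1 : M3) := rfl
      rw [h3] at hc
      rw [sub_smul, ← hc]
      abel
    · intro y
      exact hb y
  · intro u hu ν hν
    apply h.pr u hu ν
    intro z v v'
    have := hν z v v'
    rw [xi_gaugeG, xi_gaugeG] at this
    exact this

private theorem QP {P Q : M3} (hPQ : P * Q = 1) : Q * P = 1 := mul_eq_one_comm.mp hPQ

private theorem PQv {P Q : M3} (hPQ : P * Q = 1) (x : V3) : P *ᵥ (Q *ᵥ x) = x := by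
  rw [Matrix.mulVec_mulVec, hPQ, Matrix.one_mulVec]

private theorem detP {P Q : M3} (hPQ : P * Q = 1) : P.det ≠ 0 := by
  intro h
  have := congrArg Matrix.det hPQ
  rw [Matrix.det_mul, h, zero_mul, Matrix.det_one] at this
  exact zero_ne_one this

private theorem dth_conjG (S : DatG W) {P Q : M3} (hPQ : P * Q = 1) (x : V3) (y : W) (t1 : V3)
    (w1 : W) (t2 : V3) (w2 : W) (t3 : V3) (w3 : W) :
    dthG (conjG S P Q) x y t1 w1 t2 w2 t3 w3
      = P.det * dthG S (Q *ᵥ x) y (Q *ᵥ t1) w1 (Q *ᵥ t2) w2 (Q *ᵥ t3) w3 := by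
  simp only [dthG, eta_conjG S hPQ]
  have e1 : ∀ a b, D t1 (P *ᵥ a) (P *ᵥ b) = P.det * D (Q *ᵥ t1) a b := by
    intro a b
    rw [← D_mulVec, PQv hPQ]
  have e2 : ∀ a b, D x (P *ᵥ a) (P *ᵥ b) = P.det * D (Q *ᵥ x) a b := by
    intro a b
    rw [← D_mulVec, PQv hPQ]
  rw [e1, e2, e2]
  ring

private theorem xi_conjG (S : DatG W) {P Q : M3} (hPQ : P * Q = 1) (u x : V3) (y : W) (t : V3)
    (w : W) :
    xiG (conjG S P Q) u x y t w = P.det * xiG S (Q *ᵥ u) (Q *ᵥ x) y (Q *ᵥ t) w := by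
  simp only [xiG, eta_conjG S hPQ]
  rw [← D_mulVec, PQv hPQ, PQv hPQ]

/-- change of coordinates on `U × W` -/
private def LL (P : M3) : (V3 × W) →ₗ[ℂ] (V3 × W) :=
  LinearMap.prodMap P.mulVecLin LinearMap.id

private theorem LL_apply (P : M3) (z : V3 × W) : LL P z = (P *ᵥ z.1, z.2) := rfl

theorem StdG.conj {S : DatG W} (h : StdG S) {P Q : M3} (hPQ : P * Q = 1) :
    StdG (conjG S P Q) := by
  have hQP := QP hPQ
  refine ⟨?_, ?_, ?_, h.dim⟩
  · intro x y t1 w1 t2 w2 t3 w3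
    rw [dth_conjG S hPQ, dth_conjG S hPQ, dth_conjG S hPQ, ← mul_add, ← mul_add,
      h.cl (Q *ᵥ x) y (Q *ᵥ t1) w1 (Q *ᵥ t2) w2 (Q *ᵥ t3) w3, mul_zero]
  · intro w hw hb
    obtain ⟨c, hc⟩ := hw
    apply h.nc w
    · refine ⟨c, ?_⟩
      have h3 : (conjG S P Q).B w = P * S.B w * Q := rfl
      rw [h3] at hc
      have h4 : Q * (P * S.B w * Q) * P = Q * (c • (1 : M3)) * P := by rw [hc]
      have h5 : Q * (P * S.B w * Q) * P = S.B w := by
        calc Q * (P * S.B w * Q) * P = (Q * P) * S.B w * (Q * P) := by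
              simp only [Matrix.mul_assoc]
          _ = S.B w := by rw [hQP, Matrix.one_mul, Matrix.mul_one]
      rw [h5] at h4
      rw [h4, Matrix.mul_smul, Matrix.mul_one, Matrix.smul_mul, hQP]
    · intro y
      have h6 : P *ᵥ S.b y w = 0 := hb y
      rw [← PQv hQP (S.b y w), h6, Matrix.mulVec_zero]
  · intro u hu ν hν
    have hu' : Q *ᵥ u ≠ 0 := by
      intro h0
      apply hu
      rw [← PQv hPQ u, h0, Matrix.mulVec_zero]
    have key := h.pr (Q *ᵥ u) hu' (ν.compl₁₂ (LL P) (LL P)) (by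
      intro z v v'
      have := hν (LL P z) (LL P v) (LL P v')
      simp only [LL_apply] at this
      rw [xi_conjG S hPQ, xi_conjG S hPQ, PQv hQP, PQv hQP, PQv hQP] at this
      simp only [LinearMap.compl₁₂_apply, LL_apply]
      apply mul_left_cancel₀ (detP hPQ)
      linear_combination this)
    apply LinearMap.ext
    intro z
    apply LinearMap.ext
    intro v
    have h1 := LinearMap.congr_fun (LinearMap.congr_fun key (Q *ᵥ z.1, z.2)) (Q *ᵥ v.1, v.2)
    simp only [LinearMap.compl₁₂_apply, LL_apply, LinearMap.zero_apply, PQv hPQ] at h1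
    simpa using h1

/-- the shear `(x, y) ↦ (x, y - (l·x) e)` -/
private def SH (e : W) (l : V3) : (V3 × W) →ₗ[ℂ] (V3 × W) where
  toFun z := (z.1, z.2 - (l ⬝ᵥ z.1) • e)
  map_add' z z' := by
    ext1
    · rfl
    · simp only [Prod.snd_add, Prod.fst_add, dotProduct_add]
      module
  map_smul' c z := by
    ext1
    · rfl
    · simp only [Prod.smul_snd, Prod.smul_fst, dotProduct_smul, smul_eq_mul, RingHom.id_apply]
      module

private theorem SH_apply (e : W) (l : V3) (z : V3 × W) :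
    SH e l z = (z.1, z.2 - (l ⬝ᵥ z.1) • e) := rfl

private theorem dth_lgG (S : DatG W) (e : W) (l : V3) (x : V3) (y : W) (t1 : V3)
    (w1 : W) (t2 : V3) (w2 : W) (t3 : V3) (w3 : W) :
    dthG (lgG S e l) x y t1 w1 t2 w2 t3 w3 = dthG S x (y + (l ⬝ᵥ x) • e) t1 (w1 + (l ⬝ᵥ t1) • e)
      t2 (w2 + (l ⬝ᵥ t2) • e) t3 (w3 + (l ⬝ᵥ t3) • e) := by
  simp only [dthG, eta_lgG]

private theorem xi_lgG (S : DatG W) (e : W) (l : V3) (u x : V3) (y : W) (t : V3) (w : W) :
    xiG (lgG S e l) u x y t w = xiG S u x (y + (l ⬝ᵥ x) • e) t (w + (l ⬝ᵥ t) • e) := by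
  simp only [xiG, eta_lgG]

theorem StdG.lg {S : DatG W} (h : StdG S) (e : W) (l : V3) : StdG (lgG S e l) := by
  refine ⟨?_, ?_, ?_, h.dim⟩
  · intro x y t1 w1 t2 w2 t3 w3
    rw [dth_lgG, dth_lgG, dth_lgG]
    exact h.cl _ _ _ _ _ _ _ _
  · intro w hw hb
    have hb' : ∀ y, S.b y w = 0 := fun y => hb y
    apply h.nc w _ hb'
    obtain ⟨c, hc⟩ := hw
    refine ⟨c, ?_⟩
    have h3 : (lgG S e l).B w = S.B w + vecMulVec (S.b e w) l := rfl
    rw [h3, hb' e] at hc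
    rw [← hc]
    ext i j
    simp
  · intro u hu ν hν
    have key := h.pr u hu (ν.compl₁₂ (SH e l) (SH e l)) (by
      intro z v v'
      have := hν (SH e l z) (SH e l v) (SH e l v')
      simp only [SH_apply] at this
      rw [xi_lgG, xi_lgG] at this
      simp only [sub_add_cancel] at this
      simp only [LinearMap.compl₁₂_apply, SH_apply]
      exact this)
    apply LinearMap.ext
    intro z
    apply LinearMap.ext
    intro v
    have h1 := LinearMap.congr_fun (LinearMap.congr_fun key (z.1, z.2 + (l ⬝ᵥ z.1) • e))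
      (v.1, v.2 + (l ⬝ᵥ v.1) • e)
    simp only [LinearMap.compl₁₂_apply, SH_apply, LinearMap.zero_apply, add_sub_cancel_right] at h1
    simpa using h1

/-- the functional `(t, w) ↦ ζ w + k ⬝ᵥ t` -/
private def gf (ζ : W →ₗ[ℂ] ℂ) (k : V3) : (V3 × W) →ₗ[ℂ] ℂ where
  toFun v := ζ v.2 + k ⬝ᵥ v.1
  map_add' v v' := by
    simp only [Prod.snd_add, Prod.fst_add, map_add, dotProduct_add]
    ring
  map_smul' c v := by
    simp only [Prod.smul_snd, Prod.smul_fst, map_smul, dotProduct_smul, smul_eq_mul,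
      RingHom.id_apply]
    ring

private theorem exists_ker (φ : V3) : ∃ u : V3, u ≠ 0 ∧ φ ⬝ᵥ u = 0 := by
  by_cases h : φ 0 = 0
  · refine ⟨![1, 0, 0], ?_, ?_⟩
    · intro h1
      have := congrFun h1 0
      simp at this
    · simp [dotProduct, Fin.sum_univ_three, h]
  · refine ⟨![φ 1, -φ 0, 0], ?_, ?_⟩
    · intro h1
      have := congrFun h1 1
      simp at this
      exact h this
    · simp [dotProduct, Fin.sum_univ_three]
      ring

private theorem exists_one {φ : V3} (hφ : φ ≠ 0) : ∃ p : V3, φ ⬝ᵥ p = 1 := by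
  obtain ⟨i, hi⟩ := Function.ne_iff.mp hφ
  refine ⟨Pi.single i (φ i)⁻¹, ?_⟩
  rw [dotProduct_single]
  exact mul_inv_cancel₀ hi

private theorem D_factor (φ x u q p : V3) (hu : φ ⬝ᵥ u = 0) (hq : φ ⬝ᵥ q = 0)
    (hp : φ ⬝ᵥ p = 1) : D x u q = (φ ⬝ᵥ x) * D p u q := by
  simp only [dotProduct, Fin.sum_univ_three] at hu hq hp ⊢
  simp only [D]
  linear_combination (-(x 0 * (u 1 * q 2 - u 2 * q 1) + x 1 * (u 2 * q 0 - u 0 * q 2)
      + x 2 * (u 0 * q 1 - u 1 * q 0))) * hp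
    + (-(q 0 * (p 1 * x 2 - p 2 * x 1) + q 1 * (p 2 * x 0 - p 0 * x 2)
      + q 2 * (p 0 * x 1 - p 1 * x 0))) * hu
    + ((p 0 * (x 1 * u 2 - x 2 * u 1) + p 1 * (x 2 * u 0 - x 0 * u 2)
      + p 2 * (x 0 * u 1 - x 1 * u 0))) * hq

/-- a form `ξ_u` does not vanish identically -/
private theorem xi_ne {S : DatG W} (h : StdG S) (u : V3) (hu : u ≠ 0)
    (h0 : ∀ z v : V3 × W, xiG S u z.1 z.2 v.1 v.2 = 0) : False := by
  have key2 := h.pr u hu (LinearMap.smulRight (gf (W := W) 0 (Pi.single 0 1))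
      (gf (W := W) 0 (Pi.single 0 1))) (by
    intro z v v'
    rw [h0, h0, mul_zero, mul_zero])
  have h1 := LinearMap.congr_fun (LinearMap.congr_fun key2 ((Pi.single 0 1 : V3), 0))
    ((Pi.single 0 1 : V3), 0)
  have h2 : (LinearMap.smulRight (gf (W := W) 0 (Pi.single 0 1))
      (gf (W := W) 0 (Pi.single 0 1))) ((Pi.single 0 1 : V3), 0) ((Pi.single 0 1 : V3), 0)
      = (0 + (Pi.single 0 1 : V3) ⬝ᵥ (Pi.single 0 1 : V3)) *
        (0 + (Pi.single 0 1 : V3) ⬝ᵥ (Pi.single 0 1 : V3)) := rfl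
  have h3 : (Pi.single 0 1 : V3) ⬝ᵥ (Pi.single 0 1 : V3) = 1 := by
    rw [dotProduct_single, Pi.single_eq_same, mul_one]
  rw [h2, h3] at h1
  simp at h1

/-- `θ` has no linear factor `φ(x)`: no `φ` with `φ(η) = φ(x) ζ` -/
theorem no_factorG {S : DatG W} (h : StdG S) (φ : V3) (hφ : φ ≠ 0) (ζ : (V3 × W) →ₗ[ℂ] ℂ)
    (h0 : ∀ z v : V3 × W, φ ⬝ᵥ etaG S z.1 z.2 v.1 v.2 = (φ ⬝ᵥ z.1) * ζ v) : False := by
  obtain ⟨p, hp⟩ := exists_one hφ
  obtain ⟨u, hu, hφu⟩ := exists_ker φ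
  have hq : ∀ z v : V3 × W, φ ⬝ᵥ (etaG S z.1 z.2 v.1 v.2 - ζ v • z.1) = 0 := by
    intro z v
    rw [dotProduct_sub, h0, dotProduct_smul, smul_eq_mul]
    ring
  have hxi : ∀ z v : V3 × W, xiG S u z.1 z.2 v.1 v.2
      = (φ ⬝ᵥ z.1) * D p u (etaG S z.1 z.2 v.1 v.2 - ζ v • z.1) := by
    intro z v
    rw [← D_factor φ z.1 u _ p hφu (hq z v) hp]
    simp only [xiG, D, Pi.sub_apply, Pi.smul_apply, smul_eq_mul]
    ring
  have key := h.pr u hu (LinearMap.mk₂ ℂ
    (fun z v : V3 × W => D p u (etaG S z.1 z.2 v.1 v.2 - ζ v • z.1))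
    (by
      intro z z' v
      simp only [etaG, D, Pi.sub_apply, Pi.smul_apply, smul_eq_mul, Pi.add_apply, Prod.fst_add,
        Prod.snd_add, map_add, LinearMap.add_apply, Matrix.add_mulVec, Matrix.mulVec_add]
      ring)
    (by
      intro c z v
      simp only [etaG, D, Pi.sub_apply, Pi.smul_apply, smul_eq_mul, Pi.add_apply, Prod.smul_fst,
        Prod.smul_snd, map_smul, LinearMap.smul_apply, Matrix.smul_mulVec, Matrix.mulVec_smul]
      ring)
    (by
      intro z v v'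
      simp only [etaG, D, Pi.sub_apply, Pi.smul_apply, smul_eq_mul, Pi.add_apply, Prod.fst_add,
        Prod.snd_add, map_add, LinearMap.add_apply, Matrix.add_mulVec, Matrix.mulVec_add]
      ring)
    (by
      intro c z v
      simp only [etaG, D, Pi.sub_apply, Pi.smul_apply, smul_eq_mul, Pi.add_apply, Prod.smul_fst,
        Prod.smul_snd, map_smul, LinearMap.smul_apply, Matrix.smul_mulVec, Matrix.mulVec_smul]
      ring)) (by
    intro z v v'
    rw [LinearMap.mk₂_apply, LinearMap.mk₂_apply, hxi, hxi]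
    ring)
  apply xi_ne h u hu
  intro z v
  have h1 := LinearMap.congr_fun (LinearMap.congr_fun key z) v
  rw [LinearMap.mk₂_apply] at h1
  rw [hxi, h1]
  simp

/-- `ξ_u` is not a multiple of a constant 1-form `λ ≠ 0` (take `ν z v = l z * λ v`, `l ≠ 0`) -/
theorem no_dsG {S : DatG W} (h : StdG S) (u : V3) (hu : u ≠ 0) (lam : (V3 × W) →ₗ[ℂ] ℂ)
    (hlam : lam ≠ 0) (q : V3 × W → ℂ)
    (h0 : ∀ z v : V3 × W, xiG S u z.1 z.2 v.1 v.2 = q z * lam v) : False := by
  have key := h.pr u hu (LinearMap.smulRight lam lam) (by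
    intro z v v'
    rw [h0, h0]
    show lam z * lam v * (q z * lam v') = lam z * lam v' * (q z * lam v)
    ring)
  apply hlam
  apply LinearMap.ext
  intro v
  have h1 := LinearMap.congr_fun (LinearMap.congr_fun key v) v
  have h2 : lam v * lam v = 0 := h1
  exact mul_self_eq_zero.mp h2

/-- `ξ_u` has no factorisation `f ν` with `ν` of degree one; in particular `ξ_u ≠ 0` -/
theorem no_linG {S : DatG W} (h : StdG S) (u : V3) (hu : u ≠ 0) (f : V3 × W → ℂ)
    (ν : (V3 × W) →ₗ[ℂ] (V3 × W) →ₗ[ℂ] ℂ)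
    (h0 : ∀ z v : V3 × W, xiG S u z.1 z.2 v.1 v.2 = f z * ν z v) : False := by
  have key := h.pr u hu ν (by
    intro z v v'
    rw [h0, h0]
    ring)
  apply xi_ne h u hu
  intro z v
  rw [h0, key]
  simp

/-- the case `b = 0` -/
def toDat (S : DatG W) : Dat W where
  A := S.A
  B := S.B
  C := S.C

private theorem eta_toDat (S : DatG W) (hb : S.b = 0) (x : V3) (y : W) (t : V3) (w : W) :
    eta (toDat S) x y t w = etaG S x y t w := by
  have h1 : S.b y w = 0 := by rw [hb]; rfl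
  rw [etaG, h1, add_zero]
  rfl

theorem StdG.toStd {S : DatG W} (h : StdG S) (hb : S.b = 0) : Std (toDat S) := by
  refine ⟨?_, ?_, ?_, h.dim⟩
  · intro x y t1 w1 t2 w2 t3 w3
    have h1 := h.cl x y t1 w1 t2 w2 t3 w3
    simp only [dthG, ← eta_toDat S hb] at h1
    exact h1
  · intro w hw
    exact h.nc w hw (fun y => by rw [hb]; rfl)
  · intro u hu ν hν
    apply h.pr u hu ν
    intro z v v'
    have h1 := hν z v v'
    simp only [xi, eta_toDat S hb] at h1
    exact h1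

theorem C3G.of_toDat {S : DatG W} (hb : S.b = 0) (h : C3 (toDat S)) : C3G S := by
  obtain ⟨φ, h0, ω, ζ, hz⟩ := h
  refine ⟨φ, h0, ω, ζ, ?_⟩
  intro z v
  rw [← eta_toDat S hb]
  exact hz z v

end

end Pool.Agent.Helper93.K3B
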