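import Pool.Agent.Helper93.K3B.Div

/-!
K3B / L0G: LEMMA 0'.  `b = g(y,w) c`, `g ≠ 0`, `A_y = c ⊗ a_y`, `B_w = c ⊗ χ_w (+ scalar)`:
impossible.  Proof (`c = e_0`, scalar = 0): `Z S y w = 0` (rank one matrices with the same image),
so (g2) gives `g(y,w) dκ_0 = 0`; `hess` (K3A/Hess) with `eq5'`: `κ_0 = (l·x) μ(x,t)`;
`ξ_(e_0)(x,y;t,w) = κ_0(x;t)`, because `D x e_0 (A_y t) = D x e_0 (B_w x) = D x e_0 b = 0`;
`no_linG`.  General case: `frame_vec` of K3A/Tools2, `StdG.conj`, `StdG.gauge` with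
`ζ w = -(scalar)`; the scalar is a linear function of `w`: it is `S.B w 1 1` in coordinates.
-/

set_option autoImplicit false

namespace Pool.Agent.Helper93.K3B

open Matrix Pool.Agent.Helper93.K3A

variable {W : Type} [AddCommGroup W] [Module ℂ W]

private theorem Z_zero {S : DatG W} (y w : W) (a a' χ : V3)
    (h1 : S.A y = vecMulVec (![1, 0, 0]) a) (h2 : S.A w = vecMulVec (![1, 0, 0]) a')
    (h3 : S.B w = vecMulVec (![1, 0, 0]) χ) : Z S y w = 0 := by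
  ext i j
  fin_cases i <;> fin_cases j <;>
    simp [Z, K3A.adjp, e2p, h1, h2, h3, Matrix.mul_apply, Fin.sum_univ_three,
      Matrix.trace, Matrix.one_apply]

private theorem vmv_mulVec (a t : V3) :
    vecMulVec (![1, 0, 0] : V3) a *ᵥ t = (a ⬝ᵥ t) • (![1, 0, 0] : V3) := by
  funext i
  fin_cases i <;> simp [Matrix.mulVec, dotProduct, Fin.sum_univ_three, vecMulVec_apply]

theorem l0G_coord {S : DatG W} (h : StdG S) (g : W →ₗ[ℂ] W →ₗ[ℂ] ℂ) (hg : ∃ y w, g y w ≠ 0)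
    (hb : ∀ y w, S.b y w = g y w • (![1, 0, 0] : V3))
    (hA : ∀ y, ∃ a, S.A y = vecMulVec (![1, 0, 0]) a)
    (hB : ∀ w, ∃ χ, S.B w = vecMulVec (![1, 0, 0]) χ) : False := by
  obtain ⟨y, w, hyw⟩ := hg
  obtain ⟨a, ha⟩ := hA y
  obtain ⟨a', ha'⟩ := hA w
  obtain ⟨χ, hχ⟩ := hB w
  have hZ : Z S y w = 0 := Z_zero y w a a' χ ha ha' hχ
  have hd : ∀ x t1 t2, dkap S.C (![1, 0, 0]) x t1 t2 = 0 := by
    intro x t1 t2
    have h1 := g2 h.cl y w x t1 t2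
    rw [hZ, hb y w, Matrix.zero_mulVec] at h1
    have h2 : dkap S.C (g y w • (![1, 0, 0] : V3)) x t1 t2
        = g y w * dkap S.C (![1, 0, 0]) x t1 t2 := by
      simp only [dkap, D, Pi.smul_apply, smul_eq_mul]
      ring
    have h3 : D (0 : V3) t1 t2 = 0 := by simp [D]
    rw [h2, h3] at h1
    exact (mul_eq_zero.mp h1).resolve_left hyw
  obtain ⟨l, μ, -, hμ⟩ := hess S.C (fun x t1 t2 => by
    have := hd x t1 t2
    rw [dkap] at this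
    linear_combination this) (eq5' h.cl)
  have hu : (![1, 0, 0] : V3) ≠ 0 := fun h0 => by simpa using congrFun h0 0
  let ν : (V3 × W) →ₗ[ℂ] (V3 × W) →ₗ[ℂ] ℂ :=
    μ.compl₁₂ (LinearMap.fst ℂ V3 W) (LinearMap.fst ℂ V3 W)
  refine no_linG h (![1, 0, 0]) hu (fun z => l ⬝ᵥ z.1) ν ?_
  intro z v
  obtain ⟨a1, ha1⟩ := hA z.2
  obtain ⟨χ1, hχ1⟩ := hB v.2
  have e1 : xiG S (![1, 0, 0]) z.1 z.2 v.1 v.2 = kap S.C (![1, 0, 0]) z.1 v.1 := by
    rw [xiG, etaG, ha1, hχ1, hb, vmv_mulVec, vmv_mulVec, kap]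
    simp only [D, Pi.add_apply, Pi.smul_apply, smul_eq_mul, Matrix.cons_val_zero,
      Matrix.cons_val_one, Matrix.cons_val]
    ring
  have e2 : ν z v = μ z.1 v.1 := rfl
  rw [e1, e2, hμ]

theorem l0G {S : DatG W} (h : StdG S) (c : V3) (hc : c ≠ 0) (g : W →ₗ[ℂ] W →ₗ[ℂ] ℂ)
    (hg : ∃ y w, g y w ≠ 0) (hb : ∀ y w, S.b y w = g y w • c)
    (hA : ∀ y, ∃ a, S.A y = vecMulVec c a)
    (hB : ∀ w, ∃ χ, ∃ s : ℂ, S.B w = vecMulVec c χ + s • (1 : M3)) : False := by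
  obtain ⟨P, Q, hPQ, hQP, hPc⟩ := frame_vec c hc
  have h1 := h.conj hPQ
  let T := conjG S P Q
  have hTB : ∀ w, ∃ χ, T.B w = vecMulVec (![1, 0, 0]) χ + (T.B w 1 1) • (1 : M3) := by
    intro w
    obtain ⟨χ, s, hs⟩ := hB w
    have e1 : T.B w = vecMulVec (![1, 0, 0]) (χ ᵥ* Q) + s • (1 : M3) := by
      have e0 : T.B w = P * S.B w * Q := rfl
      rw [e0, hs, Matrix.mul_add, Matrix.add_mul, Matrix.mul_smul, Matrix.smul_mul, Matrix.mul_one,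
        hPQ, Matrix.mul_vecMulVec, Matrix.vecMulVec_mul, hPc]
    have e2 : T.B w 1 1 = s := by
      rw [e1]
      simp
    exact ⟨χ ᵥ* Q, by rw [e2]; exact e1⟩
  let ζ : W →ₗ[ℂ] ℂ :=
    { toFun := fun w => -(T.B w 1 1)
      map_add' := fun x y => by simp; ring
      map_smul' := fun c x => by simp }
  have h2 := StdG.gauge h1 ζ 0
  refine l0G_coord h2 g hg ?_ ?_ ?_
  · intro y w
    have e0 : (gaugeG (conjG S P Q) ζ 0).b y w = P *ᵥ S.b y w := rfl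
    rw [e0, hb, Matrix.mulVec_smul, hPc]
  · intro y
    obtain ⟨a, ha⟩ := hA y
    have e0 : (gaugeG (conjG S P Q) ζ 0).A y = P * S.A y * Q := rfl
    refine ⟨a ᵥ* Q, ?_⟩
    rw [e0, ha, Matrix.mul_vecMulVec, Matrix.vecMulVec_mul, hPc]
  · intro w
    obtain ⟨χ, hχ⟩ := hTB w
    refine ⟨χ, ?_⟩
    have e0 : (gaugeG (conjG S P Q) ζ 0).B w = T.B w + ζ w • (1 : M3) := rfl
    have e1 : ζ w = -(T.B w 1 1) := rfl
    rw [e0, e1, neg_smul, add_neg_eq_iff_eq_add]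
    exact hχ

end Pool.Agent.Helper93.K3B
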