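import Pool.Agent.Helper93.K3B.Div
import Pool.Agent.Helper93.K3B.Lin

/-!
K3B / M0: CASE M, `b(y,w) = f(w) m(y)`, `f(w1) = 0`, `m(w1) ≠ 0`: set-up.
-/

set_option autoImplicit false

namespace Pool.Agent.Helper93.K3B

open Matrix Pool.Agent.Helper93.K3A

variable {W : Type} [AddCommGroup W] [Module ℂ W]

/-- the normalised data of CASE M -/
structure MD (S : DatG W) (f : W →ₗ[ℂ] ℂ) (m : W →ₗ[ℂ] V3) (w1 e : W) (u φ : V3) : Prop where
  std : StdG S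
  hb : ∀ y w, S.b y w = f w • m y
  hw1 : f w1 = 0
  he : f e = 1
  hm1 : m w1 ≠ 0
  A1 : S.A w1 = vecMulVec u φ
  B1 : S.B w1 = vecMulVec u φ
  hu : u ≠ 0
  hφ : φ ≠ 0
  Au : ∀ y, S.A y *ᵥ u = (S.A y).trace • u

/-- (g1) -/
theorem MD.Am {S : DatG W} {f : W →ₗ[ℂ] ℂ} {m : W →ₗ[ℂ] V3} {w1 e : W} {u φ : V3}
    (h : MD S f m w1 e u φ) (y : W) : S.A y *ᵥ m y = (S.A y).trace • m y := by
  have h1 := g1 h.std.cl y e
  rw [h.hb, h.he, one_smul] at h1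
  exact h1

/-- (F), from (g3)(w,e;y) at `t = x` -/
theorem MD.F {S : DatG W} {f : W →ₗ[ℂ] ℂ} {m : W →ₗ[ℂ] V3} {w1 e : W} {u φ : V3}
    (h : MD S f m w1 e u φ) (w : W) (hw : f w = 0) (y : W) (x : V3) :
    2 * D x (S.B w *ᵥ x) (m y) - D x (S.A w *ᵥ x) (m y) = D x (S.A y *ᵥ x) (m w) := by
  have h1 := g3 h.std.cl y w e x x
  simp only [h.hb, h.he, hw, one_smul, zero_smul, sub_zero] at h1
  simp only [D, Pi.zero_apply] at h1 ⊢
  linear_combination h1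

/-- change of coordinates in `U` -/
theorem MD.conj {S : DatG W} {f : W →ₗ[ℂ] ℂ} {m : W →ₗ[ℂ] V3} {w1 e : W} {u φ : V3}
    (h : MD S f m w1 e u φ) {P Q : M3} (hPQ : P * Q = 1) :
    MD (conjG S P Q) f ((Matrix.toLin' P).comp m) w1 e (P *ᵥ u) (φ ᵥ* Q) := by
  have hQP : Q * P = 1 := mul_eq_one_comm.mp hPQ
  have hP0 : ∀ v : V3, v ≠ 0 → P *ᵥ v ≠ 0 := by
    intro v hv h0
    apply hv
    have h1 : Q *ᵥ (P *ᵥ v) = v := by rw [Matrix.mulVec_mulVec, hQP, Matrix.one_mulVec]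
    rw [← h1, h0, Matrix.mulVec_zero]
  have hvv : ∀ a b : V3, P * vecMulVec a b * Q = vecMulVec (P *ᵥ a) (b ᵥ* Q) := by
    intro a b
    ext i j
    simp only [Matrix.mul_apply, vecMulVec_apply, Matrix.mulVec, Matrix.vecMul, dotProduct,
      Fin.sum_univ_three]
    ring
  refine ⟨h.std.conj hPQ, ?_, h.hw1, h.he, ?_, ?_, ?_, hP0 u h.hu, ?_, ?_⟩
  · intro y w
    show P *ᵥ S.b y w = f w • (P *ᵥ m y)
    rw [h.hb, Matrix.mulVec_smul]
  · show P *ᵥ m w1 ≠ 0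
    exact hP0 _ h.hm1
  · show P * S.A w1 * Q = _
    rw [h.A1, hvv]
  · show P * S.B w1 * Q = _
    rw [h.B1, hvv]
  · intro h0
    apply h.hφ
    have h1 : (φ ᵥ* Q) ᵥ* P = φ := by rw [Matrix.vecMul_vecMul, hQP, Matrix.vecMul_one]
    rw [← h1, h0, Matrix.zero_vecMul]
  · intro y
    show (P * S.A y * Q) *ᵥ (P *ᵥ u) = (P * S.A y * Q).trace • (P *ᵥ u)
    have ht : (P * S.A y * Q).trace = (S.A y).trace := by
      rw [Matrix.trace_mul_comm, ← Matrix.mul_assoc, hQP, Matrix.one_mul]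
    rw [ht, Matrix.mulVec_mulVec, Matrix.mul_assoc, hQP, Matrix.mul_one, ← Matrix.mulVec_mulVec,
      h.Au y, Matrix.mulVec_smul]

/-- gauge with `ζ(w1) = 0` -/
theorem MD.gauge {S : DatG W} {f : W →ₗ[ℂ] ℂ} {m : W →ₗ[ℂ] V3} {w1 e : W} {u φ : V3}
    (h : MD S f m w1 e u φ) (ζ : W →ₗ[ℂ] ℂ) (hζ : ζ w1 = 0) (k : V3) :
    MD (gaugeG S ζ k) f m w1 e u φ := by
  refine ⟨h.std.gauge ζ k, h.hb, h.hw1, h.he, h.hm1, h.A1, ?_, h.hu, h.hφ, h.Au⟩
  show S.B w1 + ζ w1 • (1 : M3) = _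
  rw [hζ, zero_smul, add_zero, h.B1]

/-- change of `e` by an element of `ker f` -/
theorem MD.shift {S : DatG W} {f : W →ₗ[ℂ] ℂ} {m : W →ₗ[ℂ] V3} {w1 e : W} {u φ : V3}
    (h : MD S f m w1 e u φ) (e' : W) (he' : f e' = 1) : MD S f m w1 e' u φ := by
  exact { h with he := he' }

/-- SET-UP.  Choose `e` with `f(e) = 1`.  (F) for `w = y = w1` (as in `MD.F`, from `g3`):
`D x ((B_1 - A_1) x) c = 0`, `c = m(w1)`, so `B_1 - A_1 = s + c ⊗ l` (`pc`).  `lgG S e l`: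
`A_w1 + c ⊗ l`, `B_w1` unchanged (`b e w1 = f(w1) m(e) = 0`); then gauge `ζ` with `ζ(w1) = -s`
(`ζ = -s ψ ∘ m` with `ψ(c) = 1`): `B_1 = A_1`.  (g2)(y,w1): `b(y,w1) = 0`, so
`(tr A_y - A_y) A_1 = 0` for all `y`; `y = w1` and `e_2(A_1) = 0`: `ad A_1 = 0`, so
`A_1 = u ⊗ φ` (`rank1_of_ad_zero`), `A_1 ≠ 0` by NCG (`b(·,w1) = 0`, `w1 ≠ 0`); `A_y u = tr(A_y) u`. -/
theorem m_setup {S : DatG W} (h : StdG S) (f : W →ₗ[ℂ] ℂ) (hf : f ≠ 0) (m : W →ₗ[ℂ] V3)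
    (hb : ∀ y w, S.b y w = f w • m y) (w1 : W) (hw1 : f w1 = 0) (hm1 : m w1 ≠ 0) :
    ∃ (S' : DatG W) (e : W) (u φ : V3), MD S' f m w1 e u φ := by
  obtain ⟨e0, he0⟩ : ∃ e0, f e0 ≠ 0 := by
    by_contra hcon
    push Not at hcon
    exact hf (LinearMap.ext hcon)
  obtain ⟨e, he⟩ : ∃ e, f e = 1 := ⟨(f e0)⁻¹ • e0, by simp [he0]⟩
  have hF : ∀ x, D x ((S.B w1 - S.A w1) *ᵥ x) (m w1) = 0 := by
    intro x
    have h1 := g3 h.cl w1 w1 e x x
    simp only [hb, he, hw1, one_smul, zero_smul, sub_zero] at h1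
    rw [Matrix.sub_mulVec]
    simp only [D, Pi.zero_apply, Pi.sub_apply] at h1 ⊢
    linear_combination h1 / 2
  obtain ⟨s, l, hsl⟩ := pc _ _ hm1 hF
  obtain ⟨i, hi⟩ : ∃ i, m w1 i ≠ 0 := by
    by_contra hcon
    push Not at hcon
    exact hm1 (funext hcon)
  let ζ : W →ₗ[ℂ] ℂ := (-s * (m w1 i)⁻¹) • ((LinearMap.proj i : V3 →ₗ[ℂ] ℂ).comp m)
  have hζ : ζ w1 = -s := by
    show (-s * (m w1 i)⁻¹) * m w1 i = -s
    field_simp
  let S' : DatG W := gaugeG (lgG S e l) ζ 0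
  have hS' : StdG S' := (h.lg e l).gauge ζ 0
  have hb' : ∀ y w, S'.b y w = f w • m y := hb
  have hA1 : S'.A w1 = S.A w1 + vecMulVec (m w1) l := by
    show S.A w1 + vecMulVec (S.b w1 e) l = _
    rw [hb, he, one_smul]
  have hB1 : S'.B w1 = S.B w1 - s • (1 : M3) := by
    show S.B w1 + vecMulVec (S.b e w1) l + ζ w1 • (1 : M3) = _
    rw [hb, hw1, zero_smul, hζ]
    ext i j
    simp
    ring
  have hAB : S'.A w1 = S'.B w1 := by
    rw [hA1, hB1]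
    have : S.B w1 = S.A w1 + (s • (1 : M3) + vecMulVec (m w1) l) := by rw [← hsl]; abel
    rw [this]
    abel
  have hZ : ∀ y, ((S'.A y).trace • (1 : M3) - S'.A y) * S'.A w1 = 0 := by
    intro y
    have h2 : ∀ x, Z S' y w1 *ᵥ x = 0 := by
      intro x
      apply eq_zero_of_D
      intro t1 t2
      rw [← g2 hS'.cl y w1 x t1 t2, hb', hw1, zero_smul]
      simp only [dkap, D, Pi.zero_apply]
      ring
    have h3 : Z S' y w1 = 0 := by
      ext a b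
      have h4 := congrFun (h2 (Pi.single b 1)) a
      simpa using h4
    have h5 : Z S' y w1 = ((S'.A y).trace • (1 : M3) - S'.A y) * S'.A w1 := by
      rw [Z, ← hAB, sub_self]
      have : K3A.adjp (S'.A y) 0 = 0 := by
        simp [K3A.adjp, e2p]
      rw [this, add_zero]
    rw [← h5, h3]
  have hA0 : S'.A w1 ≠ 0 := by
    intro h0
    have hw : w1 = 0 := by
      apply hS'.nc w1 ⟨0, by rw [← hAB, h0, zero_smul]⟩
      intro y
      rw [hb', hw1, zero_smul]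
    exact hm1 (by rw [hw, map_zero])
  have had : ad (S'.A w1) = 0 := by
    have h1 := hZ w1
    rw [Matrix.sub_mul, Matrix.smul_mul, Matrix.one_mul, sub_eq_zero] at h1
    rw [ad, e2A' hS'.cl, zero_smul, add_zero, ← h1, sub_self]
  obtain ⟨u, φ, huφ⟩ := rank1_of_ad_zero _ had
  have hu : u ≠ 0 := by
    intro h0
    apply hA0
    rw [huφ, h0]
    ext i j
    simp [vecMulVec_apply]
  have hφ : φ ≠ 0 := by
    intro h0
    apply hA0
    rw [huφ, h0]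
    ext i j
    simp [vecMulVec_apply]
  obtain ⟨j, hj⟩ : ∃ j, φ j ≠ 0 := by
    by_contra hcon
    push Not at hcon
    exact hφ (funext hcon)
  refine ⟨S', e, u, φ, hS', hb', hw1, he, hm1, huφ, by rw [← hAB, huφ], hu, hφ, ?_⟩
  intro y
  have h1 := hZ y
  rw [huφ] at h1
  have h2 : ∀ i, (((S'.A y).trace • (1 : M3) - S'.A y) *ᵥ u) i * φ j = 0 := by
    intro i
    have h3 := congrFun (congrFun h1 i) j
    simp only [Matrix.mul_apply, vecMulVec_apply, Matrix.zero_apply, Fin.sum_univ_three] at h3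
    simp only [Matrix.mulVec, dotProduct, Fin.sum_univ_three]
    linear_combination h3
  have h4 : ((S'.A y).trace • (1 : M3) - S'.A y) *ᵥ u = 0 := by
    ext i
    rcases mul_eq_zero.mp (h2 i) with h5 | h5
    · exact h5
    · exact absurd h5 hj
  rw [Matrix.sub_mulVec, Matrix.smul_mulVec, Matrix.one_mulVec, sub_eq_zero] at h4
  exact h4.symm

end Pool.Agent.Helper93.K3B
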